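import Pool.Agent.Lib.MP_01b126_co.St.Shortcut

/-!
# MP_01b126_co, STRUCTURE: the visible region is convex
-/

namespace MP01b126.Lim

open Set

variable (X : Lim)

theorem shortcut {x y z : ℝ × ℝ} (h1 : segment ℝ z x ⊆ X.Om) (h2 : segment ℝ z y ⊆ X.Om) :
    segment ℝ x y ⊆ X.Om := by
  set a := x - z with ha
  set b := y - z with hb
  have hx : x = z + a := by rw [ha]; abel
  have hy : y = z + b := by rw [hb]; abel
  have za : ∀ p : ℝ, 0 ≤ p → p ≤ 1 → z + p • a ∈ X.Om := by
    intro p h0 h3
    apply h1
    refine ⟨1 - p, p, by linarith, h0, by ring, ?_⟩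
    rw [hx, smul_add, ← add_assoc, ← add_smul]; simp
  have zb : ∀ p : ℝ, 0 ≤ p → p ≤ 1 → z + p • b ∈ X.Om := by
    intro p h0 h3
    apply h2
    refine ⟨1 - p, p, by linarith, h0, by ring, ?_⟩
    rw [hy, smul_add, ← add_assoc, ← add_smul]; simp
  by_cases hD : cr a b = 0
  · -- collinear
    rintro w ⟨s, t, hs, ht, hst, rfl⟩
    have hw : s • x + t • y = z + (s • a + t • b) := by
      rw [hx, hy, smul_add, smul_add]
      have : z = s • z + t • z := by rw [← add_smul, hst, one_smul]
      nth_rewrite 3 [this]; abel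
    rw [hw]
    by_cases ha0 : a = 0
    · rw [ha0, smul_zero, zero_add]
      exact zb t ht (by linarith)
    · obtain ⟨l, hl⟩ : ∃ l : ℝ, b = l • a := by
        unfold cr at hD
        by_cases h : a.1 = 0
        · have h' : a.2 ≠ 0 := by
            intro h'; apply ha0; ext <;> simp [h, h']
          refine ⟨b.2 / a.2, ?_⟩
          ext
          · rw [h] at hD
            have : b.1 = 0 := by
              have : a.2 * b.1 = 0 := by linarith
              exact (mul_eq_zero.mp this).resolve_left h'
            simp [this, h]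
          · simp only [Prod.smul_snd, smul_eq_mul]; field_simp
        · refine ⟨b.1 / a.1, ?_⟩
          ext
          · simp only [Prod.smul_fst, smul_eq_mul]; field_simp
          · simp only [Prod.smul_snd, smul_eq_mul]; field_simp; linarith
      have e : s • a + t • b = (s + t * l) • a := by rw [hl, smul_smul, add_smul]
      rw [e]
      by_cases c1 : 0 ≤ s + t * l ∧ s + t * l ≤ 1
      · exact za _ c1.1 c1.2
      · have hl0 : l ≠ 0 := by
          rintro rfl
          apply c1; constructor <;> linarith
        have : (s + t * l) • a = ((s + t * l) / l) • b := by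
          rw [hl, smul_smul]; congr 1; field_simp
        rw [this]
        rcases lt_or_gt_of_ne hl0 with hneg | hpos
        · have h3 : s + t * l < 0 := by
            by_contra h3
            apply c1
            refine ⟨not_lt.mp h3, ?_⟩
            nlinarith
          refine zb _ (div_nonneg_of_nonpos h3.le hneg.le) ?_
          rw [div_le_one_of_neg hneg]
          nlinarith
        · have h3 : 1 < s + t * l := by
            by_contra h3
            apply c1
            refine ⟨by positivity, not_lt.mp h3⟩
          refine zb _ (div_nonneg (by linarith) hpos.le) ?_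
          rw [div_le_one hpos]
          have : 1 < l := by nlinarith
          nlinarith
  · -- nondegenerate
    set K : Set (ℝ × ℝ) := {w | 0 ≤ cP a b (w - z) ∧ 0 ≤ cQ a b (w - z) ∧ et a b (w - z) ≤ 1} ∩
      (X.Om)ᶜ with hK
    have hKc : IsCompact K := (Bad.isCompact_tri hD 1).inter_right X.isOpen_Om.isClosed_compl
    by_cases hne : K.Nonempty
    · exfalso
      obtain ⟨c, hcK, hmin⟩ := hKc.exists_isMinOn hne (Bad.continuous_et (z := z)).continuousOn
      obtain ⟨⟨c1, c2, c3⟩, c4⟩ := hcK
      have hc := Bad.eq_of (z := z) hD c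
      have B : X.Bad z a b c := by
        refine ⟨hD, za, zb, ?_, ?_, c3, c4, ?_⟩
        · rcases c1.lt_or_eq with h | h
          · exact h
          · exfalso; apply c4
            rw [← h, zero_smul, zero_add] at hc
            rw [hc]
            exact zb _ c2 (by unfold et at c3; linarith)
        · rcases c2.lt_or_eq with h | h
          · exact h
          · exfalso; apply c4
            rw [← h, zero_smul, add_zero] at hc
            rw [hc]
            exact za _ c1 (by unfold et at c3; linarith)
        · intro w h1 h2 h3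
          by_contra hw
          have : w ∈ K := ⟨⟨h1, h2, by linarith⟩, hw⟩
          have := hmin this
          simp only [mem_ofPred_eq] at this
          linarith
      exact B.false
    · rintro w ⟨s, t, hs, ht, hst, rfl⟩
      by_contra hw
      apply hne
      have e : s • x + t • y - z = s • a + t • b := by
        rw [hx, hy, smul_add, smul_add]
        have : z = s • z + t • z := by rw [← add_smul, hst, one_smul]
        nth_rewrite 3 [this]; abel
      refine ⟨_, ⟨?_, ?_, ?_⟩, hw⟩
      · show 0 ≤ cP a b (s • x + t • y - z)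
        rw [e, cP_comb hD]; exact hs
      · show 0 ≤ cQ a b (s • x + t • y - z)
        rw [e, cQ_comb hD]; exact ht
      · show et a b (s • x + t • y - z) ≤ 1
        rw [e]; unfold et; rw [cP_comb hD, cQ_comb hD]; linarith

/-- the centroid of a triangle -/
noncomputable def cen (t : Pt × Pt × Pt) : ℝ × ℝ :=
  (1 / 3 : ℝ) • (emb t.1 + emb t.2.1 + emb t.2.2)

lemma cen_mem_interior {a b c : Pt} (h : X.V a b c) : cen (a, b, c) ∈ interior (hull {a, b, c}) := by
  have hh : cen (a, b, c) ∈ hull {a, b, c} := by
    rw [mem_hull_iff]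
    refine ⟨1 / 3, 1 / 3, by norm_num, by norm_num, by norm_num, ?_⟩
    unfold cen
    ext <;> simp <;> ring
  have hd := X.det h
  have hcr := Bad.cast_det3 a b c
  rw [hd] at hcr
  have key : ∀ s : ℝ, cen (a, b, c) = emb a + s • (emb b - emb a) → False := by
    intro s hs
    have h1 : cr (emb b - emb a) (cen (a, b, c) - emb a) = 1 / 3 := by
      have : cr (emb b - emb a) (cen (a, b, c) - emb a) =
          (1 / 3) * cr (emb b - emb a) (emb c - emb a) := by
        unfold cen cr; simp; ring
      rw [this, ← hcr]; norm_num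
    rw [hs] at h1
    have : cr (emb b - emb a) (emb a + s • (emb b - emb a) - emb a) = 0 := by
      unfold cr; simp; ring
    rw [this] at h1; norm_num at h1
  have key2 : ∀ s : ℝ, cen (a, b, c) = emb b + s • (emb c - emb b) → False := by
    intro s hs
    have h1 : cr (emb c - emb b) (cen (a, b, c) - emb b) = 1 / 3 := by
      have : cr (emb c - emb b) (cen (a, b, c) - emb b) =
          (1 / 3) * cr (emb b - emb a) (emb c - emb a) := by
        unfold cen cr; simp; ring
      rw [this, ← hcr]; norm_num
    rw [hs] at h1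
    have : cr (emb c - emb b) (emb b + s • (emb c - emb b) - emb b) = 0 := by
      unfold cr; simp; ring
    rw [this] at h1; norm_num at h1
  have key3 : ∀ s : ℝ, cen (a, b, c) = emb c + s • (emb a - emb c) → False := by
    intro s hs
    have h1 : cr (emb a - emb c) (cen (a, b, c) - emb c) = 1 / 3 := by
      have : cr (emb a - emb c) (cen (a, b, c) - emb c) =
          (1 / 3) * cr (emb b - emb a) (emb c - emb a) := by
        unfold cen cr; simp; ring
      rw [this, ← hcr]; norm_num
    rw [hs] at h1
    have : cr (emb a - emb c) (emb c + s • (emb a - emb c) - emb c) = 0 := by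
      unfold cr; simp; ring
    rw [this] at h1; norm_num at h1
  rcases X.mem_hull_cases h hh with h1 | h1 | h1 | h1 | ⟨s, _, _, h1⟩ | ⟨s, _, _, h1⟩ |
    ⟨s, _, _, h1⟩
  · exact h1
  · exact (key 0 (by simpa using h1)).elim
  · exact (key2 0 (by simpa using h1)).elim
  · exact (key3 0 (by simpa using h1)).elim
  · exact (key s h1).elim
  · exact (key2 s h1).elim
  · exact (key3 s h1).elim

lemma seg_trans {x y z : ℝ × ℝ} (h1 : segment ℝ x z ⊆ X.Om) (h2 : segment ℝ z y ⊆ X.Om) :
    segment ℝ x y ⊆ X.Om := X.shortcut (by rw [segment_symm]; exact h1) h2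

lemma seg_interior {a b c : Pt} (h : X.V a b c) {x y : ℝ × ℝ}
    (hx : x ∈ interior (hull {a, b, c})) (hy : y ∈ interior (hull {a, b, c})) :
    segment ℝ x y ⊆ X.Om :=
  ((Bad.convex_hull {a, b, c}).interior.segment_subset hx hy).trans (X.interior_subset_Om h)

/-- centroids of adjacent visible triangles -/
lemma seg_adj {a b c d : Pt} (h : X.V a b c) (h' : X.V b a d) :
    segment ℝ (cen (a, b, c)) (cen (b, a, d)) ⊆ X.Om := by
  set M : ℝ × ℝ := emb a + (1 / 2 : ℝ) • (emb b - emb a) with hM
  have hMO : M ∈ X.Om := X.edge_mem_Om h h' (by norm_num) (by norm_num)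
  have hM' : M = emb b + (1 / 2 : ℝ) • (emb a - emb b) := by
    rw [hM]; ext <;> simp <;> ring
  have aux : ∀ {a b c : Pt}, X.V a b c → M = emb a + (1 / 2 : ℝ) • (emb b - emb a) →
      segment ℝ (cen (a, b, c)) M ⊆ X.Om := by
    intro a b c h hM
    intro w hw
    by_cases hwM : w = M
    · rw [hwM]; exact hMO
    · apply X.interior_subset_Om h
      obtain ⟨s, t, hs, ht, hst, rfl⟩ := hw
      have hs0 : 0 < s := by
        rcases hs.lt_or_eq with h0 | h0
        · exact h0
        · exfalso; apply hwM
          have ht1 : t = 1 := by linarith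
          rw [← h0, ht1]; simp
      have hMh : M ∈ hull {a, b, c} := by
        rw [hM, mem_hull_iff]
        exact ⟨1 / 2, 0, by norm_num, le_refl _, by norm_num, by simp⟩
      exact (Bad.convex_hull {a, b, c}).combo_interior_self_mem_interior
        (X.cen_mem_interior h) hMh hs0 ht hst
  apply X.seg_trans (aux h hM)
  rw [segment_symm]
  exact aux h' hM'

lemma exists_cen {x : ℝ × ℝ} (hx : x ∈ X.Om) : ∃ t : Pt × Pt × Pt, X.V t.1 t.2.1 t.2.2 ∧
    segment ℝ x (cen t) ⊆ X.Om := by
  obtain ⟨F, hF, hn⟩ := id hx
  have := mem_of_mem_nhds hn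
  simp only [mem_iUnion, exists_prop] at this
  obtain ⟨t, ht, hxt⟩ := this
  have hV := hF t ht
  refine ⟨t, hV, ?_⟩
  obtain ⟨ε, hε, hball⟩ := Metric.isOpen_iff.mp X.isOpen_Om x hx
  have hint := X.cen_mem_interior hV
  -- a point of the interior close to `x`
  obtain ⟨s, hs0, hs1, hsε⟩ : ∃ s : ℝ, 0 < s ∧ s ≤ 1 ∧
      x + s • (cen t - x) ∈ Metric.ball x ε := by
    have c1 : Filter.Tendsto (fun s : ℝ => x + s • (cen t - x)) (nhdsWithin 0 (Ioi 0))
        (nhds (x + (0 : ℝ) • (cen t - x))) := by
      apply tendsto_nhdsWithin_of_tendsto_nhds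
      apply Continuous.tendsto; fun_prop
    rw [zero_smul, add_zero] at c1
    have e1 := c1.eventually (Metric.ball_mem_nhds x hε)
    have e3 : ∀ᶠ τ : ℝ in nhdsWithin 0 (Ioi 0), τ < 1 :=
      mem_nhdsWithin_of_mem_nhds (Iio_mem_nhds (by norm_num))
    obtain ⟨τ, ⟨h1, h3⟩, h4⟩ := ((e1.and e3).and self_mem_nhdsWithin).exists
    exact ⟨τ, h4, h3.le, h1⟩
  have hyint : x + s • (cen t - x) ∈ interior (hull {t.1, t.2.1, t.2.2}) := by
    have : x + s • (cen t - x) = s • cen t + (1 - s) • x := by
      rw [smul_sub, sub_smul, one_smul]; abel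
    rw [this]
    exact (Bad.convex_hull _).combo_interior_self_mem_interior hint hxt hs0 (by linarith) (by ring)
  apply X.seg_trans (z := x + s • (cen t - x))
  · exact ((convex_ball x ε).segment_subset (Metric.mem_ball_self hε) hsε).trans hball
  · exact X.seg_interior hV hyint hint

theorem convex_Om : Convex ℝ X.Om := by
  rw [convex_iff_segment_subset]
  intro x hx y hy
  obtain ⟨⟨a, b, c⟩, h1, h2⟩ := X.exists_cen hx
  obtain ⟨⟨a', b', c'⟩, h3, h4⟩ := X.exists_cen hy
  have hconn := X.conn h1 h3
  apply X.seg_trans h2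
  apply X.seg_trans (z := cen (a', b', c')) _ (by rw [segment_symm]; exact h4)
  have key : ∀ t : Pt × Pt × Pt, Relation.ReflTransGen (fun s t : Pt × Pt × Pt =>
      X.V s.1 s.2.1 s.2.2 ∧ X.V t.1 t.2.1 t.2.2 ∧
        (t = (s.2.1, s.2.2, s.1) ∨ (t.1 = s.2.1 ∧ t.2.1 = s.1))) (a, b, c) t →
      segment ℝ (cen (a, b, c)) (cen t) ⊆ X.Om := by
    intro t ht
    induction ht with
    | refl =>
      rw [segment_same]
      rintro _ rfl
      exact X.interior_subset_Om h1 (X.cen_mem_interior h1)
    | @tail s t _ hst ih =>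
      obtain ⟨hs, ht, h | ⟨h5, h6⟩⟩ := hst
      · have : cen t = cen s := by
          rw [h]; unfold cen; congr 1
          show emb s.2.1 + emb s.2.2 + emb s.1 = emb s.1 + emb s.2.1 + emb s.2.2
          abel
        rw [this]; exact ih
      · obtain ⟨s1, s2, s3⟩ := s
        obtain ⟨t1, t2, t3⟩ := t
        simp only at h5 h6 hs ht
        subst h5; subst h6
        exact X.seg_trans ih (X.seg_adj hs ht)
  exact key _ hconn

end MP01b126.Lim
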