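import Pool.Agent.Lib.MP_01b126_co.St.HubLine

/-!
# MP_01b126_co, STRUCTURE: reduction of the classification to regions in the upper half plane
-/

namespace MP01b126.Lim

open Set Filter Topology

variable {X : Lim}

lemma isCompact_Tri63 (o u w : Pt) : IsCompact (Tri63 o u w) := by
  have hK : IsCompact {q : ℝ × ℝ | 0 ≤ q.1 ∧ q.1 ≤ 2 * q.2 ∧ q.2 ≤ 3} := by
    have hsub : {q : ℝ × ℝ | 0 ≤ q.1 ∧ q.1 ≤ 2 * q.2 ∧ q.2 ≤ 3} ⊆ Icc (0 : ℝ) 6 ×ˢ Icc (0 : ℝ) 3 := by
      rintro q ⟨h1, h2, h3⟩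
      exact ⟨⟨h1, by linarith⟩, ⟨by linarith, h3⟩⟩
    apply (isCompact_Icc.prod isCompact_Icc).of_isClosed_subset _ hsub
    apply IsClosed.and (isClosed_le (by fun_prop) (by fun_prop))
    exact IsClosed.and (isClosed_le (by fun_prop) (by fun_prop))
      (isClosed_le (by fun_prop) (by fun_prop))
  have : Tri63 o u w = (fun q : ℝ × ℝ => emb o + q.1 • emb u + q.2 • emb w) ''
      {q : ℝ × ℝ | 0 ≤ q.1 ∧ q.1 ≤ 2 * q.2 ∧ q.2 ≤ 3} := by
    ext p
    constructor
    · rintro ⟨x, y, h1, h2, h3, rfl⟩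
      exact ⟨(x, y), ⟨h1, h2, h3⟩, rfl⟩
    · rintro ⟨q, ⟨h1, h2, h3⟩, rfl⟩
      exact ⟨q.1, q.2, h1, h2, h3, rfl⟩
  rw [this]
  exact hK.image (by fun_prop)

/-- a room from local covers -/
lemma hasRoom_of_local {o u w : Pt} (huw : dt u w = 1)
    (h : ∀ x ∈ Tri63 o u w, x ∈ X.Om ∨ ∃ F : Finset (Pt × Pt × Pt),
      (∀ t ∈ F, X.V t.1 t.2.1 t.2.2) ∧
      (⋃ t ∈ F, hull {t.1, t.2.1, t.2.2}) ∈ nhdsWithin x (Tri63 o u w)) : X.HasRoom := by
  obtain ⟨F, h1, h2⟩ := X.exists_cover (isCompact_Tri63 o u w) (fun x hx => by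
    rcases h x hx with h1 | h1
    · obtain ⟨F, hF, hn⟩ := h1
      exact ⟨F, hF, mem_nhdsWithin_of_mem_nhds hn⟩
    · exact h1)
  exact ⟨o, u, w, huw, F, h1, h2⟩

lemma hasRoom_of_sqIn (h : PG.SqIn X.Om) : X.HasRoom := by
  obtain ⟨o, u, w, huw, hsq⟩ := h
  apply hasRoom_of_local (o := o) huw
  rintro _ ⟨x, y, h1, h2, h3, rfl⟩
  left
  exact hsq x y h1 (by linarith) (by linarith) (by linarith)

/-- if all vertices are closed, integral functionals are unbounded -/
lemma unbounded_of_all_closed (hall : ∀ a b c, X.V a b c → X.ClosedAt a) {r : Pt}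
    (hr : X.ClosedAt r) (f : Pt) (hf : f ≠ 0) :
    ¬ BddAbove ((fun x : ℝ × ℝ => (f.1 : ℝ) * x.1 + f.2 * x.2) '' X.Om) := by
  rintro ⟨M, hM⟩
  have hle : ∀ p : Pt, X.ClosedAt p → f.1 * p.1 + f.2 * p.2 ≤ ⌊M⌋ := by
    intro p hp
    rw [Int.le_floor]
    have := hM ⟨emb p, (X.closedAt_iff p).mp hp, rfl⟩
    simp only [emb] at this
    push_cast; exact this
  -- a closed vertex with a maximal value
  have hex : ∃ p : Pt, X.ClosedAt p ∧ ∀ q : Pt, X.ClosedAt q →
      f.1 * q.1 + f.2 * q.2 ≤ f.1 * p.1 + f.2 * p.2 := by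
    have hne : ∃ n : ℕ, ∃ p : Pt, X.ClosedAt p ∧ f.1 * p.1 + f.2 * p.2 = ⌊M⌋ - n := by
      refine ⟨(⌊M⌋ - (f.1 * r.1 + f.2 * r.2)).toNat, r, hr, ?_⟩
      have := hle r hr
      omega
    classical
    obtain ⟨p, hp, hpe⟩ := Nat.find_spec hne
    refine ⟨p, hp, fun q hq => ?_⟩
    by_contra hcon
    push Not at hcon
    have hq' := hle q hq
    have : (⌊M⌋ - (f.1 * q.1 + f.2 * q.2)).toNat < Nat.find hne := by omega
    exact Nat.find_min hne this ⟨q, hq, by omega⟩
  obtain ⟨p, hp, hmax⟩ := hex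
  obtain ⟨S, hS1, hS2⟩ := id hp
  obtain ⟨s, hs, h1, h2⟩ := hS2 f hf
  have hV := hS1 s hs
  have hd := X.det hV
  have m1 := hmax s.1 (hall _ _ _ (X.rot hV))
  have m2 := hmax s.2 (hall _ _ _ (X.rot (X.rot hV)))
  obtain ⟨α, hα⟩ : ∃ α, α = dt f (s.2 - p) := ⟨_, rfl⟩
  obtain ⟨β, hβ⟩ : ∃ β, β = dt (s.1 - p) f := ⟨_, rfl⟩
  have e1 : f.1 = α * (s.1.1 - p.1) + β * (s.2.1 - p.1) := by
    rw [hα, hβ]; unfold dt; unfold det3 at hd
    simp only [Prod.fst_sub, Prod.snd_sub]
    linear_combination -f.1 * hd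
  have e2 : f.2 = α * (s.1.2 - p.2) + β * (s.2.2 - p.2) := by
    rw [hα, hβ]; unfold dt; unfold det3 at hd
    simp only [Prod.fst_sub, Prod.snd_sub]
    linear_combination -f.2 * hd
  have hα0 : 0 ≤ α := by rw [hα]; exact h2
  have hβ0 : 0 ≤ β := by rw [hβ]; exact h1
  have hpos : 0 < f.1 * f.1 + f.2 * f.2 := by
    rcases (mul_self_nonneg f.1).lt_or_eq with h | h
    · have := mul_self_nonneg f.2; omega
    · rcases (mul_self_nonneg f.2).lt_or_eq with h' | h'
      · omega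
      · exfalso; apply hf
        ext
        · simpa using (mul_self_eq_zero.mp h.symm)
        · simpa using (mul_self_eq_zero.mp h'.symm)
  have key : f.1 * f.1 + f.2 * f.2 =
      α * (f.1 * (s.1.1 - p.1) + f.2 * (s.1.2 - p.2)) +
      β * (f.1 * (s.2.1 - p.1) + f.2 * (s.2.2 - p.2)) := by
    linear_combination f.1 * e1 + f.2 * e2
  have k1 : f.1 * (s.1.1 - p.1) + f.2 * (s.1.2 - p.2) ≤ 0 := by linarith
  have k2 : f.1 * (s.2.1 - p.1) + f.2 * (s.2.2 - p.2) ≤ 0 := by linarith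
  have l1 := mul_nonpos_of_nonneg_of_nonpos hα0 k1
  have l2 := mul_nonpos_of_nonneg_of_nonpos hβ0 k2
  linarith

/-- a line through every visible vertex outside `Om` -/
lemma exists_line {p a b : Pt} (hV : X.V p a b) (hp : ¬ X.ClosedAt p) : PG.SqIn X.Om ∨
    ∃ a : ℝ × ℝ, a ≠ 0 ∧ ∀ s : ℝ, emb p + s • a ∈ closure X.Om := by
  rcases vertex_cases hV hp with ⟨u, hu, hrow⟩ | hH
  · right
    refine ⟨emb u, ?_, ?_⟩
    · intro h
      have : u = 0 := emb_injective (by rw [h]; ext <;> simp [emb])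
      rw [this] at hu
      obtain ⟨s, t, e⟩ := hu
      simp at e
    · intro s
      obtain ⟨-, c, hc⟩ := hrow ⌊s⌋
      have := seg_mem_closure hc (t := s - ⌊s⌋) (by linarith [Int.floor_le s])
        (by linarith [Int.lt_floor_add_one s])
      convert this using 1
      ext
      · simp only [Prod.fst_add, Prod.smul_fst, smul_eq_mul, emb_fst, Prod.fst_sub]
        push_cast; ring
      · simp only [Prod.snd_add, Prod.smul_snd, smul_eq_mul, emb_snd, Prod.snd_sub]
        push_cast; ring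
  · exact hub_line hH

/-- `Om` does not meet a line of its closure through a point outside -/
lemma cr_ne_zero {p a : ℝ × ℝ} (hp : p ∉ X.Om) (ha : a ≠ 0)
    (hl : ∀ s : ℝ, p + s • a ∈ closure X.Om) {x : ℝ × ℝ} (hx : x ∈ X.Om) : cr a (x - p) ≠ 0 := by
  intro h
  obtain ⟨l, hl'⟩ : ∃ l : ℝ, x - p = l • a := by
    unfold cr at h
    by_cases h0 : a.1 = 0
    · have h' : a.2 ≠ 0 := by
        intro h'; apply ha; ext <;> simp [h0, h']
      refine ⟨(x - p).2 / a.2, ?_⟩
      ext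
      · rw [h0] at h
        have : (x - p).1 = 0 := by
          have : a.2 * (x - p).1 = 0 := by linarith
          exact (mul_eq_zero.mp this).resolve_left h'
        rw [this, Prod.smul_fst, h0, smul_zero]
      · rw [Prod.smul_snd, smul_eq_mul]; field_simp
    · refine ⟨(x - p).1 / a.1, ?_⟩
      ext
      · rw [Prod.smul_fst, smul_eq_mul]; field_simp
      · rw [Prod.smul_snd, smul_eq_mul]; field_simp; linarith
  have h1 := X.convex_Om.combo_interior_closure_mem_interior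
    (by rw [X.isOpen_Om.interior_eq]; exact hx) (hl (-l)) (a := 1 / 2) (b := 1 / 2)
    (by norm_num) (by norm_num) (by norm_num)
  rw [X.isOpen_Om.interior_eq] at h1
  apply hp
  convert h1 using 1
  have : x = p + l • a := by rw [← hl']; abel
  rw [this]
  ext
  · simp; ring
  · simp; ring

lemma one_side {p a : ℝ × ℝ} (hp : p ∉ X.Om) (ha : a ≠ 0)
    (hl : ∀ s : ℝ, p + s • a ∈ closure X.Om) :
    (∀ x ∈ X.Om, 0 < cr a (x - p)) ∨ (∀ x ∈ X.Om, cr a (x - p) < 0) := by
  by_contra hcon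
  push Not at hcon
  obtain ⟨⟨x, hx, hx0⟩, ⟨y, hy, hy0⟩⟩ := hcon
  have hx1 := lt_of_le_of_ne hx0 (cr_ne_zero hp ha hl hx)
  have hy1 := lt_of_le_of_ne hy0 (Ne.symm (cr_ne_zero hp ha hl hy))
  obtain ⟨A, hA⟩ : ∃ A, A = cr a (y - p) := ⟨_, rfl⟩
  obtain ⟨B, hB⟩ : ∃ B, B = -cr a (x - p) := ⟨_, rfl⟩
  have hA0 : 0 < A := by rw [hA]; exact hy1
  have hB0 : 0 < B := by rw [hB]; linarith
  have hz : (A / (A + B)) • x + (B / (A + B)) • y ∈ X.Om :=
    X.convex_Om hx hy (by positivity) (by positivity) (by field_simp)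
  apply cr_ne_zero hp ha hl hz
  have : cr a ((A / (A + B)) • x + (B / (A + B)) • y - p) =
      (A / (A + B)) * cr a (x - p) + (B / (A + B)) * cr a (y - p) := by
    have e : (A / (A + B)) + (B / (A + B)) = 1 := by field_simp
    simp only [cr, Prod.fst_sub, Prod.snd_sub, Prod.fst_add, Prod.snd_add, Prod.smul_fst,
      Prod.smul_snd, smul_eq_mul]
    linear_combination (a.1 * p.2 - a.2 * p.1) * e
  rw [this, ← hA, show cr a (x - p) = -B by rw [hB]; ring]
  field_simp
  ring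

lemma exists_primitive {a : ℝ × ℝ} {u : Pt} (hu : u ≠ 0) (h : a.1 * u.2 - a.2 * u.1 = 0) :
    ∃ u' : Pt, IsCoprime u'.1 u'.2 ∧ a.1 * u'.2 - a.2 * u'.1 = 0 := by
  have hg : Int.gcd u.1 u.2 ≠ 0 := by
    intro h0
    rw [Int.gcd_eq_zero_iff] at h0
    exact hu (Prod.ext h0.1 h0.2)
  obtain ⟨k1, k2, hk, hk1, hk2⟩ := Int.exists_gcd_one (Nat.pos_of_ne_zero hg)
  refine ⟨(k1, k2), Int.isCoprime_iff_gcd_eq_one.mpr hk, ?_⟩
  have c1 : (u.1 : ℝ) = k1 * (Int.gcd u.1 u.2 : ℕ) := by exact_mod_cast hk1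
  have c2 : (u.2 : ℝ) = k2 * (Int.gcd u.1 u.2 : ℕ) := by exact_mod_cast hk2
  rw [c1, c2] at h
  have : ((Int.gcd u.1 u.2 : ℕ) : ℝ) * (a.1 * k2 - a.2 * k1) = 0 := by linarith
  have hgr : ((Int.gcd u.1 u.2 : ℕ) : ℝ) ≠ 0 := by exact_mod_cast hg
  exact (mul_eq_zero.mp this).resolve_left hgr

/-- the reduction -/
theorem limClassify_of (hcl : ∀ (Y : Lim), (∀ x ∈ Y.Om, 0 < x.2) →
    (∀ s : ℝ, ((s, 0) : ℝ × ℝ) ∈ closure Y.Om) → ∀ r, Y.ClosedAt r →
      Y.HasRoom ∨ Y.HasFan r ∨ Y.HasStrip r) : LimClassify := by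
  intro X r hr
  have hne : X.Om.Nonempty := ⟨_, (X.closedAt_iff r).mp hr⟩
  by_cases hall : ∀ a b c, X.V a b c → X.ClosedAt a
  · left
    apply hasRoom_of_sqIn
    apply PG.sqIn_of_unbounded X.isOpen_Om X.convex_Om hne
    intro f hf
    exact unbounded_of_all_closed hall hr f hf
  · push Not at hall
    obtain ⟨p, b, c, hV, hp⟩ := hall
    rcases exists_line hV hp with h1 | ⟨a, ha, hl⟩
    · exact Or.inl (hasRoom_of_sqIn h1)
    by_cases hrat : ∀ u : Pt, u ≠ 0 → a.1 * u.2 - a.2 * u.1 ≠ 0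
    · left
      apply hasRoom_of_sqIn
      exact PG.sqIn_of_irrational_line X.isOpen_Om X.convex_Om hne (emb p) a hrat hl
    · push Not at hrat
      obtain ⟨u0, hu0, h0⟩ := hrat
      obtain ⟨u1, hu1, h1⟩ := exists_primitive hu0 h0
      have hpO : emb p ∉ X.Om := by rw [← X.closedAt_iff]; exact hp
      -- a primitive direction with `Om` on its left
      have hline : ∀ u : Pt, IsCoprime u.1 u.2 → a.1 * u.2 - a.2 * u.1 = 0 →
          (∀ s : ℝ, emb p + s • emb u ∈ closure X.Om) ∧ emb u ≠ 0 := by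
        intro u hu h1
        have hune : emb u ≠ 0 := by
          intro h
          have : u = 0 := emb_injective (by rw [h]; ext <;> simp [emb])
          rw [this] at hu
          obtain ⟨s, t, e⟩ := hu
          simp at e
        refine ⟨?_, hune⟩
        obtain ⟨l, hl'⟩ : ∃ l : ℝ, emb u = l • a := by
          by_cases h0 : a.1 = 0
          · have h' : a.2 ≠ 0 := by
              intro h'; apply ha; ext <;> simp [h0, h']
            refine ⟨u.2 / a.2, ?_⟩
            ext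
            · rw [h0] at h1
              have : (u.1 : ℝ) = 0 := by
                have : a.2 * u.1 = 0 := by linarith
                exact (mul_eq_zero.mp this).resolve_left h'
              rw [emb_fst, this, Prod.smul_fst, h0, smul_zero]
            · rw [Prod.smul_snd, smul_eq_mul, emb_snd]; field_simp
          · refine ⟨u.1 / a.1, ?_⟩
            ext
            · rw [Prod.smul_fst, smul_eq_mul, emb_fst]; field_simp
            · rw [Prod.smul_snd, smul_eq_mul, emb_snd]; field_simp; linarith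
        intro s
        rw [hl', smul_smul]
        exact hl _
      obtain ⟨u, hu, hul, hupos⟩ : ∃ u : Pt, IsCoprime u.1 u.2 ∧
          (∀ s : ℝ, emb p + s • emb u ∈ closure X.Om) ∧
          ∀ x ∈ X.Om, 0 < cr (emb u) (x - emb p) := by
        obtain ⟨h2, h3⟩ := hline u1 hu1 h1
        rcases one_side hpO h3 h2 with h4 | h4
        · exact ⟨u1, hu1, h2, h4⟩
        · refine ⟨-u1, ?_, ?_, ?_⟩
          · rw [Prod.fst_neg, Prod.snd_neg]; exact hu1.neg_neg
          · intro s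
            have := h2 (-s)
            convert this using 1
            ext <;> simp [emb]
          · intro x hx
            have := h4 x hx
            have e : cr (emb (-u1)) (x - emb p) = -cr (emb u1) (x - emb p) := by
              simp [cr, emb]; ring
            rw [e]; linarith
      obtain ⟨s, t, e⟩ := id hu
      have huw : dt u (-t, s) = 1 := by unfold dt; simp only; linear_combination e
      have huw' : (u.1 : ℝ) * s - u.2 * (-t) = 1 := by
        have : ((u.1 * s - u.2 * (-t) : ℤ) : ℝ) = 1 := by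
          have : u.1 * s - u.2 * (-t) = 1 := by linear_combination e
          rw [this]; norm_num
        push_cast at this; exact this
      refine classify_of_tr (o := p) huw X (hcl _ ?_ ?_) hr
      · intro x hx
        rw [mem_Om_tr] at hx
        have := hupos _ hx
        have e2 : cr (emb u) (frH p u (-t, s) huw x - emb p) = x.2 := by
          simp only [cr, Prod.fst_sub, Prod.snd_sub, frH_fst, frH_snd, emb_fst, emb_snd]
          push_cast
          linear_combination x.2 * huw'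
        rwa [e2] at this
      · intro σ
        rw [mem_closure_Om_tr]
        convert hul σ using 1
        ext
        · simp only [frH_fst, Prod.fst_add, Prod.smul_fst, smul_eq_mul, emb_fst]; ring
        · simp only [frH_snd, Prod.snd_add, Prod.smul_snd, smul_eq_mul, emb_snd]; ring

end MP01b126.Lim
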