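import Pool.Agent.Lib.MP_01b126_co.St.PG2
import Pool.Agent.Lib.MP_01b126_co.St.Reduce
import Pool.Agent.Lib.MP_01b126_co.St.Convex

/-! MP_01b126_co, STRUCTURE: classification of limit structures from the convexity of `Om`. -/

namespace MP01b126.Lim

open MP01b126.PG

/-- real height -/
def yr (u : Pt) (x : ℝ × ℝ) : ℝ := (u.1:ℝ) * x.2 - u.2 * x.1

/-- real abscissa -/
def xr (w : Pt) (x : ℝ × ℝ) : ℝ := x.1 * w.2 - x.2 * w.1

theorem yr_emb (u p : Pt) : yr u (emb p) = (dt u p : ℤ) := by simp [yr, emb, dt]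

theorem xr_emb (w p : Pt) : xr w (emb p) = (dt p w : ℤ) := by simp [xr, emb, dt]

theorem yr_add (u : Pt) (x y : ℝ × ℝ) : yr u (x + y) = yr u x + yr u y := by
  simp only [yr, Prod.fst_add, Prod.snd_add]; ring

theorem yr_sub (u : Pt) (x y : ℝ × ℝ) : yr u (x - y) = yr u x - yr u y := by
  simp only [yr, Prod.fst_sub, Prod.snd_sub]; ring

theorem yr_smul (u : Pt) (t : ℝ) (x : ℝ × ℝ) : yr u (t • x) = t * yr u x := by
  simp only [yr, Prod.smul_fst, Prod.smul_snd, smul_eq_mul]; ring

theorem xr_add (w : Pt) (x y : ℝ × ℝ) : xr w (x + y) = xr w x + xr w y := by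
  simp only [xr, Prod.fst_add, Prod.snd_add]; ring

theorem xr_sub (w : Pt) (x y : ℝ × ℝ) : xr w (x - y) = xr w x - xr w y := by
  simp only [xr, Prod.fst_sub, Prod.snd_sub]; ring

theorem xr_smul (w : Pt) (t : ℝ) (x : ℝ × ℝ) : xr w (t • x) = t * xr w x := by
  simp only [xr, Prod.smul_fst, Prod.smul_snd, smul_eq_mul]; ring

theorem continuous_yr (u : Pt) : Continuous (yr u) := by unfold yr; fun_prop

theorem continuous_xr (w : Pt) : Continuous (xr w) := by unfold xr; fun_prop

theorem coord_eq' {u w : Pt} (h : dt u w = 1) (x : ℝ × ℝ) :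
    x = xr w x • emb u + yr u x • emb w := coord_eq h x

theorem dt_self (u : Pt) : dt u u = 0 := by simp only [dt]; ring

theorem dt_coord {u w : Pt} (h : dt u w = 1) (p q : Pt) :
    dt p q = dt p w * dt u q - dt u p * dt q w := by
  have : dt p q * dt u w = dt p w * dt u q - dt u p * dt q w := by simp only [dt]; ring
  rwa [h, mul_one] at this

theorem det3_eq_dt (a b c : Pt) : det3 a b c = dt (b - a) (c - a) := by
  simp only [det3, dt, Prod.fst_sub, Prod.snd_sub]

theorem dt_sub_right (u p q : Pt) : dt u (p - q) = dt u p - dt u q := by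
  simp only [dt, Prod.fst_sub, Prod.snd_sub]; ring

theorem dt_sub_left (w p q : Pt) : dt (p - q) w = dt p w - dt q w := by
  simp only [dt, Prod.fst_sub, Prod.snd_sub]; ring

theorem dt_add_right (u p q : Pt) : dt u (p + q) = dt u p + dt u q := by
  simp only [dt, Prod.fst_add, Prod.snd_add]; ring

theorem dt_add_left (w p q : Pt) : dt (p + q) w = dt p w + dt q w := by
  simp only [dt, Prod.fst_add, Prod.snd_add]; ring

theorem dt_smul_right (u p : Pt) (j : ℤ) : dt u (j • p) = j * dt u p := by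
  simp only [dt, Prod.smul_fst, Prod.smul_snd, smul_eq_mul]; ring

theorem dt_smul_left (w p : Pt) (j : ℤ) : dt (j • p) w = j * dt p w := by
  simp only [dt, Prod.smul_fst, Prod.smul_snd, smul_eq_mul]; ring

theorem dt_neg_right (u p : Pt) : dt u (-p) = - dt u p := by
  simp only [dt, Prod.fst_neg, Prod.snd_neg]; ring

theorem dt_neg_left (w p : Pt) : dt (-p) w = - dt p w := by
  simp only [dt, Prod.fst_neg, Prod.snd_neg]; ring

theorem dt_neg_neg (u w : Pt) : dt (-u) (-w) = dt u w := by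
  rw [dt_neg_right, dt_neg_left, neg_neg]

theorem ne_zero_of_dt {u w : Pt} (h : dt u w = 1) : u ≠ 0 := by
  rintro rfl
  simp [dt] at h

/-- two lattice points with equal coordinates are equal -/
theorem eq_of_coord {u w : Pt} (h : dt u w = 1) {p q : Pt} (h1 : dt u p = dt u q)
    (h2 : dt p w = dt q w) : p = q := by
  simp only [dt] at h h1 h2
  apply Prod.ext
  · linear_combination (-p.1 + q.1) * h + w.1 * h1 + u.1 * h2
  · linear_combination (-p.2 + q.2) * h + w.2 * h1 + u.2 * h2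

variable (X : Lim)

/-- visible vertices -/
def VV (p : Pt) : Prop := ∃ a b, X.V p a b

variable {X}

theorem VV_of_V1 {a b c : Pt} (h : X.V a b c) : X.VV a := ⟨b, c, h⟩
theorem VV_of_V2 {a b c : Pt} (h : X.V a b c) : X.VV b := ⟨c, a, X.rot h⟩
theorem VV_of_V3 {a b c : Pt} (h : X.V a b c) : X.VV c := ⟨a, b, X.rot (X.rot h)⟩

theorem fan_inj {p : Pt} {f : ℤ → Pt} (hdet : ∀ i j, i < j → 0 < det3 p (f i) (f j)) :
    Function.Injective f := by
  intro i j hij
  rcases lt_trichotomy i j with h | h | h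
  · have := hdet i j h
    rw [hij] at this
    simp only [det3] at this
    linarith [mul_comm ((f j).1 - p.1) ((f j).2 - p.2)]
  · exact h
  · have := hdet j i h
    rw [hij] at this
    simp only [det3] at this
    linarith [mul_comm ((f j).1 - p.1) ((f j).2 - p.2)]

theorem fan_far {u w p : Pt} (huw : dt u w = 1) {f : ℤ → Pt}
    (hdet : ∀ i j, i < j → 0 < det3 p (f i) (f j)) {M : ℤ} (hM : ∀ i, |dt u (f i - p)| ≤ M)
    (K : ℤ) {I : Set ℤ} (hI : I.Infinite) : ∃ j ∈ I, K < |dt (f j - p) w| := by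
  by_contra hcon
  push Not at hcon
  have hfin : (Set.Icc (-K) K ×ˢ Set.Icc (-M) M : Set (ℤ × ℤ)).Finite :=
    (Set.finite_Icc _ _).prod (Set.finite_Icc _ _)
  apply hI
  refine Set.Finite.of_injOn (f := fun j => (dt (f j - p) w, dt u (f j - p))) (t := _) ?_ ?_ hfin
  · intro j hj
    exact ⟨abs_le.1 (hcon j hj), abs_le.1 (hM j)⟩
  · intro i _ j _ hij
    simp only [Prod.mk.injEq] at hij
    apply fan_inj hdet
    have := eq_of_coord huw hij.2 hij.1
    exact sub_left_injective this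

theorem parallel_prim {a c : Pt} (ha : IsCoprime a.1 a.2) (hc : IsCoprime c.1 c.2)
    (h : dt a c = 0) : c = a ∨ c = -a := by
  obtain ⟨x, y, hxy⟩ := ha
  obtain ⟨x', y', hxy'⟩ := hc
  simp only [dt] at h
  set k := x * c.1 + y * c.2 with hk
  have h1 : c.1 = k * a.1 := by
    rw [hk]; linear_combination (-c.1) * hxy - y * h
  have h2 : c.2 = k * a.2 := by
    rw [hk]; linear_combination (-c.2) * hxy + x * h
  have h3 : k * (x' * a.1 + y' * a.2) = 1 := by
    rw [h1, h2] at hxy'
    linear_combination hxy'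
  rcases Int.isUnit_iff.1 (IsUnit.of_mul_eq_one _ h3) with h4 | h4
  · left; apply Prod.ext
    · rw [h1, h4, one_mul]
    · rw [h2, h4, one_mul]
  · right; apply Prod.ext
    · rw [h1, h4]; simp
    · rw [h2, h4]; simp

/-- the two ends of a wall-to-wall fan are opposite -/
theorem wall_fan_opp {p : Pt} {n : ℕ} {f : ℕ → Pt} (hn : 0 < n) (h0 : X.W p (f 0))
    (h1 : X.W p (f n)) (hV : ∀ i < n, X.V p (f i) (f (i + 1))) : f n - p = -(f 0 - p) := by
  rcases parallel_prim (X.W_prim h0) (X.W_prim h1)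
    (by rw [← det3_eq_dt]; exact X.W_coll h0 h1) with h | h
  · exfalso
    have h2 : f n = f 0 := sub_left_injective h
    obtain ⟨m, rfl⟩ : ∃ m, n = m + 1 := ⟨n - 1, by omega⟩
    have h3 := hV m (by omega)
    rw [h2] at h3
    have h4 := X.rot (X.rot h3)
    -- V (f 0) p (f m)
    have h5 := hV 0 hn
    exact X.opp_not h5 h4 h0
  · exact h

/-- no visible structure is bounded in three directions -/
theorem not_bdd_of_strip {u w : Pt} (huw : dt u w = 1) (hne : ∃ p, X.VV p) {M : ℤ}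
    (hM : ∀ p, X.VV p → |dt u p| ≤ M) {C : ℤ} (hC : ∀ p, X.VV p → dt p w ≤ C) : False := by
  obtain ⟨p0, hp0⟩ := hne
  obtain ⟨mx, ⟨v1, hv1, hv1x⟩, hmx⟩ : ∃ mx : ℤ, (∃ p, X.VV p ∧ dt p w = mx) ∧
      ∀ z, (∃ p, X.VV p ∧ dt p w = z) → z ≤ mx :=
    Int.exists_greatest_of_bdd ⟨C, by rintro z ⟨p, hp, rfl⟩; exact hC p hp⟩ ⟨_, p0, hp0, rfl⟩
  obtain ⟨my, ⟨v, hv, hvx, hvy⟩, hmy⟩ : ∃ my : ℤ, (∃ p, X.VV p ∧ dt p w = mx ∧ dt u p = my) ∧
      ∀ z, (∃ p, X.VV p ∧ dt p w = mx ∧ dt u p = z) → z ≤ my :=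
    Int.exists_greatest_of_bdd ⟨M, by
      rintro z ⟨p, hp, -, rfl⟩; exact (le_abs_self _).trans (hM p hp)⟩ ⟨_, v1, hv1, hv1x, rfl⟩
  have hX : ∀ q, X.VV q → dt q w ≤ dt v w := fun q hq => by
    rw [hvx]; exact hmx _ ⟨q, hq, rfl⟩
  have hY : ∀ q, X.VV q → dt q w = dt v w → dt u q ≤ dt u v := fun q hq h => by
    rw [hvy]; exact hmy _ ⟨q, hq, h.trans hvx, rfl⟩
  obtain ⟨a, b, hab⟩ := hv
  have hvv : X.VV v := ⟨a, b, hab⟩
  rcases X.corner hab with ⟨S, hS, hcov⟩ | ⟨n, f, hW0, hWn, hV, i, hin, -, -⟩ |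
    ⟨f, -, -, hV, hdet⟩
  · -- closed corner
    obtain ⟨s, hs, h1, h2⟩ := hcov u (ne_zero_of_dt huw)
    have hVs := hS s hs
    have hd := X.det hVs
    rw [det3_eq_dt] at hd
    have e1 := hX _ (VV_of_V2 hVs)
    have e2 := hX _ (VV_of_V3 hVs)
    have e3 : dt u w * dt (s.1 - v) (s.2 - v) =
        dt u (s.2 - v) * dt (s.1 - v) w + dt (s.1 - v) u * dt (s.2 - v) w := by
      simp only [dt]; ring
    rw [huw, hd] at e3
    have e4 : dt (s.1 - v) w ≤ 0 := by rw [dt_sub_left]; linarith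
    have e5 : dt (s.2 - v) w ≤ 0 := by rw [dt_sub_left]; linarith
    nlinarith
  · -- wall-to-wall
    have hn : 0 < n := by omega
    have hopp := wall_fan_opp hn hW0 hWn hV
    have hV0 := hV 0 hn
    obtain ⟨m, rfl⟩ : ∃ m, n = m + 1 := ⟨n - 1, by omega⟩
    have hVm := hV m (by omega)
    have e1 := hX _ (VV_of_V2 hV0)
    have e2 := hX _ (VV_of_V3 hVm)
    have e3 := congrArg (fun q => dt q w) hopp
    simp only [dt_neg_left, dt_sub_left] at e3
    have e4 := congrArg (fun q => dt u q) hopp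
    simp only [dt_neg_right, dt_sub_right] at e4
    have e5 : dt (f 0) w = dt v w := by linarith
    have e6 : dt (f (m+1)) w = dt v w := by linarith
    have e7 := hY _ (VV_of_V2 hV0) e5
    have e8 := hY _ (VV_of_V3 hVm) e6
    have e9 : f 0 = v := eq_of_coord huw (by linarith) e5
    have e10 := X.det hV0
    rw [e9] at e10
    simp [det3] at e10
  · -- bi-infinite fan
    have hM2 : ∀ i, |dt u (f i - v)| ≤ 2 * M := by
      intro i
      rw [dt_sub_right]
      have h1 := hM _ (VV_of_V2 (hV i))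
      have h2 := hM _ hvv
      rw [abs_le] at h1 h2 ⊢
      constructor <;> linarith
    have hXneg : ∀ i, dt (f i - v) w ≤ 0 := fun i => by
      rw [dt_sub_left]; linarith [hX _ (VV_of_V2 (hV i))]
    have hzero : ∀ i, dt u (f i - v) = 0 := by
      intro i
      rcases lt_trichotomy (dt u (f i - v)) 0 with h | h | h
      · exfalso
        obtain ⟨j, hj, hjK⟩ := fan_far huw hdet hM2 (|dt (f i - v) w| * (2 * M))
          (Set.Ioi_infinite i)
        have h1 := hdet i j hj
        rw [det3_eq_dt, dt_coord huw] at h1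
        rw [abs_of_nonpos (hXneg j)] at hjK
        have h2 : dt (f i - v) w * dt u (f j - v) ≤ |dt (f i - v) w| * (2 * M) := by
          calc _ ≤ |dt (f i - v) w * dt u (f j - v)| := le_abs_self _
            _ = |dt (f i - v) w| * |dt u (f j - v)| := abs_mul _ _
            _ ≤ _ := by gcongr; exact hM2 j
        have h3 : 0 ≤ |dt (f i - v) w| * (2 * M) :=
          mul_nonneg (abs_nonneg _) ((abs_nonneg _).trans (hM2 j))
        have h4 : 0 ≤ (-dt u (f i - v) - 1) * (-dt (f j - v) w) :=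
          mul_nonneg (by omega) (by linarith)
        linarith
      · exact h
      · exfalso
        obtain ⟨j, hj, hjK⟩ := fan_far huw hdet hM2 (|dt (f i - v) w| * (2 * M))
          (Set.Iio_infinite i)
        have h1 := hdet j i hj
        rw [det3_eq_dt, dt_coord huw] at h1
        rw [abs_of_nonpos (hXneg j)] at hjK
        have h2 : -(dt (f i - v) w * dt u (f j - v)) ≤ |dt (f i - v) w| * (2 * M) := by
          calc _ ≤ |dt (f i - v) w * dt u (f j - v)| := neg_le_abs _
            _ = |dt (f i - v) w| * |dt u (f j - v)| := abs_mul _ _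
            _ ≤ _ := by gcongr; exact hM2 j
        have h3 : 0 ≤ |dt (f i - v) w| * (2 * M) :=
          mul_nonneg (abs_nonneg _) ((abs_nonneg _).trans (hM2 j))
        have h4 : 0 ≤ (dt u (f i - v) - 1) * (-dt (f j - v) w) :=
          mul_nonneg (by omega) (by linarith)
        linarith
    have h1 := X.det (hV 0)
    rw [det3_eq_dt, dt_coord huw, hzero, hzero] at h1
    simp at h1

/-! ### points of `Om` -/

theorem exists_hull_of_mem_Om {x : ℝ × ℝ} (hx : x ∈ X.Om) :
    ∃ a b c, X.V a b c ∧ x ∈ hull {a, b, c} := by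
  obtain ⟨F, hF, hn⟩ := hx
  have := mem_of_mem_nhds hn
  simp only [Set.mem_iUnion] at this
  obtain ⟨t, ht, hxt⟩ := this
  exact ⟨_, _, _, hF t ht, hxt⟩

theorem emb_mem_closure {p : Pt} (hp : X.VV p) : emb p ∈ closure X.Om := by
  obtain ⟨a, b, h⟩ := hp
  apply X.hull_subset_closure_Om h
  rw [mem_hull_iff]
  exact ⟨0, 0, le_rfl, le_rfl, by norm_num, by simp⟩

theorem yr_mem_hull_le {u a b c : Pt} {B : ℝ} {x : ℝ × ℝ} (hx : x ∈ hull {a, b, c})
    (ha : (dt u a : ℝ) ≤ B) (hb : (dt u b : ℝ) ≤ B) (hc : (dt u c : ℝ) ≤ B) : yr u x ≤ B := by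
  rw [mem_hull_iff] at hx
  obtain ⟨s, t, hs, ht, hst, rfl⟩ := hx
  rw [yr_add, yr_add, yr_smul, yr_smul, yr_sub, yr_sub, yr_emb, yr_emb, yr_emb]
  nlinarith

theorem Om_invariant {u w : Pt} (huw : dt u w = 1) (hconv : Convex ℝ X.Om) {M : ℝ}
    (hM : ∀ x ∈ X.Om, |yr u x| ≤ M) {z : ℝ × ℝ} (hz : z ∈ X.Om) (t : ℝ) :
    z + t • emb u ∈ X.Om := by
  by_contra hnot
  obtain ⟨φ, hφ⟩ := geometric_hahn_banach_open_point hconv X.isOpen_Om hnot
  have hφx : ∀ x : ℝ × ℝ, φ x = xr w x * φ (emb u) + yr u x * φ (emb w) := by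
    intro x
    conv_lhs => rw [coord_eq' huw x]
    rw [map_add, map_smul, map_smul, smul_eq_mul, smul_eq_mul]
  set α := φ (emb u) with hα
  set β := φ (emb w) with hβ
  have hα0 : α ≠ 0 := by
    intro h
    have := hφ z hz
    rw [map_add, map_smul, ← hα, h] at this
    simp at this
  have hM0 : 0 ≤ M := (abs_nonneg _).trans (hM z hz)
  have hne : ∃ p, X.VV p := by
    obtain ⟨a, b, c, h, -⟩ := exists_hull_of_mem_Om hz
    exact ⟨a, VV_of_V1 h⟩
  -- bound on closure
  have hMc : ∀ p, X.VV p → |dt u p| ≤ ⌊M⌋ := by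
    intro p hp
    have h1 : emb p ∈ {x | |yr u x| ≤ M} := by
      have hcl : IsClosed {x | |yr u x| ≤ M} :=
        isClosed_le (continuous_abs.comp (continuous_yr u)) continuous_const
      exact closure_minimal hM hcl (emb_mem_closure hp)
    rw [Set.mem_ofPred_eq, yr_emb, ← Int.cast_abs] at h1
    exact Int.le_floor.2 h1
  set C := φ (z + t • emb u) + |β| * M with hC
  have hbound : ∀ x ∈ X.Om, α * xr w x ≤ C := by
    intro x hx
    have h1 := hφ x hx
    rw [hφx x] at h1
    have h2 : -(|β| * M) ≤ yr u x * β := by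
      have h3 : |yr u x * β| ≤ |β| * M := by
        rw [abs_mul, mul_comm]
        gcongr
        exact hM x hx
      exact (neg_le_neg h3).trans (neg_abs_le _)
    rw [hC]
    linarith
  have hboundc : ∀ p, X.VV p → α * (dt p w : ℤ) ≤ C := by
    intro p hp
    have h1 : emb p ∈ {x | α * xr w x ≤ C} := by
      have hcl : IsClosed {x | α * xr w x ≤ C} :=
        isClosed_le (continuous_const.mul (continuous_xr w)) continuous_const
      exact closure_minimal hbound hcl (emb_mem_closure hp)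
    rw [Set.mem_ofPred_eq, xr_emb] at h1
    exact h1
  rcases lt_or_gt_of_ne hα0 with h | h
  · refine not_bdd_of_strip (X := X) (u := -u) (w := -w) (by rw [dt_neg_neg, huw]) hne
      (M := ⌊M⌋) (fun p hp => by rw [dt_neg_left, abs_neg]; exact hMc p hp) (C := ⌊C / (-α)⌋)
      (fun p hp => ?_)
    rw [Int.le_floor, le_div_iff₀ (by linarith), dt_neg_right]
    have := hboundc p hp
    push_cast
    linarith
  · refine not_bdd_of_strip (X := X) (u := u) (w := w) huw hne
      (M := ⌊M⌋) hMc (C := ⌊C / α⌋) (fun p hp => ?_)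
    rw [Int.le_floor, le_div_iff₀ h]
    have := hboundc p hp
    linarith

/-- the region is a strip -/
structure StripData (X : Lim) (u w : Pt) (a b : ℤ) : Prop where
  huw : dt u w = 1
  om : ∀ x, x ∈ X.Om ↔ (a:ℝ) < yr u x ∧ yr u x < b
  lo : ∀ p, X.VV p → a ≤ dt u p
  hi : ∀ p, X.VV p → dt u p ≤ b
  exlo : ∃ p, X.VV p ∧ dt u p = a
  exhi : ∃ p, X.VV p ∧ dt u p = b

theorem StripData.flip {u w : Pt} {a b : ℤ} (D : StripData X u w a b) :
    StripData X (-u) (-w) (-b) (-a) := by
  have hyr : ∀ x, yr (-u) x = - yr u x := by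
    intro x; simp only [yr, Prod.fst_neg, Prod.snd_neg]; push_cast; ring
  refine ⟨by rw [dt_neg_neg, D.huw], fun x => ?_, fun p hp => ?_, fun p hp => ?_, ?_, ?_⟩
  · rw [D.om, hyr]
    push_cast
    constructor
    · rintro ⟨h1, h2⟩; exact ⟨by linarith, by linarith⟩
    · rintro ⟨h1, h2⟩; exact ⟨by linarith, by linarith⟩
  · rw [dt_neg_left]; linarith [D.hi p hp]
  · rw [dt_neg_left]; linarith [D.lo p hp]
  · obtain ⟨p, hp, h⟩ := D.exhi
    exact ⟨p, hp, by rw [dt_neg_left, h]⟩
  · obtain ⟨p, hp, h⟩ := D.exlo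
    exact ⟨p, hp, by rw [dt_neg_left, h]⟩

theorem exists_stripData {u w : Pt} (huw : dt u w = 1) (hconv : Convex ℝ X.Om)
    (hne : X.Om.Nonempty) {M : ℝ} (hM : ∀ x ∈ X.Om, |yr u x| ≤ M) :
    ∃ a b, StripData X u w a b := by
  obtain ⟨z, hz⟩ := hne
  obtain ⟨a0, b0, c0, h0, -⟩ := exists_hull_of_mem_Om hz
  have hMc : ∀ p, X.VV p → |dt u p| ≤ ⌊M⌋ := by
    intro p hp
    have h1 : emb p ∈ {x | |yr u x| ≤ M} := by
      have hcl : IsClosed {x | |yr u x| ≤ M} :=
        isClosed_le (continuous_abs.comp (continuous_yr u)) continuous_const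
      exact closure_minimal hM hcl (emb_mem_closure hp)
    rw [Set.mem_ofPred_eq, yr_emb, ← Int.cast_abs] at h1
    exact Int.le_floor.2 h1
  obtain ⟨b, ⟨q, hq, hqb⟩, hb⟩ : ∃ b : ℤ, (∃ p, X.VV p ∧ dt u p = b) ∧
      ∀ z, (∃ p, X.VV p ∧ dt u p = z) → z ≤ b :=
    Int.exists_greatest_of_bdd ⟨⌊M⌋, by
      rintro z ⟨p, hp, rfl⟩; exact (abs_le.1 (hMc p hp)).2⟩ ⟨_, a0, VV_of_V1 h0, rfl⟩
  obtain ⟨a, ⟨p, hp, hpa⟩, ha⟩ : ∃ a : ℤ, (∃ p, X.VV p ∧ dt u p = a) ∧
      ∀ z, (∃ p, X.VV p ∧ dt u p = z) → a ≤ z :=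
    Int.exists_least_of_bdd ⟨-⌊M⌋, by
      rintro z ⟨p, hp, rfl⟩; exact (abs_le.1 (hMc p hp)).1⟩ ⟨_, a0, VV_of_V1 h0, rfl⟩
  have hhi : ∀ x ∈ X.Om, yr u x ≤ b := by
    intro x hx
    obtain ⟨a', b', c', h, hx'⟩ := exists_hull_of_mem_Om hx
    refine yr_mem_hull_le hx' ?_ ?_ ?_
    · exact_mod_cast hb _ ⟨a', VV_of_V1 h, rfl⟩
    · exact_mod_cast hb _ ⟨b', VV_of_V2 h, rfl⟩
    · exact_mod_cast hb _ ⟨c', VV_of_V3 h, rfl⟩
  have hlo : ∀ x ∈ X.Om, (a:ℝ) ≤ yr u x := by
    intro x hx
    obtain ⟨a', b', c', h, hx'⟩ := exists_hull_of_mem_Om hx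
    have hyr : ∀ x, yr (-u) x = - yr u x := by
      intro x; simp only [yr, Prod.fst_neg, Prod.snd_neg]; push_cast; ring
    have h1 := yr_mem_hull_le (u := -u) (B := -(a:ℝ)) hx' ?_ ?_ ?_
    · rw [hyr] at h1; linarith
    · rw [dt_neg_left]; push_cast; exact neg_le_neg (by exact_mod_cast ha _ ⟨a', VV_of_V1 h, rfl⟩)
    · rw [dt_neg_left]; push_cast; exact neg_le_neg (by exact_mod_cast ha _ ⟨b', VV_of_V2 h, rfl⟩)
    · rw [dt_neg_left]; push_cast; exact neg_le_neg (by exact_mod_cast ha _ ⟨c', VV_of_V3 h, rfl⟩)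
  -- moving a point slightly
  have hyw : yr u (emb w) = 1 := by rw [yr_emb, huw]; simp
  have hyu : yr u (emb u) = 0 := by rw [yr_emb, dt_self]; simp
  have hmove : ∀ x ∈ X.Om, ∃ ε : ℝ, 0 < ε ∧ x + ε • emb w ∈ X.Om ∧ x + (-ε) • emb w ∈ X.Om := by
    intro x hx
    have h1 : ∀ᶠ ε in nhds (0:ℝ), x + ε • emb w ∈ X.Om := by
      have hc : ContinuousAt (fun ε : ℝ => x + ε • emb w) 0 := by fun_prop
      apply hc.eventually_mem
      simpa using X.isOpen_Om.mem_nhds hx
    obtain ⟨δ, hδ, hb⟩ := Metric.eventually_nhds_iff.1 h1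
    refine ⟨δ/2, by positivity, hb ?_, hb ?_⟩
    · rw [Real.dist_eq, sub_zero, abs_of_pos (by positivity)]; linarith
    · rw [Real.dist_eq, sub_zero, abs_neg, abs_of_pos (by positivity)]; linarith
  refine ⟨a, b, huw, fun x => ⟨fun hx => ?_, fun ⟨h1, h2⟩ => ?_⟩,
    fun p hp => ha _ ⟨p, hp, rfl⟩, fun p hp => hb _ ⟨p, hp, rfl⟩, ⟨p, hp, hpa⟩, ⟨q, hq, hqb⟩⟩
  · obtain ⟨ε, hε, h1, h2⟩ := hmove x hx
    have h3 := hhi _ h1
    have h4 := hlo _ h2
    rw [yr_add, yr_smul, hyw] at h3 h4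
    exact ⟨by linarith, by linarith⟩
  · -- two points of `Om` below and above
    have hclose : ∀ p, X.VV p → ∀ V : Set ℝ, IsOpen V → (dt u p : ℝ) ∈ V →
        ∃ y ∈ X.Om, yr u y ∈ V := by
      intro p hp V hV hpV
      have h3 := mem_closure_iff.1 (emb_mem_closure hp) (yr u ⁻¹' V)
        (hV.preimage (continuous_yr u)) (by rw [Set.mem_preimage, yr_emb]; exact hpV)
      obtain ⟨y, hy1, hy2⟩ := h3
      exact ⟨y, hy2, hy1⟩
    obtain ⟨y1, hy1, hy1'⟩ := hclose p hp (Set.Iio (yr u x)) isOpen_Iio (by rw [hpa]; exact h1)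
    obtain ⟨y2, hy2, hy2'⟩ := hclose q hq (Set.Ioi (yr u x)) isOpen_Ioi (by rw [hqb]; exact h2)
    rw [Set.mem_Iio] at hy1'
    rw [Set.mem_Ioi] at hy2'
    have hD : 0 < yr u y2 - yr u y1 := by linarith
    set τ := (yr u x - yr u y1) / (yr u y2 - yr u y1) with hτ
    have hτ0 : 0 ≤ τ := div_nonneg (by linarith) hD.le
    have hτ1 : τ ≤ 1 := (div_le_one hD).2 (by linarith)
    have h4 : (1 - τ) • y1 + τ • y2 ∈ X.Om := hconv hy1 hy2 (by linarith) hτ0 (by ring)
    have h5 : yr u ((1 - τ) • y1 + τ • y2) = yr u x := by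
      rw [yr_add, yr_smul, yr_smul]
      have : τ * (yr u y2 - yr u y1) = yr u x - yr u y1 := div_mul_cancel₀ _ hD.ne'
      linarith
    generalize (1 - τ) • y1 + τ • y2 = Y at h4 h5
    have h6 := Om_invariant huw hconv hM h4 (xr w x - xr w Y)
    have h7 : x = Y + (xr w x - xr w Y) • emb u := by
      calc x = xr w x • emb u + yr u x • emb w := coord_eq' huw x
        _ = (xr w Y • emb u + yr u Y • emb w) + (xr w x - xr w Y) • emb u := by
          rw [h5]; module
        _ = _ := by rw [← coord_eq' huw Y]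
    rw [h7]
    exact h6

/-! ### windows of fans -/

theorem emb_sub' (p q : Pt) : emb (p - q) = emb p - emb q := by
  ext <;> simp [emb]

theorem emb_add' (p q : Pt) : emb (p + q) = emb p + emb q := by
  ext <;> simp [emb]

theorem emb_zsmul' (k : ℤ) (p : Pt) : emb (k • p) = (k:ℝ) • emb p := by
  ext <;> simp [emb]

theorem xr_eq_neg_yr (w : Pt) (x : ℝ × ℝ) : xr w x = - yr w x := by
  simp only [xr, yr]; ring

/-- a window of a fan at `p` -/
structure Win (X : Lim) (p : Pt) (f : ℤ → Pt) (i1 i2 : ℤ) : Prop where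
  lt : i1 < i2
  V : ∀ i, i1 ≤ i → i < i2 → X.V p (f i) (f (i + 1))

theorem int_ivt (F : ℤ → ℝ) {i1 i2 : ℤ} (h : i1 < i2) (h1 : 0 ≤ F i1) (h2 : F i2 ≤ 0) :
    ∃ i, i1 ≤ i ∧ i < i2 ∧ 0 ≤ F i ∧ F (i + 1) ≤ 0 := by
  obtain ⟨i, ⟨h3, h4, h5⟩, hi⟩ := Int.exists_greatest_of_bdd
    (P := fun i => i1 ≤ i ∧ i < i2 ∧ 0 ≤ F i) ⟨i2, fun z hz => hz.2.1.le⟩ ⟨i1, le_rfl, h, h1⟩
  refine ⟨i, h3, h4, h5, ?_⟩
  by_contra hc
  push Not at hc
  rcases lt_or_ge (i + 1) i2 with h6 | h6
  · have := hi (i + 1) ⟨by omega, h6, hc.le⟩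
    omega
  · have : i + 1 = i2 := by omega
    rw [this] at hc
    linarith

theorem mem_hull_of_cone {p c d : Pt} (h : X.V p c d) {x : ℝ × ℝ}
    (h1 : 0 ≤ yr (c - p) (x - emb p)) (h2 : yr (d - p) (x - emb p) ≤ 0)
    (h3 : yr (c - p) (x - emb p) - yr (d - p) (x - emb p) ≤ 1) : x ∈ hull {p, c, d} := by
  have hd := X.det h
  rw [det3_eq_dt] at hd
  rw [mem_hull_iff]
  refine ⟨-yr (d - p) (x - emb p), yr (c - p) (x - emb p), by linarith, h1, by linarith, ?_⟩
  have h4 := coord_eq' hd (x - emb p)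
  rw [xr_eq_neg_yr, emb_sub', emb_sub'] at h4
  calc x = emb p + (x - emb p) := by abel
    _ = emb p + (-yr (d - p) (x - emb p) • (emb c - emb p) +
        yr (c - p) (x - emb p) • (emb d - emb p)) := congrArg (emb p + ·) h4
    _ = _ := by rw [add_assoc]

theorem win_nhds {p : Pt} {f : ℤ → Pt} {i1 i2 : ℤ} (hw : Win X p f i1 i2) {C : Set (ℝ × ℝ)}
    (h1 : ∀ x ∈ C, 0 ≤ yr (f i1 - p) (x - emb p)) (h2 : ∀ x ∈ C, yr (f i2 - p) (x - emb p) ≤ 0) :
    ∃ F : Finset (Pt × Pt × Pt), (∀ t ∈ F, X.V t.1 t.2.1 t.2.2) ∧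
      (⋃ t ∈ F, hull {t.1, t.2.1, t.2.2}) ∈ nhdsWithin (emb p) C := by
  classical
  refine ⟨(Finset.Ico i1 i2).image (fun i => (p, f i, f (i + 1))), ?_, ?_⟩
  · intro t ht
    rw [Finset.mem_image] at ht
    obtain ⟨i, hi, rfl⟩ := ht
    rw [Finset.mem_Ico] at hi
    exact hw.V i hi.1 hi.2
  · have hev : ∀ᶠ x in nhds (emb p), ∀ i ∈ Finset.Ico i1 i2,
        yr (f i - p) (x - emb p) - yr (f (i + 1) - p) (x - emb p) < 1 := by
      rw [Filter.eventually_all_finset]
      intro i _
      have hc : ContinuousAt (fun x : ℝ × ℝ =>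
          yr (f i - p) (x - emb p) - yr (f (i + 1) - p) (x - emb p)) (emb p) := by
        apply Continuous.continuousAt
        exact ((continuous_yr _).comp (by fun_prop)).sub ((continuous_yr _).comp (by fun_prop))
      apply hc.eventually_lt_const
      simp [yr]
    rw [nhdsWithin, Filter.mem_inf_principal]
    filter_upwards [hev] with x hx hxC
    obtain ⟨i, hi1, hi2, hi3, hi4⟩ := int_ivt (fun i => yr (f i - p) (x - emb p)) hw.lt
      (h1 x hxC) (h2 x hxC)
    have hi : i ∈ Finset.Ico i1 i2 := Finset.mem_Ico.2 ⟨hi1, hi2⟩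
    simp only [Set.mem_iUnion]
    refine ⟨(p, f i, f (i + 1)), Finset.mem_image_of_mem _ hi, ?_⟩
    exact mem_hull_of_cone (hw.V i hi1 hi2) hi3 hi4 (hx i hi).le

/-! ### the top row -/

/-- wall vertex on the top row -/
def TopWall (X : Lim) (u p : Pt) : Prop := ∃ (f : ℤ → Pt) (n : ℤ), Win X p f 0 n ∧
  f 0 = p - u ∧ f n = p + u ∧ X.W p (p - u) ∧ X.W p (p + u)

theorem isCoprime_of_dt {u w : Pt} (h : dt u w = 1) : IsCoprime u.1 u.2 :=
  ⟨w.2, -w.1, by simp only [dt] at h; linarith⟩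

theorem top_corner {u w : Pt} {a b : ℤ} (D : StripData X u w a b) {p c d : Pt}
    (hb : dt u p = b) (h : X.V p c d) : TopWall X u p ∨ ∃ f : ℤ → Pt, f 0 = c ∧ f 1 = d ∧
      (∀ i, X.V p (f i) (f (i + 1))) ∧ ∀ i j, i < j → 0 < det3 p (f i) (f j) := by
  rcases X.corner h with h1 | ⟨n, g, hW0, hWn, hV, i, hin, -, -⟩ | h1
  · exfalso
    have h2 : emb p ∈ X.Om := (X.closedAt_iff p).1 h1
    have h3 := ((D.om _).1 h2).2
    rw [yr_emb, hb] at h3
    exact lt_irrefl _ h3
  · left
    have hn : 0 < n := by omega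
    have hopp := wall_fan_opp hn hW0 hWn hV
    have hV0 := hV 0 hn
    obtain ⟨m, rfl⟩ : ∃ m, n = m + 1 := ⟨n - 1, by omega⟩
    have hVm := hV m (by omega)
    have e1 := D.hi _ (VV_of_V2 hV0)
    have e2 := D.hi _ (VV_of_V3 hVm)
    have e3 := D.hi _ (VV_of_V3 hV0)
    have e4 := congrArg (fun q => dt u q) hopp
    simp only [dt_neg_right, dt_sub_right] at e4
    have e5 : dt u (g 0 - p) = 0 := by rw [dt_sub_right]; linarith
    have hg0 : g 0 - p = -u := by
      rcases parallel_prim (isCoprime_of_dt D.huw) (X.W_prim hW0) e5 with h | h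
      · exfalso
        have e6 := X.det hV0
        rw [det3_eq_dt, h, dt_sub_right] at e6
        linarith
      · exact h
    have hg0' : g 0 = p - u := by rw [sub_eq_add_neg, ← hg0]; abel
    have hgn' : g (m + 1) = p + u := by
      have : g (m + 1) - p = u := by rw [hopp, hg0, neg_neg]
      rw [← this]; abel
    refine ⟨fun i => g i.toNat, ((m + 1 : ℕ) : ℤ), ⟨by positivity, fun i hi1 hi2 => ?_⟩, ?_, ?_,
      ?_, ?_⟩
    · have h3 := hV i.toNat (by omega)
      have h4 : (i + 1).toNat = i.toNat + 1 := by omega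
      simp only [h4]
      exact h3
    · simpa using hg0'
    · simp only [Int.toNat_natCast]
      exact hgn'
    · rw [← hg0']; exact hW0
    · rw [← hgn']; exact hWn
  · exact Or.inr h1

theorem TopWall.next {u w : Pt} {a b : ℤ} (D : StripData X u w a b) {p : Pt}
    (hb : dt u p = b) (h : TopWall X u p) : TopWall X u (p + u) := by
  obtain ⟨f, n, hw, h0, hn, -, -⟩ := h
  have hV := hw.V (n - 1) (by have := hw.lt; omega) (by omega)
  rw [sub_add_cancel, hn] at hV
  have hV' := X.rot (X.rot hV)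
  rcases top_corner D (by rw [dt_add_right, dt_self, hb, add_zero]) hV' with h1 | ⟨g, g0, -, h3, -⟩
  · exact h1
  · exfalso
    have h4 := h3 (-1)
    have e1 := X.det h4
    have e2 := D.hi _ (VV_of_V2 h4)
    rw [show (-1 : ℤ) + 1 = 0 by norm_num, g0, det3_eq_dt] at e1
    have e3 : dt (g (-1) - (p + u)) (p - (p + u)) = dt u (g (-1)) - dt u p := by
      simp only [dt, Prod.fst_sub, Prod.snd_sub, Prod.fst_add, Prod.snd_add]; ring
    rw [e3] at e1
    linarith

theorem TopWall.prev {u w : Pt} {a b : ℤ} (D : StripData X u w a b) {p : Pt}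
    (hb : dt u p = b) (h : TopWall X u p) : TopWall X u (p - u) := by
  obtain ⟨f, n, hw, h0, hn, -, -⟩ := h
  have hV := hw.V 0 le_rfl hw.lt
  rw [h0] at hV
  have hV' := X.rot hV
  rcases top_corner D (by rw [dt_sub_right, dt_self, hb, sub_zero]) hV' with h1 | ⟨g, -, g1, h3, -⟩
  · exact h1
  · exfalso
    have h4 := h3 1
    have e1 := X.det h4
    have e2 := D.hi _ (VV_of_V3 h4)
    rw [g1, det3_eq_dt] at e1
    have e3 : dt (p - (p - u)) (g (1 + 1) - (p - u)) = dt u (g (1 + 1)) - dt u p := by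
      simp only [dt, Prod.fst_sub, Prod.snd_sub]; ring
    rw [e3] at e1
    linarith

theorem TopWall.all {u w : Pt} {a b : ℤ} (D : StripData X u w a b) {p : Pt}
    (hb : dt u p = b) (h : TopWall X u p) {q : Pt} (hq : dt u q = b) : TopWall X u q := by
  have hall : ∀ j : ℤ, TopWall X u (p + j • u) := by
    intro j
    have hh : ∀ j : ℤ, dt u (p + j • u) = b := fun j => by
      rw [dt_add_right, dt_smul_right, dt_self, mul_zero, add_zero, hb]
    induction j using Int.induction_on with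
    | zero => simpa using h
    | succ i ih =>
      have := TopWall.next D (hh _) ih
      rwa [add_assoc, ← add_one_zsmul] at this
    | pred i ih =>
      have := TopWall.prev D (hh _) ih
      have e : p + (-(i : ℤ) - 1) • u = p + (-(i : ℤ)) • u - u := by
        rw [sub_smul, one_smul]; abel
      rwa [← e] at this
  have hqe : q = p + (dt (q - p) w) • u := by
    apply eq_of_coord D.huw
    · rw [dt_add_right, dt_smul_right, dt_self, mul_zero, add_zero, hb, hq]
    · rw [dt_add_left, dt_smul_left, D.huw, dt_sub_left]; ring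
  rw [hqe]
  exact hall _

/-- a hub on the top row: heights of the neighbours -/
theorem hub_height {u w : Pt} {a b : ℤ} (D : StripData X u w a b) {p : Pt} (hb : dt u p = b)
    {f : ℤ → Pt} (hV : ∀ i, X.V p (f i) (f (i + 1))) (i : ℤ) : dt u (f i - p) ≤ -1 := by
  by_contra hc
  push Not at hc
  have h1 := D.hi _ (VV_of_V2 (hV i))
  have h2 : dt u (f i - p) = 0 := by
    rw [dt_sub_right] at hc ⊢
    omega
  have h3 := X.det (hV i)
  rw [det3_eq_dt, dt_coord D.huw, h2, zero_mul, sub_zero, dt_sub_right] at h3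
  have h4 := D.hi _ (VV_of_V3 (hV i))
  have h5 := X.det (hV (i - 1))
  rw [sub_add_cancel, det3_eq_dt, dt_coord D.huw, h2, mul_zero, zero_sub, dt_sub_right] at h5
  have h6 := D.hi _ (VV_of_V2 (hV (i - 1)))
  rw [hb] at h3 h5
  rcases lt_trichotomy (dt (f i - p) w) 0 with h | h | h
  · nlinarith
  · rw [h] at h3; simp at h3
  · nlinarith

theorem hub_ends {u w : Pt} {a b : ℤ} (D : StripData X u w a b) {p : Pt} (hb : dt u p = b)
    {f : ℤ → Pt} (hV : ∀ i, X.V p (f i) (f (i + 1)))
    (hdet : ∀ i j, i < j → 0 < det3 p (f i) (f j)) (K : ℤ) :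
    (∀ i, |dt u (f i - p)| ≤ b - a) ∧ ∃ i1 i2 : ℤ, i1 < i2 ∧
      dt (f i1 - p) w < -K ∧ K < dt (f i2 - p) w := by
  have hY := hub_height D hb hV
  have hM : ∀ i, |dt u (f i - p)| ≤ b - a := by
    intro i
    have h1 := hY i
    have h2 := D.lo _ (VV_of_V2 (hV i))
    rw [abs_of_nonpos (by linarith), dt_sub_right, hb]
    linarith
  refine ⟨hM, ?_⟩
  have hba : 0 ≤ b - a := (abs_nonneg _).trans (hM 0)
  set K' := max K (|dt (f 0 - p) w| * (b - a)) with hK'
  have hK'1 : K ≤ K' := le_max_left _ _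
  have hK'2 : |dt (f 0 - p) w| * (b - a) ≤ K' := le_max_right _ _
  have hK'0 : 0 ≤ K' := (mul_nonneg (abs_nonneg _) hba).trans hK'2
  have hprod : ∀ j, |dt (f 0 - p) w * dt u (f j - p)| ≤ K' := by
    intro j
    rw [abs_mul]
    calc _ ≤ |dt (f 0 - p) w| * (b - a) := by gcongr; exact hM j
      _ ≤ _ := hK'2
  obtain ⟨i2, hi2, h2⟩ := fan_far D.huw hdet hM K' (Set.Ioi_infinite 0)
  obtain ⟨i1, hi1, h1⟩ := fan_far D.huw hdet hM K' (Set.Iio_infinite 0)
  refine ⟨i1, i2, lt_trans hi1 hi2, ?_, ?_⟩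
  · have h3 := hdet i1 0 hi1
    rw [det3_eq_dt, dt_coord D.huw] at h3
    have h4 := (abs_le.1 (hprod i1)).2
    have h4' := (abs_le.1 (hprod i1)).1
    have h5 := hY 0
    rcases lt_abs.1 h1 with h6 | h6
    · exfalso
      have h7 : 0 ≤ (-dt u (f 0 - p) - 1) * dt (f i1 - p) w :=
        mul_nonneg (by omega) (by linarith)
      nlinarith
    · linarith
  · have h3 := hdet 0 i2 hi2
    rw [det3_eq_dt, dt_coord D.huw] at h3
    have h4 := (abs_le.1 (hprod i2)).2
    have h4' := (abs_le.1 (hprod i2)).1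
    have h5 := hY 0
    rcases lt_abs.1 h2 with h6 | h6
    · linarith
    · exfalso
      have h7 : 0 ≤ (-dt u (f 0 - p) - 1) * (-dt (f i2 - p) w) :=
        mul_nonneg (by omega) (by linarith)
      nlinarith

/-- the hub of the top row sees all points of the next row -/
theorem hub_adj {u w : Pt} {a b : ℤ} (D : StripData X u w a b) {p : Pt} (hb : dt u p = b)
    {f : ℤ → Pt} (hV : ∀ i, X.V p (f i) (f (i + 1)))
    (hdet : ∀ i j, i < j → 0 < det3 p (f i) (f j)) {q : Pt} (hq : dt u q = b - 1) :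
    X.VE p q := by
  set k := dt (q - p) w with hk
  obtain ⟨hM, i1, i2, hlt, h1, h2⟩ := hub_ends D hb hV hdet (|k| * (b - a))
  have hz : dt u (q - p) = -1 := by rw [dt_sub_right, hb, hq]; ring
  have hF : ∀ i, dt (f i - p) (q - p) = -dt (f i - p) w - dt u (f i - p) * k := by
    intro i
    rw [dt_coord D.huw (f i - p) (q - p), hz]; ring
  have hprod : ∀ i, |dt u (f i - p) * k| ≤ |k| * (b - a) := by
    intro i
    rw [abs_mul, mul_comm]
    gcongr
    exact hM i
  obtain ⟨i, -, -, h3, h4⟩ := int_ivt (fun i => ((dt (f i - p) (q - p) : ℤ) : ℝ)) hlt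
    (by
      have := (abs_le.1 (hprod i1)).2
      have h5 : 0 ≤ dt (f i1 - p) (q - p) := by rw [hF]; linarith
      exact_mod_cast h5)
    (by
      have := (abs_le.1 (hprod i2)).1
      have h5 : dt (f i2 - p) (q - p) ≤ 0 := by rw [hF]; linarith
      exact_mod_cast h5)
  have h3' : 0 ≤ dt (f i - p) (q - p) := by exact_mod_cast h3
  have h4' : dt (f (i + 1) - p) (q - p) ≤ 0 := by exact_mod_cast h4
  have hd := X.det (hV i)
  rw [det3_eq_dt] at hd
  set A := f i - p with hA
  set B := f (i + 1) - p with hB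
  set z := q - p with hzdef
  have e1 : dt u z = (-dt B z) * dt u A + dt A z * dt u B := by
    have : dt u z * dt A B = (-dt B z) * dt u A + dt A z * dt u B := by simp only [dt]; ring
    rwa [hd, mul_one] at this
  have hYA : dt u A ≤ -1 := hub_height D hb hV i
  have hYB : dt u B ≤ -1 := hub_height D hb hV (i + 1)
  have e2 : (-dt B z) + dt A z ≤ 1 := by
    rw [hz] at e1
    nlinarith
  have e3 : z.1 = (-dt B z) * A.1 + dt A z * B.1 := by
    have : z.1 * dt A B = (-dt B z) * A.1 + dt A z * B.1 := by simp only [dt]; ring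
    rwa [hd, mul_one] at this
  have e4 : z.2 = (-dt B z) * A.2 + dt A z * B.2 := by
    have : z.2 * dt A B = (-dt B z) * A.2 + dt A z * B.2 := by simp only [dt]; ring
    rwa [hd, mul_one] at this
  have hcases : (-dt B z = 1 ∧ dt A z = 0) ∨ (-dt B z = 0 ∧ dt A z = 1) ∨
      (-dt B z = 0 ∧ dt A z = 0) := by omega
  rcases hcases with ⟨h5, h6⟩ | ⟨h5, h6⟩ | ⟨h5, h6⟩
  · rw [h5, h6] at e3 e4
    have : z = A := Prod.ext (by rw [e3]; ring) (by rw [e4]; ring)
    have hqf : q = f i := by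
      rw [hzdef, hA] at this
      exact sub_left_injective this
    rw [hqf]
    exact ⟨_, Or.inl (hV i)⟩
  · rw [h5, h6] at e3 e4
    have : z = B := Prod.ext (by rw [e3]; ring) (by rw [e4]; ring)
    have hqf : q = f (i + 1) := by
      rw [hzdef, hB] at this
      exact sub_left_injective this
    rw [hqf]
    exact ⟨_, Or.inl (hV (i + 1))⟩
  · exfalso
    rw [h5, h6, hz] at e1
    simp at e1

/-- the top row is a wall row or has a hub adjacent to the whole next row -/
theorem top_row {u w : Pt} {a b : ℤ} (D : StripData X u w a b) :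
    (∀ q, dt u q = b → TopWall X u q) ∨ ∃ p, dt u p = b ∧ ∀ q, dt u q = b - 1 → X.VE p q := by
  obtain ⟨p, ⟨c, d, h⟩, hpb⟩ := D.exhi
  rcases top_corner D hpb h with h1 | ⟨f, -, -, h3, h4⟩
  · exact Or.inl fun q hq => TopWall.all D hpb h1 hq
  · exact Or.inr ⟨p, hpb, fun q hq => hub_adj D hpb h3 h4 hq⟩

/-- windows at vertices of the top row covering a given cone -/
theorem top_window {u w : Pt} {a b : ℤ} (D : StripData X u w a b) {p : Pt} (hp : X.VV p)
    (hb : dt u p = b) (K : ℤ) : ∃ (f : ℤ → Pt) (i1 i2 : ℤ), Win X p f i1 i2 ∧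
      ∀ z : ℝ × ℝ, yr u z ≤ 0 → |xr w z| ≤ K * (-yr u z) →
        0 ≤ yr (f i1 - p) z ∧ yr (f i2 - p) z ≤ 0 := by
  obtain ⟨c, d, h⟩ := hp
  rcases top_corner D hb h with ⟨f, n, hw, h0, hn, -, -⟩ | ⟨f, -, -, hV, hdet⟩
  · refine ⟨f, 0, n, hw, fun z hz _ => ?_⟩
    rw [h0, hn]
    constructor
    · rw [show p - u - p = -u by abel]
      have : yr (-u) z = - yr u z := by
        simp only [yr, Prod.fst_neg, Prod.snd_neg]; push_cast; ring
      rw [this]; linarith
    · rw [show p + u - p = u by abel]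
      exact hz
  · obtain ⟨hM, i1, i2, hlt, h1, h2⟩ := hub_ends D hb hV hdet (K * (b - a))
    refine ⟨f, i1, i2, ⟨hlt, fun i _ _ => hV i⟩, fun z hz hzK => ?_⟩
    have hformula : ∀ i, yr (f i - p) z =
        (dt (f i - p) w : ℤ) * yr u z - (dt u (f i - p) : ℤ) * xr w z := by
      intro i
      have h3 : ((dt u w : ℤ) : ℝ) = 1 := by rw [D.huw]; simp
      have h4 : yr (f i - p) z * ((dt u w : ℤ) : ℝ) =
        (dt (f i - p) w : ℤ) * yr u z - (dt u (f i - p) : ℤ) * xr w z := by
        simp only [yr, xr, dt, Prod.fst_sub, Prod.snd_sub]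
        push_cast
        ring
      rwa [h3, mul_one] at h4
    have hprod : ∀ i, |((dt u (f i - p) : ℤ) : ℝ) * xr w z| ≤ (K * (b - a) : ℤ) * (-yr u z) := by
      intro i
      rw [abs_mul]
      have h5 : |((dt u (f i - p) : ℤ) : ℝ)| ≤ ((b - a : ℤ) : ℝ) := by
        rw [← Int.cast_abs]; exact_mod_cast hM i
      calc _ ≤ ((b - a : ℤ) : ℝ) * (K * (-yr u z)) := by
            apply mul_le_mul h5 hzK (abs_nonneg _)
            exact (abs_nonneg _).trans h5
        _ = _ := by push_cast; ring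
    constructor
    · rw [hformula]
      have h6 := (abs_le.1 (hprod i1)).2
      have h7 : ((dt (f i1 - p) w : ℤ) : ℝ) < -((K * (b - a) : ℤ) : ℝ) := by exact_mod_cast h1
      nlinarith
    · rw [hformula]
      have h6 := (abs_le.1 (hprod i2)).1
      have h7 : ((K * (b - a) : ℤ) : ℝ) < ((dt (f i2 - p) w : ℤ) : ℝ) := by exact_mod_cast h2
      nlinarith

/-- rooms in wide strips -/
theorem hasRoom_of_rows {u w : Pt} {a b : ℤ} (D : StripData X u w a b)
    (h : a + 3 < b ∨ (a + 3 = b ∧ ∀ q, dt u q = b → TopWall X u q)) : X.HasRoom := by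
  obtain ⟨p, hp, hpa⟩ := D.exlo
  have huu : yr u (emb u) = 0 := by rw [yr_emb, dt_self]; simp
  have huw' : yr u (emb w) = 1 := by rw [yr_emb, D.huw]; simp
  have hxu : xr w (emb u) = 1 := by rw [xr_emb, D.huw]; simp
  have hxw : xr w (emb w) = 0 := by rw [xr_emb, dt_self]; simp
  have hneg : ∀ x, yr (-u) x = - yr u x := by
    intro x; simp only [yr, Prod.fst_neg, Prod.snd_neg]; push_cast; ring
  have hnegx : ∀ x, xr (-w) x = - xr w x := by
    intro x; simp only [xr, Prod.fst_neg, Prod.snd_neg]; push_cast; ring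
  have hyx : ∀ s y : ℝ, yr u (emb p + s • emb u + y • emb w) = a + y := by
    intro s y
    rw [yr_add, yr_add, yr_smul, yr_smul, huu, huw', yr_emb, hpa]; ring
  apply hasRoom_of_local (o := p) D.huw
  rintro _ ⟨s, y, hs0, hsy, hy3, rfl⟩
  have hy0 : 0 ≤ y := by linarith
  rcases hy0.eq_or_lt with hy | hy
  · -- the apex
    right
    have hs : s = 0 := by linarith
    subst hs
    rw [← hy, zero_smul, zero_smul, add_zero, add_zero]
    obtain ⟨f, i1, i2, hw, hcone⟩ := top_window D.flip hp (by rw [dt_neg_left, hpa]) 2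
    have hC : ∀ x ∈ Tri63 p u w, 0 ≤ yr (f i1 - p) (x - emb p) ∧
        yr (f i2 - p) (x - emb p) ≤ 0 := by
      rintro _ ⟨s', y', h1, h2, h3, rfl⟩
      have hz : emb p + s' • emb u + y' • emb w - emb p = s' • emb u + y' • emb w := by abel
      rw [hz]
      apply hcone
      · rw [hneg, yr_add, yr_smul, yr_smul, huu, huw']; linarith
      · rw [hnegx, hneg, abs_neg, xr_add, xr_smul, xr_smul, yr_add, yr_smul, yr_smul, huu, huw',
          hxu, hxw, mul_zero, add_zero, mul_one, mul_zero, zero_add, mul_one, abs_of_nonneg h1]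
        push_cast
        linarith
    exact win_nhds hw (fun x hx => (hC x hx).1) (fun x hx => (hC x hx).2)
  by_cases hlt : (a:ℝ) + y < b
  · left
    rw [D.om, hyx]
    exact ⟨by linarith, hlt⟩
  · right
    push Not at hlt
    rcases h with h | ⟨h, hwall⟩
    · exfalso
      have : (a:ℝ) + 3 < b := by exact_mod_cast h
      linarith
    have hb3 : (a:ℝ) + 3 = b := by exact_mod_cast h
    have hy3' : y = 3 := by linarith
    subst hy3'
    set k := ⌊s⌋ with hk
    set σ := s - k with hσ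
    have hσ0 : 0 ≤ σ := by rw [hσ]; linarith [Int.floor_le s]
    have hσ1 : σ < 1 := by rw [hσ]; linarith [Int.lt_floor_add_one s]
    set o : Pt := p + k • u + (3:ℤ) • w with ho
    have hoh : dt u o = b := by
      rw [ho, dt_add_right, dt_add_right, dt_smul_right, dt_smul_right, dt_self, D.huw, hpa]
      linarith
    have hx : emb p + s • emb u + (3:ℝ) • emb w = emb o + σ • emb u := by
      rw [ho, emb_add', emb_add', emb_zsmul', emb_zsmul', hσ]
      push_cast
      module
    rw [hx]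
    have hCle : ∀ x ∈ Tri63 p u w, yr u (x - emb o) ≤ 0 := by
      rintro _ ⟨s', y', h1, h2, h3, rfl⟩
      rw [yr_sub, hyx, yr_emb, hoh]
      linarith
    obtain ⟨f, n, hw, h0, hn, -, -⟩ := hwall o hoh
    rcases hσ0.eq_or_lt with hs | hs
    · rw [← hs, zero_smul, add_zero]
      refine win_nhds hw (fun x hx => ?_) (fun x hx => ?_)
      · rw [h0, show o - u - o = -u by abel, hneg]
        linarith [hCle x hx]
      · rw [hn, show o + u - o = u by abel]
        exact hCle x hx
    · have hV := hw.V (n - 1) (by have := hw.lt; omega) (by omega)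
      rw [sub_add_cancel, hn] at hV
      set c := f (n - 1) with hc
      refine ⟨{(o, c, o + u)}, by simpa using hV, ?_⟩
      rw [nhdsWithin, Filter.mem_inf_principal]
      have hdet := X.det hV
      rw [det3_eq_dt, show o + u - o = u by abel] at hdet
      have e1 : yr (c - o) (emb o + σ • emb u - emb o) = σ := by
        rw [show emb o + σ • emb u - emb o = σ • emb u by abel, yr_smul, yr_emb, hdet]; simp
      have e2 : yr u (emb o + σ • emb u - emb o) = 0 := by
        rw [show emb o + σ • emb u - emb o = σ • emb u by abel, yr_smul, huu, mul_zero]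
      have c1 : Continuous fun x : ℝ × ℝ => yr (c - o) (x - emb o) :=
        (continuous_yr _).comp (by fun_prop)
      have c2 : Continuous fun x : ℝ × ℝ => yr (c - o) (x - emb o) - yr u (x - emb o) :=
        c1.sub ((continuous_yr _).comp (by fun_prop))
      have ev1 : ∀ᶠ x in nhds (emb o + σ • emb u), 0 < yr (c - o) (x - emb o) :=
        c1.continuousAt.eventually_const_lt (by beta_reduce; rw [e1]; exact hs)
      have ev2 : ∀ᶠ x in nhds (emb o + σ • emb u),
          yr (c - o) (x - emb o) - yr u (x - emb o) < 1 :=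
        c2.continuousAt.eventually_lt_const (by beta_reduce; rw [e1, e2]; linarith)
      filter_upwards [ev1, ev2] with x hx1 hx2 hxC
      simp only [Finset.mem_singleton, Set.iUnion_iUnion_eq_left]
      apply mem_hull_of_cone hV hx1.le
      · rw [show o + u - o = u by abel]; exact hCle x hxC
      · rw [show o + u - o = u by abel]; exact hx2.le

/-- classification in a strip -/
theorem classify_of_strip {u w : Pt} {a b : ℤ} (D : StripData X u w a b) {r : Pt}
    (hr : X.ClosedAt r) : X.HasRoom ∨ X.HasFan r ∨ X.HasStrip r := by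
  have hrOm : emb r ∈ X.Om := (X.closedAt_iff r).1 hr
  have h1 := (D.om _).1 hrOm
  rw [yr_emb] at h1
  have har : a < dt u r := by exact_mod_cast h1.1
  have hrb : dt u r < b := by exact_mod_cast h1.2
  have hfan : ∀ {u w : Pt} {a b : ℤ}, StripData X u w a b → dt u r = b - 1 →
      (∃ p, dt u p = b ∧ ∀ q, dt u q = b - 1 → X.VE p q) → X.HasFan r := by
    rintro u w a b D hr ⟨p, hpb, hp⟩
    refine ⟨p, u, ?_, fun j => hp _ ?_⟩
    · rw [dt_sub_right, hr, hpb]; simp
    · rw [dt_add_right, dt_smul_right, dt_self, mul_zero, add_zero, hr]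
  rcases lt_or_ge (a + 3) b with h4 | h4
  · exact Or.inl (hasRoom_of_rows D (Or.inl h4))
  rcases top_row D with htw | hth
  · rcases h4.eq_or_lt with h5 | h5
    · exact Or.inl (hasRoom_of_rows D (Or.inr ⟨h5.symm, htw⟩))
    · -- width two
      have hb2 : b = a + 2 := by omega
      have hra : dt u r = a + 1 := by omega
      rcases top_row D.flip with hbw | hbh
      · right; right
        refine ⟨u, isCoprime_of_dt D.huw, fun j => ?_⟩
        have hh : dt u (r + j • u) = a + 1 := by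
          rw [dt_add_right, dt_smul_right, dt_self, mul_zero, add_zero, hra]
        constructor
        · rw [closedAt_iff, D.om, yr_emb, hh, hb2]
          push_cast
          constructor <;> linarith
        · intro q hq
          have hqV : X.VV q := by
            obtain ⟨c, hc | hc⟩ := hq
            · exact VV_of_V2 hc
            · exact VV_of_V1 hc
          have h6 := D.lo q hqV
          have h7 := D.hi q hqV
          rw [dt_sub_right, hh]
          have h8 : dt u q = a ∨ dt u q = a + 1 ∨ dt u q = b := by omega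
          rcases h8 with h8 | h8 | h8
          · right
            refine ⟨by rw [h8]; simp, ?_⟩
            obtain ⟨f, n, -, -, -, hW, -⟩ := hbw q (by rw [dt_neg_left, h8])
            rwa [sub_neg_eq_add] at hW
          · left
            rw [h8]; ring
          · right
            refine ⟨by rw [h8, hb2]; simp, ?_⟩
            obtain ⟨f, n, -, -, -, -, hW⟩ := htw q h8
            exact hW
      · right; left
        exact hfan D.flip (by rw [dt_neg_left, hra]; ring) hbh
  · rcases h4.eq_or_lt with h5 | h5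
    · rcases top_row D.flip with hbw | hbh
      · left
        exact hasRoom_of_rows D.flip (Or.inr ⟨by rw [h5]; ring, hbw⟩)
      · right; left
        by_cases hrt : dt u r = b - 1
        · exact hfan D hrt hth
        · exact hfan D.flip (by rw [dt_neg_left]; omega) hbh
    · right; left
      exact hfan D (by omega) hth

/-- classification from convexity -/
theorem classify_of_convex (hconv : Convex ℝ X.Om) {r : Pt} (hr : X.ClosedAt r) :
    X.HasRoom ∨ X.HasFan r ∨ X.HasStrip r := by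
  have hrOm : emb r ∈ X.Om := (X.closedAt_iff r).1 hr
  rcases sqIn_or_strip X.isOpen_Om hconv ⟨_, hrOm⟩ with h | ⟨u, w, huw, M, hM⟩
  · exact Or.inl (hasRoom_of_sqIn h)
  · obtain ⟨a, b, D⟩ := exists_stripData huw hconv ⟨_, hrOm⟩ hM
    exact classify_of_strip D hr

end MP01b126.Lim

/-- CLASSIFICATION of limit structures -/
theorem MP01b126.limClassify : MP01b126.LimClassify :=
  fun X _ hr => MP01b126.Lim.classify_of_convex X.convex_Om hr
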