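import Pool.Agent.Lib.MP_01b126_co.St.TransOm

/-!
# MP_01b126_co, STRUCTURE: corners outside the visible region
-/

namespace MP01b126.Lim

open Set

variable (X : Lim)

/-- a bi-infinite fan at `A` -/
def Hub (A : Pt) : Prop := ∃ w : ℤ → Pt, (∀ i, X.V A (w i) (w (i + 1))) ∧
  ∀ i j, i < j → 0 < det3 A (w i) (w j)

/-- a full wall row through `p` in direction `u`, visible from its left -/
def Row (p u : Pt) : Prop := ∀ j : ℤ, X.W (p + j • u) (p + (j + 1) • u) ∧
  ∃ c, X.V (p + j • u) (p + (j + 1) • u) c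

variable {X}

lemma coll_prim {a b : Pt} (ha : IsCoprime a.1 a.2) (hb : IsCoprime b.1 b.2) (h : dt a b = 0) :
    b = a ∨ b = -a := by
  obtain ⟨s, t, e⟩ := ha
  obtain ⟨s', t', e'⟩ := hb
  unfold dt at h
  obtain ⟨k, hk⟩ : ∃ k, k = s * b.1 + t * b.2 := ⟨_, rfl⟩
  have h1 : b.1 = k * a.1 := by rw [hk]; linear_combination -b.1 * e - t * h
  have h2 : b.2 = k * a.2 := by rw [hk]; linear_combination -b.2 * e + s * h
  have h3 : k * (s' * a.1 + t' * a.2) = 1 := by
    rw [h1, h2] at e'; linear_combination e'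
  rcases Int.isUnit_iff.mp (IsUnit.of_mul_eq_one _ h3) with h4 | h4
  · left; ext
    · rw [h1, h4, one_mul]
    · rw [h2, h4, one_mul]
  · right; ext
    · rw [h1, h4]; simp
    · rw [h2, h4]; simp

lemma not_closedAt_of_W {p q : Pt} (h : X.W p q) : ¬ X.ClosedAt q := by
  rw [closedAt_iff]
  have := X.wall_not_mem_Om h 1
  simpa using this

lemma W_dir {p q r : Pt} (h : X.W p q) (h' : X.W p r) : r = q ∨ r = p - (q - p) := by
  have h1 := X.W_coll h h'
  rcases coll_prim (X.W_prim h) (X.W_prim h') (by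
    unfold dt; unfold det3 at h1
    simpa using h1) with h2 | h2
  · left; exact sub_left_injective h2
  · right
    have : r = p + (r - p) := by abel
    rw [this, h2]; abel

lemma opp_false {p q c d : Pt} (hV : X.V p q c) (hW : X.W p q) (h : X.V q p d) : False :=
  X.opp_not hV h hW

lemma wall_next {p q c : Pt} (hV : X.V p q c) (hW : X.W p q) : ∃ c', X.V q (q + (q - p)) c' := by
  have hq := X.rot hV
  rcases X.corner hq with h1 | ⟨n, w, h0, hn, hch, i, hi, e1, e2⟩ | ⟨w, e1, e2, h3, -⟩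
  · exact (not_closedAt_of_W hW h1).elim
  · have hw0 := hch 0 (by omega)
    rcases W_dir (X.W_symm hW) h0 with h2 | h2
    · rw [h2] at hw0
      exact (opp_false hV hW hw0).elim
    · refine ⟨w (0 + 1), ?_⟩
      have : q + (q - p) = q - (p - q) := by abel
      rw [this, ← h2]; exact hw0
  · have := h3 1
    rw [e2] at this
    exact (opp_false hV hW this).elim

lemma wall_prev {p q c : Pt} (hV : X.V p q c) (hW : X.W p q) : ∃ c', X.V (p - (q - p)) p c' := by
  rcases X.corner hV with h1 | ⟨n, w, h0, hn, hch, i, hi, e1, e2⟩ | ⟨w, e1, e2, h3, -⟩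
  · exact (not_closedAt_of_W (X.W_symm hW) h1).elim
  · have hw := hch (n - 1) (by omega)
    rw [show n - 1 + 1 = n by omega] at hw
    rcases W_dir hW hn with h2 | h2
    · rw [h2] at hw
      exact (opp_false hV hW (X.rot (X.rot hw))).elim
    · rw [h2] at hw
      exact ⟨_, X.rot (X.rot hw)⟩
  · have := h3 (-1)
    rw [show (-1 : ℤ) + 1 = 0 by norm_num, e1] at this
    exact (opp_false hV hW (X.rot (X.rot this))).elim

lemma row_of_W {p q c : Pt} (hV : X.V p q c) (hW : X.W p q) : X.Row p (q - p) := by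
  intro j
  induction j using Int.induction_on with
  | zero =>
    rw [zero_smul, zero_add, add_zero, one_smul, add_sub_cancel]
    exact ⟨hW, c, hV⟩
  | succ i ih =>
    obtain ⟨h1, c', h2⟩ := ih
    have e : (p + ((i : ℤ) + 1) • (q - p)) + ((p + ((i : ℤ) + 1) • (q - p)) -
        (p + (i : ℤ) • (q - p))) = p + ((i : ℤ) + 1 + 1) • (q - p) := by
      simp only [add_smul, one_smul]; abel
    refine ⟨?_, ?_⟩
    · rw [← e]; exact X.W_next h1
    · have := wall_next h2 h1
      rw [e] at this; exact this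
  | pred i ih =>
    obtain ⟨h1, c', h2⟩ := ih
    have e : (p + (-(i : ℤ)) • (q - p)) - ((p + (-(i : ℤ) + 1) • (q - p)) -
        (p + (-(i : ℤ)) • (q - p))) = p + (-(i : ℤ) - 1) • (q - p) := by
      simp only [add_smul, sub_smul, one_smul]; abel
    have e2 : (p + (-(i : ℤ)) • (q - p)) + ((p + (-(i : ℤ)) • (q - p)) -
        (p + (-(i : ℤ) + 1) • (q - p))) = p + (-(i : ℤ) - 1) • (q - p) := by
      simp only [add_smul, sub_smul, one_smul]; abel
    rw [show -(i : ℤ) - 1 + 1 = -(i : ℤ) by ring]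
    refine ⟨?_, ?_⟩
    · rw [← e2]; exact X.W_symm (X.W_next (X.W_symm h1))
    · have := wall_prev h2 h1
      rw [e] at this; exact this

/-- vertices outside `Om` -/
lemma vertex_cases {p a b : Pt} (hV : X.V p a b) (hp : ¬ X.ClosedAt p) :
    (∃ u, IsCoprime u.1 u.2 ∧ X.Row p u) ∨ X.Hub p := by
  rcases X.corner hV with h1 | ⟨n, w, h0, hn, hch, i, hi, e1, e2⟩ | ⟨w, e1, e2, h3, h4⟩
  · exact (hp h1).elim
  · left
    exact ⟨w 0 - p, X.W_prim h0, row_of_W (hch 0 (by omega)) h0⟩
  · right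
    exact ⟨w, h3, h4⟩

end MP01b126.Lim
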