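import Pool.Agent.Lib.MP_01b126_co.St.LimDefs

/-! MP_01b126_co, STRUCTURE, piece PG: pure convex geometry (no triangulations). -/

namespace MP01b126.PG

/-- a unimodular parallelogram of size six inside a set -/
def SqIn (Ω : Set (ℝ × ℝ)) : Prop := ∃ o u w : Pt, dt u w = 1 ∧
  ∀ x y : ℝ, 0 ≤ x → x ≤ 6 → 0 ≤ y → y ≤ 6 → emb o + x • emb u + y • emb w ∈ Ω

/-- recession directions of the closure are recession directions -/
theorem rec_mem {Ω : Set (ℝ × ℝ)} (ho : IsOpen Ω) (hc : Convex ℝ Ω) {p a z : ℝ × ℝ} (hz : z ∈ Ω)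
    (ha : ∀ s : ℝ, 0 ≤ s → p + s • a ∈ closure Ω) {t : ℝ} (ht : 0 ≤ t) : z + t • a ∈ Ω := by
  have hcont : ContinuousAt (fun ε : ℝ => (1-ε)⁻¹ • (z - ε • p)) 0 := by
    have h1 : ContinuousAt (fun ε : ℝ => (1-ε)⁻¹) 0 :=
      ContinuousAt.inv₀ (by fun_prop) (by norm_num)
    exact h1.smul (by fun_prop)
  have hev : ∀ᶠ ε in nhds (0:ℝ), (1-ε)⁻¹ • (z - ε • p) ∈ Ω := by
    apply hcont.eventually_mem
    simpa using ho.mem_nhds hz
  obtain ⟨δ, hδ, hb⟩ := Metric.eventually_nhds_iff.1 hev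
  set ε := min (δ/2) (1/2) with hε
  have hε0 : 0 < ε := by positivity
  have hε1 : ε ≤ 1/2 := min_le_right _ _
  have hεδ : ε ≤ δ/2 := min_le_left _ _
  have hmem : (1-ε)⁻¹ • (z - ε • p) ∈ Ω := hb (by
    rw [Real.dist_eq, sub_zero, abs_of_pos hε0]; linarith)
  have h2 : p + (t/ε) • a ∈ closure Ω := ha _ (by positivity)
  have h3 := hc.combo_interior_closure_mem_interior (a := 1-ε) (b := ε)
    (by rwa [ho.interior_eq]) h2 (by linarith) hε0.le (by ring)
  rw [ho.interior_eq] at h3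
  convert h3 using 1
  have h4 : (1-ε) ≠ 0 := by linarith
  rw [smul_smul, mul_inv_cancel₀ h4, one_smul, smul_add, smul_smul, mul_div_cancel₀ _ hε0.ne']
  abel

theorem cone_cover (a b : ℝ × ℝ) (hab : a.1 * b.2 - a.2 * b.1 ≠ 0) (R : ℝ) (hR : 0 ≤ R) :
    ∃ K : ℝ, 0 < K ∧ ∀ z : ℝ × ℝ, |z.1| ≤ R → |z.2| ≤ R →
      ∃ s t : ℝ, 0 < s ∧ 0 < t ∧ K • (a + b) + z = s • a + t • b := by
  set D := a.1 * b.2 - a.2 * b.1 with hD
  have hD0 : 0 < |D| := abs_pos.2 hab
  set S := |a.1| + |a.2| + |b.1| + |b.2| with hS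
  have hS0 : 0 ≤ S := by positivity
  refine ⟨1 + R * S / |D|, by positivity, fun z h1 h2 => ?_⟩
  have key : ∀ u v : ℝ, |u| + |v| ≤ S → |z.1 * u + z.2 * v| ≤ R * S := by
    intro u v huv
    calc |z.1 * u + z.2 * v| ≤ |z.1| * |u| + |z.2| * |v| := by
          rw [← abs_mul, ← abs_mul]; exact abs_add_le _ _
      _ ≤ R * |u| + R * |v| := by gcongr
      _ = R * (|u| + |v|) := by ring
      _ ≤ R * S := by gcongr
  have key2 : ∀ x : ℝ, |x| ≤ R * S → 0 < 1 + R * S / |D| + x / D := by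
    intro x hx
    have h3 : |x / D| ≤ R * S / |D| := by
      rw [abs_div]; gcongr
    have := (abs_le.1 h3).1
    linarith
  refine ⟨1 + R * S / |D| + (z.1 * b.2 + z.2 * (-b.1)) / D,
    1 + R * S / |D| + (z.1 * (-a.2) + z.2 * a.1) / D, key2 _ (key _ _ ?_), key2 _ (key _ _ ?_), ?_⟩
  · rw [abs_neg, hS]
    have := abs_nonneg a.1
    have := abs_nonneg a.2
    linarith
  · rw [abs_neg, hS]
    have := abs_nonneg b.1
    have := abs_nonneg b.2
    linarith
  · have hDne : D ≠ 0 := hab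
    ext
    · simp only [Prod.fst_add, Prod.smul_fst, smul_eq_mul]
      field_simp
      rw [hD]; ring
    · simp only [Prod.snd_add, Prod.smul_snd, smul_eq_mul]
      field_simp
      rw [hD]; ring

/-- PG1: two non-parallel rays from a common point in the closure -/
theorem sqIn_of_cone {Ω : Set (ℝ × ℝ)} (ho : IsOpen Ω) (hc : Convex ℝ Ω) (p a b : ℝ × ℝ)
    (hab : a.1 * b.2 - a.2 * b.1 ≠ 0) (ha : ∀ s : ℝ, 0 ≤ s → p + s • a ∈ closure Ω)
    (hb : ∀ s : ℝ, 0 ≤ s → p + s • b ∈ closure Ω) : SqIn Ω := by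
  have hne : Ω.Nonempty := by
    have := ha 0 le_rfl
    exact closure_nonempty_iff.1 ⟨_, this⟩
  obtain ⟨z, hz⟩ := hne
  have hcone : ∀ s t : ℝ, 0 ≤ s → 0 ≤ t → z + (s • a + t • b) ∈ Ω := by
    intro s t hs ht
    rw [← add_assoc]
    exact rec_mem ho hc (rec_mem ho hc hz ha hs) hb ht
  obtain ⟨K, hK, hcov⟩ := cone_cover a b hab 7 (by norm_num)
  set c := z + K • (a + b) with hcdef
  refine ⟨(⌊c.1⌋, ⌊c.2⌋), (1, 0), (0, 1), by simp [dt], fun x y hx hx6 hy hy6 => ?_⟩
  obtain ⟨s, t, hs, ht, hst⟩ := hcov (⌊c.1⌋ - c.1 + x, ⌊c.2⌋ - c.2 + y)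
    (by
      have h1 := Int.floor_le c.1
      have h2 := Int.lt_floor_add_one c.1
      rw [abs_le]; constructor <;> simp only <;> linarith)
    (by
      have h1 := Int.floor_le c.2
      have h2 := Int.lt_floor_add_one c.2
      rw [abs_le]; constructor <;> simp only <;> linarith)
  have := hcone s t hs.le ht.le
  rw [← hst] at this
  convert this using 1
  ext
  · simp only [emb, hcdef, Prod.fst_add, Prod.smul_fst, smul_eq_mul]
    push_cast
    ring
  · simp only [emb, hcdef, Prod.snd_add, Prod.smul_snd, smul_eq_mul]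
    push_cast
    ring

/-- small values of an irrational functional on a basis -/
theorem exists_small_basis (a : ℝ × ℝ) (ha : ∀ u : Pt, u ≠ 0 → a.1 * u.2 - a.2 * u.1 ≠ 0)
    (η : ℝ) (hη : 0 < η) : ∃ u w : Pt, dt u w = 1 ∧ |a.1 * u.2 - a.2 * u.1| < η ∧
      |a.1 * w.2 - a.2 * w.1| < η := by
  -- `a.1 ≠ 0`
  have ha1 : a.1 ≠ 0 := by
    have := ha (0, 1) (by simp)
    simpa using this
  obtain ⟨n, hn⟩ := exists_nat_gt (|a.1| / η)
  have hnpos : 0 < n := by
    have : (0:ℝ) < n := lt_of_le_of_lt (by positivity) hn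
    exact_mod_cast this
  obtain ⟨j, k, hk0, hkn, hjk⟩ := Real.exists_int_int_abs_mul_sub_le (a.2 / a.1) hnpos
  -- vector (k, j): det = a.1 * j - a.2 * k
  have hval : |a.1 * j - a.2 * k| < η := by
    have h1 : a.1 * j - a.2 * k = - (a.1 * (k * (a.2 / a.1) - j)) := by
      field_simp
      ring
    rw [h1, abs_neg, abs_mul]
    have h2 : |a.1| * |k * (a.2 / a.1) - j| ≤ |a.1| * (1 / (n + 1)) := by gcongr
    have h3 : |a.1| * (1 / ((n:ℝ) + 1)) < η := by
      rw [mul_one_div, div_lt_iff₀ (by positivity)]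
      rw [div_lt_iff₀ hη] at hn
      nlinarith
    linarith
  -- primitive vector
  obtain ⟨g, u1, u2, hg, hcop, hk, hj⟩ : ∃ g u1 u2 : ℤ, 0 < g ∧ IsCoprime u1 u2 ∧ k = g * u1 ∧
      j = g * u2 := by
    have hgpos : 0 < Int.gcd k j := Int.gcd_pos_of_ne_zero_left _ hk0.ne'
    refine ⟨Int.gcd k j, k / Int.gcd k j, j / Int.gcd k j, by exact_mod_cast hgpos, ?_, ?_, ?_⟩
    · rw [Int.isCoprime_iff_gcd_eq_one]
      exact Int.gcd_div_gcd_div_gcd hgpos
    · exact (Int.mul_ediv_cancel' (Int.gcd_dvd_left _ _)).symm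
    · exact (Int.mul_ediv_cancel' (Int.gcd_dvd_right _ _)).symm
  have hu : |a.1 * u2 - a.2 * u1| < η := by
    have h1 : a.1 * j - a.2 * k = g * (a.1 * u2 - a.2 * u1) := by
      rw [hk, hj]; push_cast; ring
    rw [h1, abs_mul] at hval
    have h2 : (1:ℝ) ≤ |(g:ℝ)| := by
      rw [abs_of_pos (by exact_mod_cast hg)]
      exact_mod_cast hg
    nlinarith [abs_nonneg (a.1 * u2 - a.2 * u1)]
  obtain ⟨x, y, hxy⟩ := hcop
  -- w0 = (-y, x): det u w0 = u1 * x + u2 * y = 1
  set d := a.1 * u2 - a.2 * u1 with hd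
  have hd0 : d ≠ 0 := by
    have := ha (u1, u2) (by
      rintro h
      simp only [Prod.mk_eq_zero] at h
      rw [h.1, h.2] at hxy
      simp at hxy)
    exact this
  set e := a.1 * x - a.2 * (-y) with he
  set r := round (e / d) with hr
  refine ⟨(u1, u2), (-y - r * u1, x - r * u2), ?_, hu, ?_⟩
  · simp only [dt]
    linear_combination hxy
  · have h1 : a.1 * ((x - r * u2 : ℤ) : ℝ) - a.2 * ((-y - r * u1 : ℤ) : ℝ) = (e / d - r) * d := by
      rw [sub_mul, div_mul_cancel₀ _ hd0, he, hd]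
      push_cast
      ring
    rw [h1, abs_mul]
    have h2 := abs_sub_round (e / d)
    rw [← hr] at h2
    nlinarith [abs_nonneg d]

/-- PG3: a line with irrational slope in the closure -/
theorem sqIn_of_irrational_line {Ω : Set (ℝ × ℝ)} (ho : IsOpen Ω) (hc : Convex ℝ Ω)
    (hne : Ω.Nonempty) (p a : ℝ × ℝ) (ha : ∀ u : Pt, u ≠ 0 → a.1 * u.2 - a.2 * u.1 ≠ 0)
    (hl : ∀ s : ℝ, p + s • a ∈ closure Ω) : SqIn Ω := by
  obtain ⟨z, hz⟩ := hne
  have hline : ∀ q ∈ Ω, ∀ s : ℝ, q + s • a ∈ Ω := by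
    intro q hq s
    rcases le_total 0 s with hs | hs
    · exact rec_mem ho hc hq (fun s _ => hl s) hs
    · have := rec_mem ho hc (a := -a) (p := p) hq
        (fun s _ => by
          have := hl (-s)
          rwa [neg_smul, ← smul_neg] at this) (neg_nonneg.2 hs)
      rwa [smul_neg, neg_smul, neg_neg] at this
  have ha1 : a.1 ≠ 0 := by
    have := ha (0, 1) (by simp)
    simpa using this
  obtain ⟨δ, hδ, hball⟩ := Metric.isOpen_iff.1 ho z hz
  -- everything with |det(a, q - z)| < δ * |a.1| is in Ω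
  have hstrip : ∀ q : ℝ × ℝ, |a.1 * (q.2 - z.2) - a.2 * (q.1 - z.1)| < δ * |a.1| → q ∈ Ω := by
    intro q hq
    set v := (a.1 * (q.2 - z.2) - a.2 * (q.1 - z.1)) / a.1 with hv
    have hvlt : |v| < δ := by
      rw [hv, abs_div, div_lt_iff₀ (abs_pos.2 ha1)]
      exact hq
    have h1 : (z.1, z.2 + v) ∈ Ω := by
      apply hball
      rw [Metric.mem_ball, Prod.dist_eq]
      simp only [dist_self, Real.dist_eq, add_sub_cancel_left]
      exact max_lt hδ hvlt
    have h2 := hline _ h1 ((q.1 - z.1) / a.1)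
    convert h2 using 1
    ext
    · simp only [Prod.fst_add, Prod.smul_fst, smul_eq_mul]
      field_simp
      ring
    · simp only [Prod.snd_add, Prod.smul_snd, smul_eq_mul, hv]
      field_simp
      ring
  obtain ⟨u, w, huw, hu, hw⟩ := exists_small_basis a ha (δ * |a.1| / 14)
    (by have := abs_pos.2 ha1; positivity)
  set d := a.1 * u.2 - a.2 * u.1 with hd
  have hd0 : d ≠ 0 := ha u (by
    rintro rfl
    simp [dt] at huw)
  set e := a.1 * z.2 - a.2 * z.1 with he
  set r := round (e / d) with hr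
  refine ⟨r • u, u, w, huw, fun x y hx hx6 hy hy6 => hstrip _ ?_⟩
  set f := a.1 * w.2 - a.2 * w.1 with hf
  have h1 : a.1 * ((emb (r • u) + x • emb u + y • emb w).2 - z.2) -
      a.2 * ((emb (r • u) + x • emb u + y • emb w).1 - z.1) = (r - e / d) * d + x * d + y * f := by
    rw [sub_mul, div_mul_cancel₀ _ hd0, he, hd, hf]
    simp only [emb, Prod.fst_add, Prod.snd_add, Prod.smul_fst, Prod.smul_snd, smul_eq_mul]
    push_cast
    ring
  rw [h1]
  have h2 : |(r:ℝ) - e / d| ≤ 1 := by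
    have h2 := abs_sub_round (e / d)
    rw [← hr, abs_sub_comm] at h2
    linarith
  have h3 : |((r:ℝ) - e / d) * d + x * d + y * f| ≤ |d| + 6 * |d| + 6 * |f| := by
    refine (abs_add_le _ _).trans (add_le_add ((abs_add_le _ _).trans (add_le_add ?_ ?_)) ?_)
    · rw [abs_mul]
      nlinarith [abs_nonneg d]
    · rw [abs_mul, abs_of_nonneg hx]
      gcongr
    · rw [abs_mul, abs_of_nonneg hy]
      gcongr
  have : 0 < δ * |a.1| := by have := abs_pos.2 ha1; positivity
  linarith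

theorem dual_apply (f : StrongDual ℝ (ℝ × ℝ)) (x : ℝ × ℝ) :
    f x = f (1, 0) * x.1 + f (0, 1) * x.2 := by
  have h : x = x.1 • ((1, 0) : ℝ × ℝ) + x.2 • ((0, 1) : ℝ × ℝ) := by
    ext <;> simp
  conv_lhs => rw [h]
  rw [map_add, map_smul, map_smul, smul_eq_mul, smul_eq_mul]
  ring

/-- PG2: all integral functionals are unbounded above -/
theorem sqIn_of_unbounded {Ω : Set (ℝ × ℝ)} (ho : IsOpen Ω) (hc : Convex ℝ Ω) (hne : Ω.Nonempty)
    (hf : ∀ f : Pt, f ≠ 0 → ¬ BddAbove ((fun x : ℝ × ℝ => (f.1 : ℝ) * x.1 + f.2 * x.2) '' Ω)) :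
    SqIn Ω := by
  obtain ⟨z, hz⟩ := hne
  let B : ℝ × ℝ → Prop := fun f => ∃ M : ℝ, ∀ x ∈ Ω, f.1 * x.1 + f.2 * x.2 ≤ M
  have hB : ∀ f : Pt, f ≠ 0 → ¬ B (emb f) := by
    intro f hf0 ⟨M, hM⟩
    apply hf f hf0
    refine ⟨M, ?_⟩
    rintro _ ⟨x, hx, rfl⟩
    exact hM x hx
  have hadd : ∀ f g : ℝ × ℝ, B f → B g → ∀ s t : ℝ, 0 ≤ s → 0 ≤ t → B (s • f + t • g) := by
    rintro f g ⟨M, hM⟩ ⟨N, hN⟩ s t hs ht
    refine ⟨s * M + t * N, fun x hx => ?_⟩
    have h1 := mul_le_mul_of_nonneg_left (hM x hx) hs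
    have h2 := mul_le_mul_of_nonneg_left (hN x hx) ht
    simp only [Prod.fst_add, Prod.smul_fst, smul_eq_mul, Prod.snd_add, Prod.smul_snd]
    linarith
  have hpar : ∀ f g : ℝ × ℝ, B f → B g → f.1 * g.2 - f.2 * g.1 = 0 := by
    intro f g hBf hBg
    by_contra hne
    obtain ⟨K, hK, hcov⟩ := cone_cover f g hne 1 (by norm_num)
    set c := K • (f + g) with hcdef
    obtain ⟨s, t, hs, ht, hst⟩ := hcov (⌊c.1⌋ - c.1, ⌊c.2⌋ - c.2)
      (by
        have h1 := Int.floor_le c.1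
        have h2 := Int.lt_floor_add_one c.1
        rw [abs_le]; constructor <;> simp only <;> linarith)
      (by
        have h1 := Int.floor_le c.2
        have h2 := Int.lt_floor_add_one c.2
        rw [abs_le]; constructor <;> simp only <;> linarith)
    have h3 : emb (⌊c.1⌋, ⌊c.2⌋) = s • f + t • g := by
      rw [← hst]
      ext
      · simp only [emb, Prod.fst_add]; ring
      · simp only [emb, Prod.snd_add]; ring
    refine hB (⌊c.1⌋, ⌊c.2⌋) ?_ (by rw [h3]; exact hadd _ _ hBf hBg _ _ hs.le ht.le)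
    intro h0
    rw [h0] at h3
    have h4 := congrArg Prod.fst h3
    have h5 := congrArg Prod.snd h3
    simp only [emb, Prod.fst_add, Prod.smul_fst, smul_eq_mul, Prod.snd_add, Prod.smul_snd,
      Prod.fst_zero, Prod.snd_zero, Int.cast_zero] at h4 h5
    have h6 : s * (f.1 * g.2 - f.2 * g.1) = 0 := by linear_combination -g.2 * h4 + g.1 * h5
    rcases mul_eq_zero.1 h6 with h | h
    · exact hs.ne' h
    · exact hne h
  by_cases huniv : Ω = Set.univ
  · exact ⟨0, (1, 0), (0, 1), by simp [dt], by simp [huniv]⟩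
  obtain ⟨y, hy⟩ : ∃ y, y ∉ Ω := by
    by_contra h
    push Not at h
    exact huniv (Set.eq_univ_of_forall h)
  have hsep : ∀ y ∉ Ω, ∃ g : ℝ × ℝ, B g ∧ ∀ x ∈ Ω, g.1 * x.1 + g.2 * x.2 < g.1 * y.1 + g.2 * y.2 := by
    intro y hy
    obtain ⟨φ, hφ⟩ := geometric_hahn_banach_open_point hc ho hy
    have h1 : ∀ x ∈ Ω, φ (1, 0) * x.1 + φ (0, 1) * x.2 < φ (1, 0) * y.1 + φ (0, 1) * y.2 := by
      intro x hx
      rw [← dual_apply, ← dual_apply]
      exact hφ x hx
    exact ⟨(φ (1, 0), φ (0, 1)), ⟨_, fun x hx => (h1 x hx).le⟩, h1⟩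
  obtain ⟨f, hBf, hfy⟩ := hsep y hy
  have hf0 : ¬ (f.1 = 0 ∧ f.2 = 0) := by
    rintro ⟨h1, h2⟩
    have := hfy z hz
    rw [h1, h2] at this
    simp at this
  -- the line through z in the kernel of f
  refine sqIn_of_irrational_line ho hc ⟨z, hz⟩ z (-f.2, f.1) ?_ ?_
  · intro u hu h0
    simp only at h0
    -- f is parallel to u⊥... f.2 * u.2 + f.1 * u.1 = 0, so f = t * (u.2, -u.1)
    have h1 : f.1 * u.1 + f.2 * u.2 = 0 := by linarith
    have hu0 : (0:ℝ) < (u.1:ℝ)^2 + (u.2:ℝ)^2 := by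
      rcases ne_or_eq u.1 0 with h | h
      · have : (0:ℝ) < (u.1:ℝ)^2 := by positivity
        positivity
      · have h2 : u.2 ≠ 0 := by
          intro h3
          exact hu (Prod.ext h h3)
        have : (0:ℝ) < (u.2:ℝ)^2 := by positivity
        positivity
    set t := (f.1 * u.2 - f.2 * u.1) / ((u.1:ℝ)^2 + (u.2:ℝ)^2) with ht
    have hf1 : f.1 = t * u.2 := by
      rw [ht, div_mul_eq_mul_div, eq_div_iff hu0.ne']
      linear_combination u.1 * h1
    have hf2 : f.2 = t * (-u.1) := by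
      rw [ht, div_mul_eq_mul_div, eq_div_iff hu0.ne']
      linear_combination u.2 * h1
    have ht0 : t ≠ 0 := by
      intro h
      rw [h] at hf1 hf2
      exact hf0 ⟨by simpa using hf1, by simpa using hf2⟩
    rcases lt_or_gt_of_ne ht0 with h | h
    · refine hB (-u.2, u.1) ?_ ?_
      · intro h3
        simp only [Prod.mk_eq_zero, neg_eq_zero] at h3
        exact hu (Prod.ext h3.2 h3.1)
      · have h4 := hadd f f hBf hBf (-t⁻¹) 0 (by rw [neg_nonneg]; exact (inv_lt_zero.2 h).le) le_rfl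
        convert h4 using 1
        ext
        · simp only [emb, Prod.fst_add, Prod.smul_fst, smul_eq_mul, hf1]
          push_cast
          field_simp
          ring
        · simp only [emb, Prod.snd_add, Prod.smul_snd, smul_eq_mul, hf2]
          field_simp
          ring
    · refine hB (u.2, -u.1) ?_ ?_
      · intro h3
        simp only [Prod.mk_eq_zero, neg_eq_zero] at h3
        exact hu (Prod.ext h3.2 h3.1)
      · have h4 := hadd f f hBf hBf (t⁻¹) 0 (inv_pos.2 h).le le_rfl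
        convert h4 using 1
        ext
        · simp only [emb, Prod.fst_add, Prod.smul_fst, smul_eq_mul, hf1]
          field_simp
          ring
        · simp only [emb, Prod.snd_add, Prod.smul_snd, smul_eq_mul, hf2]
          push_cast
          field_simp
          ring
  · intro s
    apply subset_closure
    by_contra hnot
    obtain ⟨g, hBg, hg⟩ := hsep _ hnot
    have h1 := hg z hz
    have h2 := hpar f g hBf hBg
    simp only [Prod.fst_add, Prod.smul_fst, smul_eq_mul, Prod.snd_add, Prod.smul_snd] at h1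
    have h3 : s * (f.1 * g.2 - f.2 * g.1) = 0 := by rw [h2, mul_zero]
    linarith

/-- PG4: rows of a convex set whose closure contains the `x`-axis -/
theorem rows_mem {Ω : Set (ℝ × ℝ)} (ho : IsOpen Ω) (hc : Convex ℝ Ω)
    (hl : ∀ s : ℝ, ((s, 0) : ℝ × ℝ) ∈ closure Ω) {x y x' y' : ℝ} (h : (x, y) ∈ Ω)
    (hy' : 0 < y') (hyy : y' ≤ y) : (x', y') ∈ Ω := by
  -- first the case `y' < y`
  have main : ∀ x y : ℝ, (x, y) ∈ Ω → y' < y → (x', y') ∈ Ω := by
    intro x y h hyy
    have hy : 0 < y := hy'.trans hyy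
    set a := y' / y with ha
    have ha0 : 0 < a := by positivity
    have ha1 : a < 1 := (div_lt_one hy).2 hyy
    have h3 := hc.combo_interior_closure_mem_interior (a := a) (b := 1 - a)
      (by rwa [ho.interior_eq]) (hl ((x' - a * x) / (1 - a))) ha0 (by linarith) (by ring)
    rw [ho.interior_eq] at h3
    convert h3 using 1
    have h4 : 1 - a ≠ 0 := by linarith
    ext
    · simp only [Prod.fst_add, Prod.smul_fst, smul_eq_mul]
      rw [mul_div_cancel₀ _ h4]
      ring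
    · simp only [Prod.snd_add, Prod.smul_snd, smul_eq_mul]
      rw [ha, div_mul_cancel₀ _ hy.ne']
      ring
  obtain ⟨δ, hδ, hball⟩ := Metric.isOpen_iff.1 ho _ h
  refine main x (y + δ / 2) (hball ?_) (by linarith)
  rw [Metric.mem_ball, Prod.dist_eq]
  simp only [dist_self, Real.dist_eq, add_sub_cancel_left]
  rw [abs_of_pos (by linarith)]
  exact max_lt hδ (by linarith)

end MP01b126.PG
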