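import Pool.Agent.Lib.MP_01b126_co.St.Corners
import Pool.Agent.Lib.MP_01b126_co.St.PG

/-!
# MP_01b126_co, STRUCTURE: hubs
-/

namespace MP01b126.Lim

open Set Filter Topology

variable {X : Lim}

lemma sign_change {f : ℤ → ℤ} {a b : ℤ} (hab : a < b) (ha : f a ≤ 0) (hb : 0 < f b) :
    ∃ k, a ≤ k ∧ k < b ∧ f k ≤ 0 ∧ 0 < f (k + 1) := by
  by_contra hcon
  push Not at hcon
  have key : ∀ n : ℕ, a + n ≤ b → f (a + n) ≤ 0 := by
    intro n
    induction n with
    | zero => intro _; simpa using ha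
    | succ n ih =>
      intro hn
      push_cast at hn ⊢
      have := hcon (a + n) (by omega) (by omega) (ih (by omega))
      rw [← add_assoc]; exact this
  have := key (b - a).toNat (by omega)
  rw [show a + ((b - a).toNat : ℤ) = b by omega] at this
  omega

lemma seg_mem_closure {p a b : Pt} (hV : X.V p a b) {t : ℝ} (h0 : 0 ≤ t) (h1 : t ≤ 1) :
    emb p + t • emb (a - p) ∈ closure X.Om := by
  apply X.hull_subset_closure_Om hV
  rw [mem_hull_iff]
  refine ⟨t, 0, h0, le_refl _, by linarith, ?_⟩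
  ext <;> simp [emb]

lemma acc {p : Pt} {v : ℕ → Pt} (hinj : Function.Injective v)
    (hseg : ∀ i, ∀ t : ℝ, 0 ≤ t → t ≤ 1 → emb p + t • emb (v i) ∈ closure X.Om) :
    ∃ a : ℝ × ℝ, a ≠ 0 ∧ (∀ s : ℝ, 0 ≤ s → emb p + s • a ∈ closure X.Om) ∧
      ∃ φ : ℕ → ℕ, StrictMono φ ∧
        Tendsto (fun k => ‖emb (v (φ k))‖⁻¹ • emb (v (φ k))) atTop (𝓝 a) ∧
        ∀ k, 0 < ‖emb (v (φ k))‖ := by
  have hnorm : Tendsto (fun i => ‖emb (v i)‖) atTop atTop := by
    rw [tendsto_atTop]
    intro R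
    have hf : {x : Pt | emb x ∈ Metric.closedBall (0 : ℝ × ℝ) R}.Finite :=
      Bad.finite_lattice Metric.isBounded_closedBall
    have hf' : {i : ℕ | v i ∈ {x : Pt | emb x ∈ Metric.closedBall (0 : ℝ × ℝ) R}}.Finite :=
      hf.preimage hinj.injOn
    have := hf'.eventually_cofinite_notMem
    rw [Nat.cofinite_eq_atTop] at this
    filter_upwards [this] with i hi
    simp only [Metric.mem_closedBall, dist_zero_right, not_le] at hi
    exact hi.le
  obtain ⟨N, hN⟩ := eventually_atTop.mp (hnorm.eventually (eventually_gt_atTop 0))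
  have hpos : ∀ i, 0 < ‖emb (v (N + i))‖ := fun i => hN _ (by omega)
  have hsph : ∀ i : ℕ, ‖emb (v (N + i))‖⁻¹ • emb (v (N + i)) ∈ Metric.sphere (0 : ℝ × ℝ) 1 := by
    intro i
    rw [mem_sphere_zero_iff_norm, norm_smul, norm_inv, norm_norm]
    exact inv_mul_cancel₀ (hpos i).ne'
  obtain ⟨a, ha, φ, hφ, hlim⟩ := (isCompact_sphere (0 : ℝ × ℝ) 1).tendsto_subseq hsph
  refine ⟨a, ?_, ?_, fun k => N + φ k, ?_, hlim, fun k => hpos _⟩
  · rintro rfl
    rw [mem_sphere_zero_iff_norm] at ha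
    simp at ha
  · intro s hs
    have hl : Tendsto (fun k => emb p + s • (‖emb (v (N + φ k))‖⁻¹ • emb (v (N + φ k)))) atTop
        (𝓝 (emb p + s • a)) := tendsto_const_nhds.add (hlim.const_smul s)
    refine isClosed_closure.mem_of_tendsto hl ?_
    have hge : ∀ᶠ k in atTop, s ≤ ‖emb (v (N + φ k))‖ := by
      have : Tendsto (fun k => N + φ k) atTop atTop :=
        tendsto_atTop_mono (fun k => Nat.le_add_left _ _) hφ.tendsto_atTop
      exact (hnorm.comp this).eventually_ge_atTop s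
    filter_upwards [hge] with k hk
    rw [smul_smul]
    apply hseg
    · exact mul_nonneg hs (inv_nonneg.mpr (norm_nonneg _))
    · rw [← div_eq_mul_inv, div_le_one (hpos _)]; exact hk
  · intro i j hij
    have := hφ hij
    simp only; omega

lemma continuous_cr (z : ℝ × ℝ) : Continuous (cr z) := by unfold cr; fun_prop

lemma cr_emb (a b : Pt) : cr (emb a) (emb b) = (dt a b : ℤ) := by
  unfold cr dt emb; push_cast; ring

lemma cr_smul (z v : ℝ × ℝ) (t : ℝ) : cr z (t • v) = t * cr z v := by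
  simp only [cr, Prod.smul_fst, Prod.smul_snd, smul_eq_mul]; ring

/-- data extracted from a hub -/
lemma hub_acc {p : Pt} {w : ℤ → Pt} (hV : ∀ i, X.V p (w i) (w (i + 1)))
    (hd : ∀ i j, i < j → 0 < det3 p (w i) (w j)) :
    ∃ a b : ℝ × ℝ, a ≠ 0 ∧ b ≠ 0 ∧ (∀ s : ℝ, 0 ≤ s → emb p + s • a ∈ closure X.Om) ∧
      (∀ s : ℝ, 0 ≤ s → emb p + s • b ∈ closure X.Om) ∧
      (∀ i, 0 ≤ cr (emb (w i - p)) a) ∧ (∀ i, cr (emb (w i - p)) b ≤ 0) ∧
      (∀ z, 0 < cr z a → ∀ N : ℕ, ∃ i : ℕ, N ≤ i ∧ 0 < cr z (emb (w i - p))) ∧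
      (∀ z, cr z b < 0 → ∀ N : ℕ, ∃ i : ℕ, N ≤ i ∧ cr z (emb (w (-(i : ℤ)) - p)) < 0) := by
  have hdt : ∀ i j, i < j → 0 < dt (w i - p) (w j - p) := by
    intro i j hij; exact hd i j hij
  have hinj : ∀ i j : ℤ, w i = w j → i = j := by
    intro i j hij
    by_contra hne
    rcases lt_or_gt_of_ne hne with h | h
    · have := hd i j h
      rw [hij] at this
      have e : det3 p (w j) (w j) = 0 := by unfold det3; ring
      omega
    · have := hd j i h
      rw [hij] at this
      have e : det3 p (w j) (w j) = 0 := by unfold det3; ring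
      omega
  obtain ⟨a, ha0, ha, φ, hφ, hlim, hpos⟩ := acc (X := X) (p := p) (v := fun i : ℕ => w i - p)
    (by
      intro i j hij
      have := hinj i j (sub_left_injective hij)
      exact_mod_cast this)
    (fun i t h0 h1 => seg_mem_closure (hV i) h0 h1)
  obtain ⟨b, hb0, hb, ψ, hψ, hlim', hpos'⟩ := acc (X := X) (p := p)
    (v := fun i : ℕ => w (-(i : ℤ)) - p)
    (by
      intro i j hij
      have := hinj _ _ (sub_left_injective hij)
      have := neg_injective this
      exact_mod_cast this)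
    (fun i t h0 h1 => seg_mem_closure (hV _) h0 h1)
  refine ⟨a, b, ha0, hb0, ha, hb, ?_, ?_, ?_, ?_⟩
  · intro i
    have hl : Tendsto (fun k => cr (emb (w i - p))
        (‖emb (w (φ k) - p)‖⁻¹ • emb (w (φ k) - p))) atTop (𝓝 (cr (emb (w i - p)) a)) :=
      ((continuous_cr _).tendsto a).comp hlim
    refine ge_of_tendsto hl ?_
    filter_upwards [eventually_gt_atTop i.toNat] with k hk
    rw [cr_smul, cr_emb]
    apply mul_nonneg (inv_nonneg.mpr (norm_nonneg _))
    have h1 := hφ.id_le k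
    simp only [id] at h1
    have := hdt i (φ k) (by omega)
    exact_mod_cast this.le
  · intro i
    have hl : Tendsto (fun k => cr (emb (w i - p))
        (‖emb (w (-(ψ k : ℤ)) - p)‖⁻¹ • emb (w (-(ψ k : ℤ)) - p))) atTop
          (𝓝 (cr (emb (w i - p)) b)) :=
      ((continuous_cr _).tendsto b).comp hlim'
    refine le_of_tendsto hl ?_
    filter_upwards [eventually_gt_atTop (-i).toNat] with k hk
    rw [cr_smul, cr_emb]
    apply mul_nonpos_of_nonneg_of_nonpos (inv_nonneg.mpr (norm_nonneg _))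
    have h1 := hψ.id_le k
    simp only [id] at h1
    have := hdt (-(ψ k : ℤ)) i (by omega)
    have e : dt (w i - p) (w (-(ψ k : ℤ)) - p) = -dt (w (-(ψ k : ℤ)) - p) (w i - p) := by
      unfold dt; ring
    rw [e]; push_cast
    have : (0 : ℝ) < (dt (w (-(ψ k : ℤ)) - p) (w i - p) : ℤ) := by exact_mod_cast this
    linarith
  · intro z hz N
    have hl : Tendsto (fun k => cr z
        (‖emb (w (φ k) - p)‖⁻¹ • emb (w (φ k) - p))) atTop (𝓝 (cr z a)) :=
      ((continuous_cr _).tendsto a).comp hlim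
    obtain ⟨k, hk1, hk2⟩ := ((hl.eventually (lt_mem_nhds hz)).and (eventually_ge_atTop N)).exists
    refine ⟨φ k, hk2.trans (hφ.id_le k), ?_⟩
    rw [cr_smul] at hk1
    exact pos_of_mul_pos_right hk1 (inv_nonneg.mpr (norm_nonneg _))
  · intro z hz N
    have hl : Tendsto (fun k => cr z
        (‖emb (w (-(ψ k : ℤ)) - p)‖⁻¹ • emb (w (-(ψ k : ℤ)) - p))) atTop (𝓝 (cr z b)) :=
      ((continuous_cr _).tendsto b).comp hlim'
    obtain ⟨k, hk1, hk2⟩ := ((hl.eventually (gt_mem_nhds hz)).and (eventually_ge_atTop N)).exists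
    refine ⟨ψ k, hk2.trans (hψ.id_le k), ?_⟩
    rw [cr_smul] at hk1
    by_contra hcon
    exact absurd hk1 (not_lt.mpr (mul_nonneg (inv_nonneg.mpr (norm_nonneg _)) (not_lt.mp hcon)))

theorem hub_line {p : Pt} (hH : X.Hub p) : PG.SqIn X.Om ∨
    ∃ a : ℝ × ℝ, a ≠ 0 ∧ ∀ s : ℝ, emb p + s • a ∈ closure X.Om := by
  obtain ⟨w, hV, hd⟩ := hH
  obtain ⟨a, b, ha0, hb0, ha, hb, hca, hcb, -, -⟩ := hub_acc hV hd
  by_cases hab : a.1 * b.2 - a.2 * b.1 = 0
  · right
    obtain ⟨l, hl⟩ : ∃ l : ℝ, b = l • a := by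
      by_cases h : a.1 = 0
      · have h' : a.2 ≠ 0 := by
          intro h'; apply ha0; ext <;> simp [h, h']
        refine ⟨b.2 / a.2, ?_⟩
        ext
        · rw [h] at hab
          have : b.1 = 0 := by
            have : a.2 * b.1 = 0 := by linarith
            exact (mul_eq_zero.mp this).resolve_left h'
          simp [this, h]
        · simp only [Prod.smul_snd, smul_eq_mul]; field_simp
      · refine ⟨b.1 / a.1, ?_⟩
        ext
        · simp only [Prod.smul_fst, smul_eq_mul]; field_simp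
        · simp only [Prod.smul_snd, smul_eq_mul]; field_simp; linarith
    have hl0 : l ≠ 0 := by
      rintro rfl; rw [zero_smul] at hl; exact hb0 hl
    have hlneg : l < 0 := by
      by_contra hcon
      have hlp : 0 < l := lt_of_le_of_ne (not_lt.mp hcon) (Ne.symm hl0)
      have hz : ∀ i, cr (emb (w i - p)) a = 0 := by
        intro i
        have h1 := hca i
        have h2 := hcb i
        rw [hl, cr_smul] at h2
        nlinarith
      have h0 := hz 0
      have h1 := hz 1
      have hdet := X.det (hV 0)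
      rw [zero_add] at hdet
      unfold det3 at hdet
      have hdet' : ((w 0).1 - p.1 : ℝ) * ((w 1).2 - p.2) - ((w 0).2 - p.2) * ((w 1).1 - p.1) = 1 := by
        exact_mod_cast hdet
      apply ha0
      unfold cr emb at h0 h1
      simp only [Prod.fst_sub, Prod.snd_sub] at h0 h1
      push_cast at h0 h1
      ext
      · simp only [Prod.fst_zero]
        linear_combination -a.1 * hdet' + ((w 1).1 - p.1 : ℝ) * h0 - ((w 0).1 - p.1 : ℝ) * h1
      · simp only [Prod.snd_zero]
        linear_combination -a.2 * hdet' + ((w 1).2 - p.2 : ℝ) * h0 - ((w 0).2 - p.2 : ℝ) * h1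
    refine ⟨a, ha0, ?_⟩
    intro s
    rcases le_or_gt 0 s with hs | hs
    · exact ha s hs
    · have := hb (s / l) (div_nonneg_of_nonpos hs.le hlneg.le)
      rw [hl, smul_smul, div_mul_cancel₀ _ hl0] at this
      exact this
  · left
    exact PG.sqIn_of_cone X.isOpen_Om X.convex_Om (emb p) a b hab ha hb

end MP01b126.Lim
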