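import Pool.Agent.Lib.MP_01b126_co.Defs

/-!
# MP_01b126_co, STRUCTURE, part L: abstract limit structures

A limit structure is what one sees from the root in an ultralimit of triangulations: `V a b c` are
the positively oriented visible triangles, `W a b` says that `a b` is a (unit) edge of a wall line
(an edge whose curvature is infinite).
-/

namespace MP01b126

/-- determinant of two vectors -/
def dt (u v : Pt) : ℤ := u.1 * v.2 - u.2 * v.1

/-- the closed triangle with vertices `(0,0)`, `(6,3)`, `(0,3)` in the frame `o, u, w` -/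
def Tri63 (o u w : Pt) : Set (ℝ × ℝ) :=
  {p | ∃ x y : ℝ, 0 ≤ x ∧ x ≤ 2 * y ∧ y ≤ 3 ∧ p = emb o + x • emb u + y • emb w}

/-- Limit structures. -/
structure Lim where
  V : Pt → Pt → Pt → Prop
  W : Pt → Pt → Prop
  det : ∀ {a b c}, V a b c → det3 a b c = 1
  rot : ∀ {a b c}, V a b c → V b c a
  sep : ∀ {a b c a' b' c'}, V a b c → V a' b' c' →
    ({a, b, c} : Finset Pt) ≠ {a', b', c'} → Sep {a, b, c} {a', b', c'}
  /-- every edge of a visible triangle is crossed to another visible triangle or is a wall -/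
  opp : ∀ {a b c}, V a b c → (∃ d, V b a d) ∨ W a b
  /-- a wall is not visible from both sides -/
  opp_not : ∀ {a b c d}, V a b c → V b a d → ¬ W a b
  W_prim : ∀ {a b}, W a b → IsCoprime (b - a).1 (b - a).2
  W_symm : ∀ {a b}, W a b → W b a
  W_next : ∀ {a b}, W a b → W b (b + (b - a))
  /-- no visible triangle crosses a wall line -/
  W_side : ∀ {a b p q r}, W a b → V p q r →
    (0 ≤ det3 a b p ∧ 0 ≤ det3 a b q ∧ 0 ≤ det3 a b r) ∨
    (det3 a b p ≤ 0 ∧ det3 a b q ≤ 0 ∧ det3 a b r ≤ 0)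
  /-- two wall lines do not meet in a lattice point -/
  W_coll : ∀ {a b c}, W a b → W a c → det3 a b c = 0
  /-- every corner is closed, or ends at walls on both sides, or is a bi-infinite hub fan -/
  corner : ∀ {p a b}, V p a b →
    (∃ S : Finset (Pt × Pt), (∀ s ∈ S, V p s.1 s.2) ∧
      ∀ z : Pt, z ≠ 0 → ∃ s ∈ S, 0 ≤ dt (s.1 - p) z ∧ 0 ≤ dt z (s.2 - p)) ∨
    (∃ (n : ℕ) (w : ℕ → Pt), W p (w 0) ∧ W p (w n) ∧ (∀ i < n, V p (w i) (w (i + 1))) ∧
      ∃ i < n, w i = a ∧ w (i + 1) = b) ∨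
    (∃ w : ℤ → Pt, w 0 = a ∧ w 1 = b ∧ (∀ i, V p (w i) (w (i + 1))) ∧
      ∀ i j, i < j → 0 < det3 p (w i) (w j))
  /-- the visible triangles are connected through common edges -/
  conn : ∀ {a b c a' b' c'}, V a b c → V a' b' c' →
    Relation.ReflTransGen (fun s t : Pt × Pt × Pt =>
      V s.1 s.2.1 s.2.2 ∧ V t.1 t.2.1 t.2.2 ∧
        (t = (s.2.1, s.2.2, s.1) ∨ (t.1 = s.2.1 ∧ t.2.1 = s.1))) (a, b, c) (a', b', c')

namespace Lim

variable (X : Lim)

/-- `a b` is an edge of a visible triangle -/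
def VE (a b : Pt) : Prop := ∃ c, X.V a b c ∨ X.V b a c

/-- finitely many visible triangles at `p` cover all directions -/
def ClosedAt (p : Pt) : Prop :=
  ∃ S : Finset (Pt × Pt), (∀ s ∈ S, X.V p s.1 s.2) ∧
    ∀ z : Pt, z ≠ 0 → ∃ s ∈ S, 0 ≤ dt (s.1 - p) z ∧ 0 ≤ dt z (s.2 - p)

/-- outcome 1: an image of the model triangle covered by finitely many visible triangles -/
def HasRoom : Prop :=
  ∃ (o u w : Pt), dt u w = 1 ∧ ∃ F : Finset (Pt × Pt × Pt),
    (∀ t ∈ F, X.V t.1 t.2.1 t.2.2) ∧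
    Tri63 o u w ⊆ ⋃ t ∈ F, hull {t.1, t.2.1, t.2.2}

/-- outcome 2: a bi-infinite arithmetic progression of neighbours of `A`, one of which is `r` -/
def HasFan (r : Pt) : Prop :=
  ∃ A u : Pt, |dt u (r - A)| = 1 ∧ ∀ j : ℤ, X.VE A (r + j • u)

/-- outcome 3: `r` is on the middle row of a strip of width two between two walls -/
def HasStrip (r : Pt) : Prop :=
  ∃ u : Pt, IsCoprime u.1 u.2 ∧ ∀ j : ℤ, X.ClosedAt (r + j • u) ∧
    ∀ w, X.VE (r + j • u) w → dt u (w - (r + j • u)) = 0 ∨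
      (|dt u (w - (r + j • u))| = 1 ∧ X.W w (w + u))

/-- the open region covered locally finitely by visible triangles -/
def Om : Set (ℝ × ℝ) :=
  {x | ∃ F : Finset (Pt × Pt × Pt), (∀ t ∈ F, X.V t.1 t.2.1 t.2.2) ∧
    (⋃ t ∈ F, hull {t.1, t.2.1, t.2.2}) ∈ nhds x}

end Lim

/-- CLASSIFICATION of limit structures (part L, main theorem) -/
def LimClassify : Prop :=
  ∀ (X : Lim) (r : Pt), X.ClosedAt r → X.HasRoom ∨ X.HasFan r ∨ X.HasStrip r

end MP01b126
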