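import Pool.Agent.Lib.MP_01b126_co.St.PG

/-! MP_01b126_co, STRUCTURE, piece PG2: an open convex set contains a large unimodular
parallelogram or lies in a rational strip. -/

namespace MP01b126.PG

/-- a lattice point far forward in the strip around an irrational ray -/
theorem exists_forward (a z : ℝ × ℝ) (ha : ∀ u : Pt, u ≠ 0 → a.1 * u.2 - a.2 * u.1 ≠ 0)
    (η L : ℝ) (hη : 0 < η) : ∃ o : Pt, |a.1 * (o.2 - z.2) - a.2 * (o.1 - z.1)| < η ∧
      L ≤ (o.1 - z.1) / a.1 := by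
  have ha1 : a.1 ≠ 0 := by
    have := ha (0, 1) (by simp)
    simpa using this
  have ha1' : 0 < |a.1| := abs_pos.2 ha1
  obtain ⟨u, w, huw, hu, -⟩ := exists_small_basis a ha (η/2) (by positivity)
  set d := a.1 * u.2 - a.2 * u.1 with hd
  have hd0 : d ≠ 0 := ha u (by
    rintro rfl
    simp [dt] at huw)
  set e := a.1 * z.2 - a.2 * z.1 with he
  set r := round (e / d) with hr
  -- first approximation
  have h2 : |(r:ℝ) - e / d| ≤ 1 := by
    have h2 := abs_sub_round (e / d)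
    rw [← hr, abs_sub_comm] at h2
    linarith
  have h3 : |a.1 * (((r • u : Pt).2 : ℝ) - z.2) - a.2 * (((r • u : Pt).1 : ℝ) - z.1)| < η / 2 := by
    have h4 : a.1 * (((r • u : Pt).2 : ℝ) - z.2) - a.2 * (((r • u : Pt).1 : ℝ) - z.1)
        = (r - e / d) * d := by
      rw [sub_mul, div_mul_cancel₀ _ hd0, he, hd]
      simp only [Prod.smul_fst, Prod.smul_snd, smul_eq_mul]
      push_cast
      ring
    rw [h4, abs_mul]
    nlinarith [abs_nonneg d]
  set o0 : Pt := r • u with ho0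
  -- number of steps
  obtain ⟨N, hN⟩ := exists_nat_gt ((L - (o0.1 - z.1) / a.1) * |a.1|)
  obtain ⟨v, w', hvw, hv, -⟩ := exists_small_basis a ha (min (η/(2*(N+1))) |a.1|)
    (by positivity)
  have hv1 : v.1 ≠ 0 := by
    intro h
    have hv2 : v.2 ≠ 0 := by
      intro h'
      simp [dt, h, h'] at hvw
    have h5 : |a.1 * v.2 - a.2 * v.1| < |a.1| := hv.trans_le (min_le_right _ _)
    rw [h, Int.cast_zero, mul_zero, sub_zero, abs_mul] at h5
    have h6 : (1:ℝ) ≤ |(v.2:ℝ)| := by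
      rw [← Int.cast_abs]
      exact_mod_cast Int.one_le_abs hv2
    nlinarith
  -- sign
  obtain ⟨σ, hσ, hσv⟩ : ∃ σ : ℤ, |σ| = 1 ∧ 1 / |a.1| ≤ (σ * v.1 : ℝ) / a.1 := by
    rcases lt_or_gt_of_ne (show (v.1:ℝ) / a.1 ≠ 0 from div_ne_zero (by exact_mod_cast hv1) ha1)
      with h | h
    · refine ⟨-1, by simp, ?_⟩
      have : ((-1 : ℤ) * v.1 : ℝ) / a.1 = |(v.1:ℝ)| / |a.1| := by
        rw [← abs_div, abs_of_neg h]; push_cast; ring
      rw [this]
      gcongr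
      rw [← Int.cast_abs]
      exact_mod_cast Int.one_le_abs hv1
    · refine ⟨1, by simp, ?_⟩
      have : ((1 : ℤ) * v.1 : ℝ) / a.1 = |(v.1:ℝ)| / |a.1| := by
        rw [← abs_div, abs_of_pos h]; push_cast; ring
      rw [this]
      gcongr
      rw [← Int.cast_abs]
      exact_mod_cast Int.one_le_abs hv1
  refine ⟨o0 + (N * σ) • v, ?_, ?_⟩
  · have h4 : a.1 * (((o0 + (N * σ) • v : Pt).2 : ℝ) - z.2)
        - a.2 * (((o0 + (N * σ) • v : Pt).1 : ℝ) - z.1)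
        = (a.1 * ((o0.2:ℝ) - z.2) - a.2 * ((o0.1:ℝ) - z.1))
          + N * σ * (a.1 * v.2 - a.2 * v.1) := by
      simp only [Prod.fst_add, Prod.snd_add, Prod.smul_fst, Prod.smul_snd, smul_eq_mul]
      push_cast
      ring
    rw [h4]
    have h5 : |(N:ℝ) * σ * (a.1 * v.2 - a.2 * v.1)| ≤ η/2 := by
      rw [abs_mul, abs_mul, Nat.abs_cast, ← Int.cast_abs, hσ, Int.cast_one, mul_one]
      have h6 : |a.1 * v.2 - a.2 * v.1| < η/(2*(N+1)) := hv.trans_le (min_le_left _ _)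
      have h7 : (N:ℝ) * |a.1 * v.2 - a.2 * v.1| ≤ N * (η/(2*(N+1))) := by gcongr
      have h8 : (N:ℝ) * (η/(2*(N+1))) ≤ η/2 := by
        rw [mul_div_assoc', div_le_div_iff₀ (by positivity) (by positivity)]
        nlinarith
      linarith
    calc _ ≤ _ := abs_add_le _ _
      _ < η/2 + η/2 := by linarith
      _ = η := by ring
  · have h4 : (((o0 + (N * σ) • v : Pt).1 : ℝ) - z.1) / a.1 =
        (o0.1 - z.1) / a.1 + N * ((σ * v.1) / a.1) := by
      simp only [Prod.fst_add, Prod.smul_fst, smul_eq_mul]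
      push_cast
      ring
    rw [h4]
    have h5 : (N:ℝ) * (1 / |a.1|) ≤ N * ((σ * v.1) / a.1) := by gcongr
    have h6 : (L - (o0.1 - z.1) / a.1) ≤ N * (1 / |a.1|) := by
      rw [mul_one_div, le_div_iff₀ ha1']
      exact hN.le
    linarith

/-- irrational recession direction -/
theorem sqIn_of_irrational_ray {Ω : Set (ℝ × ℝ)} (ho : IsOpen Ω) (hne : Ω.Nonempty) (a : ℝ × ℝ)
    (ha : ∀ u : Pt, u ≠ 0 → a.1 * u.2 - a.2 * u.1 ≠ 0)
    (hrec : ∀ z ∈ Ω, ∀ s : ℝ, 0 ≤ s → z + s • a ∈ Ω) : SqIn Ω := by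
  obtain ⟨z, hz⟩ := hne
  have ha1 : a.1 ≠ 0 := by
    have := ha (0, 1) (by simp)
    simpa using this
  have ha1' : 0 < |a.1| := abs_pos.2 ha1
  obtain ⟨δ, hδ, hball⟩ := Metric.isOpen_iff.1 ho z hz
  have hstrip : ∀ q : ℝ × ℝ, |a.1 * (q.2 - z.2) - a.2 * (q.1 - z.1)| < δ * |a.1| →
      0 ≤ (q.1 - z.1) / a.1 → q ∈ Ω := by
    intro q hq hq0
    set v := (a.1 * (q.2 - z.2) - a.2 * (q.1 - z.1)) / a.1 with hv
    have hvlt : |v| < δ := by
      rw [hv, abs_div, div_lt_iff₀ (abs_pos.2 ha1)]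
      exact hq
    have h1 : (z.1, z.2 + v) ∈ Ω := by
      apply hball
      rw [Metric.mem_ball, Prod.dist_eq]
      simp only [dist_self, Real.dist_eq, add_sub_cancel_left]
      exact max_lt hδ hvlt
    have h2 := hrec _ h1 ((q.1 - z.1) / a.1) hq0
    convert h2 using 1
    ext
    · simp only [Prod.fst_add, Prod.smul_fst, smul_eq_mul]
      field_simp
      ring
    · simp only [Prod.snd_add, Prod.smul_snd, smul_eq_mul, hv]
      field_simp
      ring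
  obtain ⟨u, w, huw, hu, hw⟩ := exists_small_basis a ha (δ * |a.1| / 24) (by positivity)
  obtain ⟨o, ho1, ho2⟩ := exists_forward a z ha (δ * |a.1| / 2)
    (6 * |(u.1:ℝ) / a.1| + 6 * |(w.1:ℝ) / a.1|) (by positivity)
  refine ⟨o, u, w, huw, fun x y hx hx6 hy hy6 => hstrip _ ?_ ?_⟩
  · have h1 : a.1 * ((emb o + x • emb u + y • emb w).2 - z.2) -
        a.2 * ((emb o + x • emb u + y • emb w).1 - z.1) =
        (a.1 * (o.2 - z.2) - a.2 * (o.1 - z.1)) + x * (a.1 * u.2 - a.2 * u.1)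
          + y * (a.1 * w.2 - a.2 * w.1) := by
      simp only [emb, Prod.fst_add, Prod.snd_add, Prod.smul_fst, Prod.smul_snd, smul_eq_mul]
      ring
    rw [h1]
    have h3 : |(a.1 * (o.2 - z.2) - a.2 * (o.1 - z.1)) + x * (a.1 * u.2 - a.2 * u.1)
          + y * (a.1 * w.2 - a.2 * w.1)| ≤ |a.1 * (o.2 - z.2) - a.2 * (o.1 - z.1)|
          + 6 * |a.1 * u.2 - a.2 * u.1| + 6 * |a.1 * w.2 - a.2 * w.1| := by
      refine (abs_add_le _ _).trans (add_le_add ((abs_add_le _ _).trans (add_le_add le_rfl ?_)) ?_)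
      · rw [abs_mul, abs_of_nonneg hx]
        gcongr
      · rw [abs_mul, abs_of_nonneg hy]
        gcongr
    have : 0 < δ * |a.1| := by positivity
    linarith
  · have h1 : ((emb o + x • emb u + y • emb w).1 - z.1) / a.1 =
        (o.1 - z.1) / a.1 + x * (u.1 / a.1) + y * (w.1 / a.1) := by
      simp only [emb, Prod.fst_add, Prod.smul_fst, smul_eq_mul]
      ring
    rw [h1]
    have h2 : -(6 * |(u.1:ℝ) / a.1|) ≤ x * (u.1 / a.1) := by
      have h3 : |x * ((u.1:ℝ) / a.1)| ≤ 6 * |(u.1:ℝ) / a.1| := by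
        rw [abs_mul, abs_of_nonneg hx]; gcongr
      exact (neg_le_neg h3).trans (neg_abs_le _)
    have h4 : -(6 * |(w.1:ℝ) / a.1|) ≤ y * (w.1 / a.1) := by
      have h3 : |y * ((w.1:ℝ) / a.1)| ≤ 6 * |(w.1:ℝ) / a.1| := by
        rw [abs_mul, abs_of_nonneg hy]; gcongr
      exact (neg_le_neg h3).trans (neg_abs_le _)
    linarith

/-- coordinates with respect to a unimodular basis -/
theorem coord_eq {u w : Pt} (h : dt u w = 1) (x : ℝ × ℝ) :
    x = (x.1 * w.2 - x.2 * w.1) • emb u + ((u.1:ℝ) * x.2 - u.2 * x.1) • emb w := by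
  have h' : (u.1:ℝ) * w.2 - u.2 * w.1 = 1 := by
    have := congrArg (Int.cast : ℤ → ℝ) h
    simpa [dt] using this
  ext
  · simp only [emb, Prod.fst_add, Prod.smul_fst, smul_eq_mul]
    linear_combination (-x.1) * h'
  · simp only [emb, Prod.snd_add, Prod.smul_snd, smul_eq_mul]
    linear_combination (-x.2) * h'

/-- an open convex set contains a large unimodular parallelogram or lies in a rational strip -/
theorem sqIn_or_strip {Ω : Set (ℝ × ℝ)} (ho : IsOpen Ω) (hc : Convex ℝ Ω) (hne : Ω.Nonempty) :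
    SqIn Ω ∨ ∃ u w : Pt, dt u w = 1 ∧ ∃ M : ℝ, ∀ x ∈ Ω, |(u.1:ℝ) * x.2 - u.2 * x.1| ≤ M := by
  by_cases hb : Bornology.IsBounded Ω
  · right
    obtain ⟨M, hM⟩ := hb.exists_norm_le
    refine ⟨(1, 0), (0, 1), by simp [dt], M, fun x hx => ?_⟩
    have h1 := hM x hx
    rw [Prod.norm_def] at h1
    have h2 := (le_max_right ‖x.1‖ ‖x.2‖).trans h1
    rw [Real.norm_eq_abs] at h2
    simpa using h2
  rw [not_bounded_iff_exists_ne_zero_mem_asymptoticCone] at hb
  obtain ⟨v, hv0, hv⟩ := hb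
  have hrec : ∀ z ∈ Ω, ∀ s : ℝ, 0 ≤ s → z + s • v ∈ Ω := by
    intro z hz s hs
    have := hc.smul_vadd_mem_of_mem_nhds_of_mem_asymptoticCone hs (ho.mem_nhds hz) hv
    rwa [vadd_eq_add, add_comm] at this
  by_cases hirr : ∀ u : Pt, u ≠ 0 → v.1 * u.2 - v.2 * u.1 ≠ 0
  · exact Or.inl (sqIn_of_irrational_ray ho hne v hirr hrec)
  push Not at hirr
  obtain ⟨u0, hu0, hvu0⟩ := hirr
  -- primitive vector parallel to `v`
  obtain ⟨u, hucop, hvu⟩ : ∃ u : Pt, IsCoprime u.1 u.2 ∧ v.1 * u.2 - v.2 * u.1 = 0 := by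
    have hgpos : 0 < Int.gcd u0.1 u0.2 := by
      rw [Nat.pos_iff_ne_zero]
      intro h
      rw [Int.gcd_eq_zero_iff] at h
      exact hu0 (Prod.ext h.1 h.2)
    refine ⟨(u0.1 / Int.gcd u0.1 u0.2, u0.2 / Int.gcd u0.1 u0.2), ?_, ?_⟩
    · rw [Int.isCoprime_iff_gcd_eq_one]
      exact Int.gcd_div_gcd_div_gcd hgpos
    · have e1 := (Int.mul_ediv_cancel' (Int.gcd_dvd_left u0.1 u0.2)).symm
      have e2 := (Int.mul_ediv_cancel' (Int.gcd_dvd_right u0.1 u0.2)).symm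
      have e1' := congrArg (Int.cast : ℤ → ℝ) e1
      have e2' := congrArg (Int.cast : ℤ → ℝ) e2
      rw [Int.cast_mul] at e1' e2'
      rw [e1', e2'] at hvu0
      have hg : ((Int.gcd u0.1 u0.2 : ℤ) : ℝ) ≠ 0 := by exact_mod_cast hgpos.ne'
      have h3 : ((Int.gcd u0.1 u0.2 : ℤ) : ℝ) * (v.1 * ((u0.2 / Int.gcd u0.1 u0.2 : ℤ) : ℝ)
          - v.2 * ((u0.1 / Int.gcd u0.1 u0.2 : ℤ) : ℝ)) = 0 := by
        rw [← hvu0]; ring
      exact (mul_eq_zero.1 h3).resolve_left hg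
  -- orientation
  obtain ⟨u, hucop, t, ht, htv⟩ : ∃ u : Pt, IsCoprime u.1 u.2 ∧ ∃ t : ℝ, 0 < t ∧
      v = t • emb u := by
    obtain ⟨x, y, hxy⟩ := hucop
    have hxy' : (x:ℝ) * u.1 + y * u.2 = 1 := by exact_mod_cast hxy
    set t := (x:ℝ) * v.1 + y * v.2 with ht
    have hv1 : v = t • emb u := by
      ext
      · simp only [emb, Prod.smul_fst, smul_eq_mul, ht]
        linear_combination (-v.1) * hxy' + (y:ℝ) * hvu
      · simp only [emb, Prod.smul_snd, smul_eq_mul, ht]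
        linear_combination (-v.2) * hxy' - (x:ℝ) * hvu
    have ht0 : t ≠ 0 := by
      intro h
      rw [h, zero_smul] at hv1
      exact hv0 hv1
    rcases lt_or_gt_of_ne ht0 with h | h
    · refine ⟨-u, ⟨-x, -y, by simpa using hxy⟩, -t, by linarith, ?_⟩
      rw [hv1]
      ext <;> simp [emb]
    · exact ⟨u, ⟨x, y, hxy⟩, t, h, hv1⟩
  have hrec' : ∀ z ∈ Ω, ∀ s : ℝ, 0 ≤ s → z + s • emb u ∈ Ω := by
    intro z hz s hs
    have := hrec z hz (s / t) (by positivity)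
    rwa [htv, smul_smul, div_mul_cancel₀ _ ht.ne'] at this
  obtain ⟨w, huw⟩ : ∃ w : Pt, dt u w = 1 := by
    obtain ⟨x, y, hxy⟩ := hucop
    exact ⟨(-y, x), by simp only [dt]; linarith⟩
  by_cases hM : ∃ M : ℝ, ∀ x ∈ Ω, |(u.1:ℝ) * x.2 - u.2 * x.1| ≤ M
  · exact Or.inr ⟨u, w, huw, hM⟩
  left
  push Not at hM
  obtain ⟨z, hz⟩ := hne
  obtain ⟨q, hq, hqM⟩ := hM (9 + |(u.1:ℝ) * z.2 - u.2 * z.1|)
  -- two points of very different height
  obtain ⟨p, q, hp, hq, hpq⟩ : ∃ p q, p ∈ Ω ∧ q ∈ Ω ∧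
      (u.1:ℝ) * p.2 - u.2 * p.1 + 9 < (u.1:ℝ) * q.2 - u.2 * q.1 := by
    have hz1 := le_abs_self ((u.1:ℝ) * z.2 - u.2 * z.1)
    have hz2 := neg_abs_le ((u.1:ℝ) * z.2 - u.2 * z.1)
    rcases lt_abs.1 hqM with h | h
    · exact ⟨z, q, hz, hq, by linarith⟩
    · exact ⟨q, z, hq, hz, by linarith⟩
  set yp := (u.1:ℝ) * p.2 - u.2 * p.1 with hyp
  set yq := (u.1:ℝ) * q.2 - u.2 * q.1 with hyq
  set xp := p.1 * w.2 - p.2 * w.1 with hxp
  set xq := q.1 * w.2 - q.2 * w.1 with hxq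
  have hmem : ∀ X Y : ℝ, max xp xq ≤ X → yp ≤ Y → Y ≤ yq → X • emb u + Y • emb w ∈ Ω := by
    intro X Y hX hY1 hY2
    have hD : 0 < yq - yp := by linarith
    set τ := (Y - yp) / (yq - yp) with hτ
    have hτ0 : 0 ≤ τ := div_nonneg (by linarith) hD.le
    have hτ1 : τ ≤ 1 := (div_le_one hD).2 (by linarith)
    have h1 : (1 - τ) • p + τ • q ∈ Ω := hc hp hq (by linarith) hτ0 (by ring)
    have h2 := hrec' _ h1 (X - ((1 - τ) * xp + τ * xq)) (by
      have := le_max_left xp xq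
      have := le_max_right xp xq
      nlinarith)
    convert h2 using 1
    conv_rhs => rw [coord_eq huw p, coord_eq huw q, ← hyp, ← hyq, ← hxp, ← hxq]
    have hY : Y = (1 - τ) * yp + τ * yq := by
      have : τ * (yq - yp) = Y - yp := div_mul_cancel₀ _ hD.ne'
      linarith
    ext
    · simp only [emb, Prod.fst_add, Prod.smul_fst, smul_eq_mul]
      rw [hY]; ring
    · simp only [emb, Prod.snd_add, Prod.smul_snd, smul_eq_mul]
      rw [hY]; ring
  refine ⟨⌈max xp xq⌉ • u + ⌈yp⌉ • w, u, w, huw, fun x y hx hx6 hy hy6 => ?_⟩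
  have h3 := hmem (⌈max xp xq⌉ + x) (⌈yp⌉ + y) (by
    have := Int.le_ceil (max xp xq)
    linarith) (by
    have := Int.le_ceil yp
    linarith) (by
    have := Int.ceil_lt_add_one yp
    linarith)
  convert h3 using 1
  ext
  · simp only [emb, Prod.fst_add, Prod.smul_fst, smul_eq_mul]
    push_cast
    ring
  · simp only [emb, Prod.snd_add, Prod.smul_snd, smul_eq_mul]
    push_cast
    ring

end MP01b126.PG
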