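import Pool.Agent.Lib.MP_01b126_co.St.LimDefs
import Pool.Agent.Lib.MP_01b126_co.Face

/-! MP_01b126_co, STRUCTURE, piece RG: the region `Om` of a limit structure. -/

namespace MP01b126.Lim

open Filter Topology

variable (X : Lim)

/-! ### Preliminaries -/

lemma isUni_of_V {a b c : Pt} (h : X.V a b c) : IsUni {a, b, c} :=
  ⟨a, b, c, rfl, by rw [X.det h]; simp⟩

lemma V_rot2 {a b c : Pt} (h : X.V a b c) : X.V c a b := X.rot (X.rot h)

/-- the interior of a closed half plane -/
lemma detR_pos_of_interior {a b : Pt} (hab : a ≠ b) {S : Set (ℝ × ℝ)}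
    (hS : ∀ x ∈ S, 0 ≤ detR a b x) {x : ℝ × ℝ} (hx : x ∈ interior S) : 0 < detR a b x := by
  set v : ℝ × ℝ := ((b.2 : ℝ) - a.2, -((b.1 : ℝ) - a.1)) with hv
  obtain ⟨ε, hε, h2⟩ := exists_eps hx v
  have h3 := hS _ (interior_subset h2)
  rw [detR_add_smul] at h3
  have h4 : ((b.1 : ℝ) - a.1) * v.2 - ((b.2 : ℝ) - a.2) * v.1 =
      -(((b.1 : ℝ) - a.1) ^ 2 + ((b.2 : ℝ) - a.2) ^ 2) := by
    simp only [hv]; ring
  rw [h4] at h3
  have h5 : 0 < ((b.1 : ℝ) - a.1) ^ 2 + ((b.2 : ℝ) - a.2) ^ 2 := by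
    by_contra hc
    apply hab
    have e1 := sq_nonneg ((b.1 : ℝ) - a.1)
    have e2 := sq_nonneg ((b.2 : ℝ) - a.2)
    have e3 : ((b.1 : ℝ) - a.1) ^ 2 = 0 := by linarith
    have e4 : ((b.2 : ℝ) - a.2) ^ 2 = 0 := by linarith
    have e5 : (b.1 : ℝ) - a.1 = 0 := by simpa using e3
    have e6 : (b.2 : ℝ) - a.2 = 0 := by simpa using e4
    have e7 : (a.1 : ℝ) = b.1 := by linarith
    have e8 : (a.2 : ℝ) = b.2 := by linarith
    ext
    · exact_mod_cast e7
    · exact_mod_cast e8
  nlinarith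

lemma detR_neg_of_interior {a b : Pt} (hab : a ≠ b) {S : Set (ℝ × ℝ)}
    (hS : ∀ x ∈ S, detR a b x ≤ 0) {x : ℝ × ℝ} (hx : x ∈ interior S) : detR a b x < 0 := by
  have := detR_pos_of_interior (a := b) (b := a) hab.symm (S := S)
    (fun y hy => by rw [detR_swap]; linarith [hS y hy]) hx
  rw [detR_swap] at this
  linarith

lemma hull_nonneg {a b : Pt} {t : Finset Pt} (h : ∀ p ∈ t, 0 ≤ det3 a b p) {x : ℝ × ℝ}
    (hx : x ∈ hull t) : 0 ≤ detR a b x := by
  have : hull t ⊆ {x | 0 ≤ detR a b x} := hull_subset (convex_detR_nonneg a b) (by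
    intro p hp
    show 0 ≤ detR a b (emb p)
    rw [detR_emb]; exact_mod_cast h p hp)
  exact this hx

lemma hull_nonpos {a b : Pt} {t : Finset Pt} (h : ∀ p ∈ t, det3 a b p ≤ 0) {x : ℝ × ℝ}
    (hx : x ∈ hull t) : detR a b x ≤ 0 := by
  have : hull t ⊆ {x | detR a b x ≤ 0} := hull_subset (convex_detR_nonpos a b) (by
    intro p hp
    show detR a b (emb p) ≤ 0
    rw [detR_emb]; exact_mod_cast h p hp)
  exact this hx

/-- separated triangles: the interior of the first does not meet the second -/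
lemma sep_disj {t t' : Finset Pt} (h : Sep t t') {x : ℝ × ℝ} (hx : x ∈ interior (hull t))
    (hx' : x ∈ hull t') : False := by
  rcases h with ⟨a, _, b, _, hab, h1, h2⟩ | ⟨a, _, b, _, hab, h1, h2⟩
  · have e1 := detR_pos_of_interior hab (S := hull t) (fun y hy => hull_nonneg h1 hy) hx
    have e2 := hull_nonpos h2 hx'
    linarith
  · have e1 := detR_neg_of_interior hab (S := hull t) (fun y hy => hull_nonpos h2 hy) hx
    have e2 := hull_nonneg h1 hx'
    linarith

/-- a visible triangle meeting an open set covered by finitely many visible triangles is one of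
them -/
lemma mem_of_meets {F : Finset (Pt × Pt × Pt)} (hF : ∀ t ∈ F, X.V t.1 t.2.1 t.2.2)
    {O : Set (ℝ × ℝ)} (hO : IsOpen O) (hOF : O ⊆ ⋃ t ∈ F, hull {t.1, t.2.1, t.2.2})
    {a b c : Pt} (h : X.V a b c) {y : ℝ × ℝ} (hy : y ∈ hull {a, b, c}) (hyO : y ∈ O) :
    ∃ t ∈ F, ({a, b, c} : Finset Pt) = {t.1, t.2.1, t.2.2} := by
  by_contra hc
  push Not at hc
  have h1 : y ∈ closure (interior (hull {a, b, c})) := closure_interior_hull (X.isUni_of_V h) hy
  rw [mem_closure_iff] at h1
  obtain ⟨z, hzO, hz⟩ := h1 O hO hyO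
  obtain ⟨t, ht, hzt⟩ := Set.mem_iUnion₂.mp (hOF hzO)
  exact sep_disj (X.sep h (hF t ht) (hc t ht)) hz hzt

/-! ### The region -/

theorem isOpen_Om : IsOpen X.Om := by
  rw [isOpen_iff_mem_nhds]
  rintro x ⟨F, hF, hx⟩
  have h1 : interior (⋃ t ∈ F, hull {t.1, t.2.1, t.2.2}) ∈ 𝓝 x := interior_mem_nhds.mpr hx
  filter_upwards [h1] with y hy
  exact ⟨F, hF, mem_interior_iff_mem_nhds.mp hy⟩

theorem interior_subset_Om {a b c : Pt} (h : X.V a b c) : interior (hull {a, b, c}) ⊆ X.Om := by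
  intro x hx
  refine ⟨{(a, b, c)}, ?_, ?_⟩
  · intro t ht
    rw [Finset.mem_singleton] at ht
    subst ht; exact h
  · simp only [Finset.mem_singleton, Set.iUnion_iUnion_eq_left]
    exact mem_interior_iff_mem_nhds.mp hx

theorem hull_subset_closure_Om {a b c : Pt} (h : X.V a b c) : hull {a, b, c} ⊆ closure X.Om :=
  (closure_interior_hull (X.isUni_of_V h)).trans (closure_mono (X.interior_subset_Om h))

/-- the hull in coordinates -/
theorem mem_hull_iff {a b c : Pt} (x : ℝ × ℝ) : x ∈ hull {a, b, c} ↔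
    ∃ s t : ℝ, 0 ≤ s ∧ 0 ≤ t ∧ s + t ≤ 1 ∧ x = emb a + s • (emb b - emb a) + t • (emb c - emb a) := by
  constructor
  · intro hx
    set S : Set (ℝ × ℝ) := {x | ∃ s t : ℝ, 0 ≤ s ∧ 0 ≤ t ∧ s + t ≤ 1 ∧
      x = emb a + s • (emb b - emb a) + t • (emb c - emb a)} with hS
    have hc : Convex ℝ S := by
      rintro x ⟨s, t, h1, h2, h3, rfl⟩ y ⟨s', t', h1', h2', h3', rfl⟩ α β hα hβ hαβ
      refine ⟨α * s + β * s', α * t + β * t', by positivity, by positivity, by nlinarith, ?_⟩
      have hβ' : β = 1 - α := by linarith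
      subst hβ'
      ext
      · simp only [Prod.fst_add, Prod.smul_fst, Prod.fst_sub, smul_eq_mul]; ring
      · simp only [Prod.snd_add, Prod.smul_snd, Prod.snd_sub, smul_eq_mul]; ring
    have : hull {a, b, c} ⊆ S := hull_subset hc (by
      intro p hp
      simp only [Finset.mem_insert, Finset.mem_singleton] at hp
      rcases hp with rfl | rfl | rfl
      · exact ⟨0, 0, le_refl _, le_refl _, by norm_num, by simp⟩
      · exact ⟨1, 0, by norm_num, le_refl _, by norm_num, by simp⟩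
      · exact ⟨0, 1, le_refl _, by norm_num, by norm_num, by simp⟩)
    exact this hx
  · rintro ⟨s, t, h1, h2, h3, rfl⟩
    have hc := convex_hull ({a, b, c} : Finset Pt)
    have ha : emb a ∈ hull {a, b, c} := emb_mem_hull (by simp)
    have hb : emb b ∈ hull {a, b, c} := emb_mem_hull (by simp)
    have hcm : emb c ∈ hull {a, b, c} := emb_mem_hull (by simp)
    have key := hc.sum_mem (t := (Finset.univ : Finset (Fin 3)))
      (w := ![1 - s - t, s, t]) (z := ![emb a, emb b, emb c])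
      (by intro i _; fin_cases i <;> simp <;> linarith)
      (by simp only [Fin.sum_univ_three, Matrix.cons_val_zero, Matrix.cons_val_one, Matrix.cons_val_two,
            Matrix.tail_cons, Matrix.head_cons]; ring)
      (by intro i _; fin_cases i <;> simp <;> assumption)
    have e : ∑ i : Fin 3, (![1 - s - t, s, t] : Fin 3 → ℝ) i • (![emb a, emb b, emb c] : Fin 3 → ℝ × ℝ) i
        = emb a + s • (emb b - emb a) + t • (emb c - emb a) := by
      simp only [Fin.sum_univ_three, Matrix.cons_val_zero, Matrix.cons_val_one, Matrix.cons_val_two,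
            Matrix.tail_cons, Matrix.head_cons]
      ext
      · simp only [Prod.fst_add, Prod.smul_fst, Prod.fst_sub, smul_eq_mul]; ring
      · simp only [Prod.snd_add, Prod.smul_snd, Prod.snd_sub, smul_eq_mul]; ring
    rw [e] at key
    exact key

/-- a point of a triangle on the side line `a b` -/
lemma on_side {a b c : Pt} (h : det3 a b c = 1) {x : ℝ × ℝ} (hx : x ∈ hull {a, b, c})
    (h0 : detR a b x = 0) : x = emb a ∨ x = emb b ∨
      ∃ s : ℝ, 0 < s ∧ s < 1 ∧ x = emb a + s • (emb b - emb a) := by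
  obtain ⟨h1, h2, h3⟩ := (MP01b126.mem_hull_iff (by omega) x).mp hx
  have hs := detR_sum a b c x
  have hb := bary a b c x
  rw [h] at hs hb
  simp only [Int.cast_one, one_smul] at hs hb
  set s := detR c a x with hsdef
  have e1 : detR b c x = 1 - s := by linarith
  rw [e1, h0] at hb
  have hx' : x = emb a + s • (emb b - emb a) := by
    rw [hb]
    ext
    · simp only [Prod.fst_add, Prod.smul_fst, Prod.fst_sub, smul_eq_mul]; ring
    · simp only [Prod.snd_add, Prod.smul_snd, Prod.snd_sub, smul_eq_mul]; ring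
  rcases eq_or_lt_of_le h3 with h4 | h4
  · left; rw [hx', ← h4]; simp
  · rcases eq_or_lt_of_le (show s ≤ 1 by linarith) with h5 | h5
    · right; left; rw [hx', h5]; simp
    · right; right; exact ⟨s, h4, h5, hx'⟩

/-- a non-lattice point of a visible triangle which is not in its interior lies in the relative
interior of one of its edges -/
theorem mem_hull_cases {a b c : Pt} (h : X.V a b c) {x : ℝ × ℝ} (hx : x ∈ hull {a, b, c}) :
    x ∈ interior (hull {a, b, c}) ∨ x = emb a ∨ x = emb b ∨ x = emb c ∨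
    (∃ s : ℝ, 0 < s ∧ s < 1 ∧ x = emb a + s • (emb b - emb a)) ∨
    (∃ s : ℝ, 0 < s ∧ s < 1 ∧ x = emb b + s • (emb c - emb b)) ∨
    (∃ s : ℝ, 0 < s ∧ s < 1 ∧ x = emb c + s • (emb a - emb c)) := by
  have hd := X.det h
  obtain ⟨h1, h2, h3⟩ := (MP01b126.mem_hull_iff (by omega) x).mp hx
  rcases eq_or_lt_of_le h1 with e1 | e1
  · rcases on_side hd hx e1.symm with h | h | h
    · exact Or.inr (Or.inl h)
    · exact Or.inr (Or.inr (Or.inl h))
    · exact Or.inr (Or.inr (Or.inr (Or.inr (Or.inl h))))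
  · rcases eq_or_lt_of_le h2 with e2 | e2
    · rcases on_side (a := b) (b := c) (c := a) (by rw [det3_rot]; exact hd)
        (by rw [perm1]; exact hx) e2.symm with h | h | h
      · exact Or.inr (Or.inr (Or.inl h))
      · exact Or.inr (Or.inr (Or.inr (Or.inl h)))
      · exact Or.inr (Or.inr (Or.inr (Or.inr (Or.inr (Or.inl h)))))
    · rcases eq_or_lt_of_le h3 with e3 | e3
      · rcases on_side (a := c) (b := a) (c := b) (by rw [det3_rot']; exact hd)
          (by rw [perm2]; exact hx) e3.symm with h | h | h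
        · exact Or.inr (Or.inr (Or.inr (Or.inl h)))
        · exact Or.inr (Or.inl h)
        · exact Or.inr (Or.inr (Or.inr (Or.inr (Or.inr (Or.inr h)))))
      · left
        rw [interior_hull (by omega)]
        exact ⟨e1, e2, e3⟩

lemma detR_line (a b c d : Pt) (s : ℝ) : detR a b (emb c + s • (emb d - emb c)) =
    (1 - s) * det3 a b c + s * det3 a b d := by
  have e : emb c + s • (emb d - emb c) = (1 - s) • emb c + s • emb d := by
    ext
    · simp only [Prod.fst_add, Prod.smul_fst, Prod.fst_sub, smul_eq_mul]; ring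
    · simp only [Prod.snd_add, Prod.smul_snd, Prod.snd_sub, smul_eq_mul]; ring
  rw [e, detR_comb a b _ _ (by ring), detR_emb, detR_emb]

theorem edge_mem_Om {a b c d : Pt} (h : X.V a b c) (h' : X.V b a d) {s : ℝ} (h0 : 0 < s)
    (h1 : s < 1) : emb a + s • (emb b - emb a) ∈ X.Om := by
  have hd := X.det h
  have hd' := X.det h'
  refine ⟨{(a, b, c), (b, a, d)}, ?_, ?_⟩
  · intro t ht
    simp only [Finset.mem_insert, Finset.mem_singleton] at ht
    rcases ht with rfl | rfl
    · exact h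
    · exact h'
  · have hopen : IsOpen {y : ℝ × ℝ | (0 < detR b c y ∧ 0 < detR c a y) ∧ (0 < detR a d y ∧ 0 < detR d b y)} := by
      refine IsOpen.inter (IsOpen.inter ?_ ?_) (IsOpen.inter ?_ ?_)
      · exact isOpen_lt continuous_const (continuous_detR b c)
      · exact isOpen_lt continuous_const (continuous_detR c a)
      · exact isOpen_lt continuous_const (continuous_detR a d)
      · exact isOpen_lt continuous_const (continuous_detR d b)
    refine Filter.mem_of_superset (hopen.mem_nhds ?_) ?_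
    · have e1 : det3 b c a = 1 := by rw [det3_rot]; exact hd
      have e2 : det3 c a b = 1 := by rw [det3_rot']; exact hd
      have e3 : det3 a d b = 1 := by rw [det3_rot]; exact hd'
      have e4 : det3 d b a = 1 := by rw [det3_rot']; exact hd'
      refine ⟨⟨?_, ?_⟩, ?_, ?_⟩
      · rw [detR_line, e1, det3_left]; push_cast; linarith
      · rw [detR_line, e2, det3_right]; push_cast; linarith
      · rw [detR_line, e3, det3_left]; push_cast; linarith
      · rw [detR_line, e4, det3_right]; push_cast; linarith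
    · rintro y ⟨⟨f1, f2⟩, f3, f4⟩
      rcases le_total 0 (detR a b y) with f5 | f5
      · refine Set.mem_iUnion₂.mpr ⟨(a, b, c), by simp, ?_⟩
        exact (MP01b126.mem_hull_iff (by show 0 < det3 a b c; omega) y).mpr ⟨f5, f1.le, f2.le⟩
      · refine Set.mem_iUnion₂.mpr ⟨(b, a, d), by simp, ?_⟩
        refine (MP01b126.mem_hull_iff (by show 0 < det3 b a d; omega) y).mpr ⟨?_, f3.le, f4.le⟩
        show 0 ≤ detR b a y
        rw [detR_swap]; linarith

/-- finite covers from local covers -/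
theorem exists_cover {C : Set (ℝ × ℝ)} (hC : IsCompact C)
    (h : ∀ x ∈ C, ∃ F : Finset (Pt × Pt × Pt), (∀ t ∈ F, X.V t.1 t.2.1 t.2.2) ∧
      (⋃ t ∈ F, hull {t.1, t.2.1, t.2.2}) ∈ nhdsWithin x C) :
    ∃ F : Finset (Pt × Pt × Pt), (∀ t ∈ F, X.V t.1 t.2.1 t.2.2) ∧
      C ⊆ ⋃ t ∈ F, hull {t.1, t.2.1, t.2.2} := by
  refine hC.induction_on (p := fun s => ∃ F : Finset (Pt × Pt × Pt),
    (∀ t ∈ F, X.V t.1 t.2.1 t.2.2) ∧ s ⊆ ⋃ t ∈ F, hull {t.1, t.2.1, t.2.2}) ?_ ?_ ?_ ?_
  · exact ⟨∅, by simp, by simp⟩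
  · rintro s t hst ⟨F, hF, h⟩
    exact ⟨F, hF, hst.trans h⟩
  · rintro s t ⟨F, hF, h⟩ ⟨F', hF', h'⟩
    refine ⟨F ∪ F', ?_, ?_⟩
    · intro u hu
      rcases Finset.mem_union.mp hu with hu | hu
      · exact hF u hu
      · exact hF' u hu
    · apply Set.union_subset
      · refine h.trans ?_
        intro x hx
        obtain ⟨u, hu, hx⟩ := Set.mem_iUnion₂.mp hx
        exact Set.mem_iUnion₂.mpr ⟨u, Finset.mem_union_left _ hu, hx⟩
      · refine h'.trans ?_
        intro x hx
        obtain ⟨u, hu, hx⟩ := Set.mem_iUnion₂.mp hx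
        exact Set.mem_iUnion₂.mpr ⟨u, Finset.mem_union_right _ hu, hx⟩
  · intro x hx
    obtain ⟨F, hF, hm⟩ := h x hx
    exact ⟨_, hm, F, hF, subset_rfl⟩

/-- a compact subset of `Om` meets only finitely many visible triangles -/
theorem finite_meets {C : Set (ℝ × ℝ)} (hC : IsCompact C) (h : C ⊆ X.Om) :
    {t : Pt × Pt × Pt | X.V t.1 t.2.1 t.2.2 ∧ (hull {t.1, t.2.1, t.2.2} ∩ C).Nonempty}.Finite := by
  refine hC.induction_on (p := fun s => {t : Pt × Pt × Pt | X.V t.1 t.2.1 t.2.2 ∧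
    (hull {t.1, t.2.1, t.2.2} ∩ s).Nonempty}.Finite) ?_ ?_ ?_ ?_
  · simp
  · intro s t hst ht
    refine ht.subset ?_
    rintro u ⟨hu, hn⟩
    exact ⟨hu, hn.mono (Set.inter_subset_inter_right _ hst)⟩
  · intro s t hs ht
    refine (hs.union ht).subset ?_
    rintro u ⟨hu, x, hx, hx' | hx'⟩
    · exact Or.inl ⟨hu, x, hx, hx'⟩
    · exact Or.inr ⟨hu, x, hx, hx'⟩
  · intro x hx
    obtain ⟨F, hF, hm⟩ := h hx
    refine ⟨interior (⋃ t ∈ F, hull {t.1, t.2.1, t.2.2}),
      mem_nhdsWithin_of_mem_nhds (interior_mem_nhds.mpr hm), ?_⟩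
    have hfin : (⋃ t ∈ F, (({t.1, t.2.1, t.2.2} : Finset Pt) ×ˢ (({t.1, t.2.1, t.2.2} : Finset Pt) ×ˢ
        ({t.1, t.2.1, t.2.2} : Finset Pt)) : Finset (Pt × Pt × Pt)) : Set (Pt × Pt × Pt)).Finite := by
      refine Set.Finite.biUnion F.finite_toSet ?_
      intro t _
      exact Finset.finite_toSet _
    refine hfin.subset ?_
    rintro ⟨a, b, c⟩ ⟨hu, y, hy, hyO⟩
    obtain ⟨t, ht, he⟩ := X.mem_of_meets hF isOpen_interior interior_subset hu hy hyO
    refine Set.mem_iUnion₂.mpr ⟨t, ht, ?_⟩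
    rw [← he]
    simp

/-- near a point covered by finitely many visible triangles, only the triangles through the point
matter -/
lemma eventually_both (F : Finset (Pt × Pt × Pt)) {x : ℝ × ℝ}
    (h : (⋃ t ∈ F, hull {t.1, t.2.1, t.2.2}) ∈ 𝓝 x) :
    ∀ᶠ y in 𝓝 x, ∃ t ∈ F, x ∈ hull {t.1, t.2.1, t.2.2} ∧ y ∈ hull {t.1, t.2.1, t.2.2} := by
  have h1 : ∀ t ∈ F, ∀ᶠ y in 𝓝 x, y ∈ hull {t.1, t.2.1, t.2.2} → x ∈ hull {t.1, t.2.1, t.2.2} := by
    intro t _
    by_cases hx : x ∈ hull {t.1, t.2.1, t.2.2}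
    · exact Filter.Eventually.of_forall fun _ _ => hx
    · have : (hull {t.1, t.2.1, t.2.2})ᶜ ∈ 𝓝 x := (isClosed_hull _).isOpen_compl.mem_nhds hx
      filter_upwards [this] with y hy hy'
      exact absurd hy' hy
  have h2 := (Finset.eventually_all F).mpr h1
  filter_upwards [h, h2] with y hy hy2
  obtain ⟨t, ht, hyt⟩ := Set.mem_iUnion₂.mp hy
  exact ⟨t, ht, hy2 t ht hyt, hyt⟩

lemma detR_smul_int (p q : Pt) (z : Pt) (ε : ℝ) :
    detR p q (emb p + ε • emb z) = ε * (dt (q - p) z : ℤ) := by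
  rw [detR_add_smul, detR_left]
  simp only [emb, dt, Prod.fst_sub, Prod.snd_sub]
  push_cast
  ring

lemma detR_smul_int' (p q : Pt) (z : Pt) (ε : ℝ) :
    detR q p (emb p + ε • emb z) = ε * (dt z (q - p) : ℤ) := by
  rw [detR_swap, detR_smul_int]
  simp only [dt, Prod.fst_sub, Prod.snd_sub]
  push_cast
  ring

theorem closedAt_iff (p : Pt) : X.ClosedAt p ↔ emb p ∈ X.Om := by
  constructor
  · rintro ⟨S, hS, hz⟩
    refine ⟨S.image (fun s => (p, s.1, s.2)), ?_, ?_⟩
    · intro t ht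
      obtain ⟨s, hs, rfl⟩ := Finset.mem_image.mp ht
      exact hS s hs
    · have hcl : IsClosed {x : ℝ × ℝ | ∃ s ∈ S, 0 ≤ detR p s.1 x ∧ 0 ≤ detR s.2 p x} := by
        have : {x : ℝ × ℝ | ∃ s ∈ S, 0 ≤ detR p s.1 x ∧ 0 ≤ detR s.2 p x} =
            ⋃ s ∈ S, {x | 0 ≤ detR p s.1 x ∧ 0 ≤ detR s.2 p x} := by
          ext x; simp only [Set.mem_ofPred_eq, Set.mem_iUnion, exists_prop]
        rw [this]
        refine Set.Finite.isClosed_biUnion S.finite_toSet ?_
        intro s _
        exact (isClosed_le continuous_const (continuous_detR p s.1)).inter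
          (isClosed_le continuous_const (continuous_detR s.2 p))
      have hall : ∀ x : ℝ × ℝ, ∃ s ∈ S, 0 ≤ detR p s.1 x ∧ 0 ≤ detR s.2 p x := by
        have hd : DenseRange (Prod.map (Rat.cast : ℚ → ℝ) (Rat.cast : ℚ → ℝ)) :=
          Rat.denseRange_cast.prodMap Rat.denseRange_cast
        refine isClosed_property hd hcl ?_
        rintro ⟨u, v⟩
        -- the integer vector
        obtain ⟨N, hN, z, hz1⟩ : ∃ N : ℝ, 0 < N ∧ ∃ z : Pt,
            Prod.map (Rat.cast : ℚ → ℝ) (Rat.cast : ℚ → ℝ) (u, v) = emb p + N • emb z := by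
          refine ⟨1 / ((u.den : ℝ) * v.den), ?_,
            (u.num * v.den - p.1 * (u.den * v.den), v.num * u.den - p.2 * (u.den * v.den)), ?_⟩
          · have h1 : (0 : ℝ) < u.den := by exact_mod_cast u.den_pos
            have h2 : (0 : ℝ) < v.den := by exact_mod_cast v.den_pos
            positivity
          · have h1 : (u.den : ℝ) ≠ 0 := by exact_mod_cast u.den_ne_zero
            have h2 : (v.den : ℝ) ≠ 0 := by exact_mod_cast v.den_ne_zero
            have e1 : (u : ℝ) = u.num / u.den := Rat.cast_def u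
            have e2 : (v : ℝ) = v.num / v.den := Rat.cast_def v
            ext
            · simp only [Prod.map_apply, emb, Prod.fst_add, Prod.smul_fst, smul_eq_mul]
              rw [e1]; push_cast; field_simp; ring
            · simp only [Prod.map_apply, emb, Prod.snd_add, Prod.smul_snd, smul_eq_mul]
              rw [e2]; push_cast; field_simp; ring
        rw [hz1]
        by_cases hz0 : z = 0
        · obtain ⟨s, hs, -, -⟩ := hz (1, 0) (by intro h; simpa using congrArg Prod.fst h)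
          refine ⟨s, hs, ?_, ?_⟩
          · rw [detR_smul_int, hz0]; simp [dt]
          · rw [detR_smul_int', hz0]; simp [dt]
        · obtain ⟨s, hs, h1, h2⟩ := hz z hz0
          refine ⟨s, hs, ?_, ?_⟩
          · rw [detR_smul_int]; exact mul_nonneg hN.le (by exact_mod_cast h1)
          · rw [detR_smul_int']; exact mul_nonneg hN.le (by exact_mod_cast h2)
      have hev : ∀ᶠ x in 𝓝 (emb p), ∀ s ∈ S, 0 < detR s.1 s.2 x := by
        refine (Finset.eventually_all S).mpr ?_
        intro s hs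
        refine (isOpen_lt continuous_const (continuous_detR s.1 s.2)).mem_nhds ?_
        show 0 < detR s.1 s.2 (emb p)
        rw [detR_emb, det3_rot, X.det (hS s hs)]
        norm_num
      filter_upwards [hev] with x hx
      obtain ⟨s, hs, h1, h2⟩ := hall x
      refine Set.mem_iUnion₂.mpr ⟨(p, s.1, s.2), Finset.mem_image.mpr ⟨s, hs, rfl⟩, ?_⟩
      refine (MP01b126.mem_hull_iff (by show 0 < det3 p s.1 s.2; rw [X.det (hS s hs)]; norm_num)
        x).mpr ⟨h1, (hx s hs).le, h2⟩
  · rintro ⟨F, hF, hx⟩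
    refine ⟨(F.filter (fun t => t.1 = p)).image (fun t => (t.2.1, t.2.2)) ∪
      ((F.filter (fun t => t.2.1 = p)).image (fun t => (t.2.2, t.1)) ∪
       (F.filter (fun t => t.2.2 = p)).image (fun t => (t.1, t.2.1))), ?_, ?_⟩
    · intro s hs
      simp only [Finset.mem_union, Finset.mem_image, Finset.mem_filter] at hs
      rcases hs with ⟨t, ⟨ht, rfl⟩, rfl⟩ | ⟨t, ⟨ht, rfl⟩, rfl⟩ | ⟨t, ⟨ht, rfl⟩, rfl⟩
      · exact hF t ht
      · exact X.rot (hF t ht)
      · exact X.V_rot2 (hF t ht)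
    · intro z hz0
      have hev := eventually_both F hx
      have htend : Tendsto (fun ε : ℝ => emb p + ε • emb z) (𝓝[>] 0) (𝓝 (emb p)) := by
        have : Tendsto (fun ε : ℝ => emb p + ε • emb z) (𝓝 0) (𝓝 (emb p + (0 : ℝ) • emb z)) := by
          refine Continuous.tendsto ?_ 0
          fun_prop
        rw [zero_smul, add_zero] at this
        exact this.mono_left nhdsWithin_le_nhds
      have h2 := htend.eventually hev
      obtain ⟨ε, ⟨t, ht, hpt, hyt⟩, hε⟩ := (h2.and self_mem_nhdsWithin).exists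
      have hε : 0 < ε := hε
      have hV := hF t ht
      have hp : p ∈ ({t.1, t.2.1, t.2.2} : Finset Pt) := (X.isUni_of_V hV).mem_of_emb_mem hpt
      have key : ∀ {a b : Pt}, X.V p a b → emb p + ε • emb z ∈ hull {p, a, b} →
          0 ≤ dt (a - p) z ∧ 0 ≤ dt z (b - p) := by
        intro a b hab hm
        obtain ⟨g1, g2, g3⟩ := (MP01b126.mem_hull_iff (by rw [X.det hab]; norm_num) _).mp hm
        rw [detR_smul_int] at g1
        rw [detR_smul_int'] at g3
        constructor
        · exact_mod_cast nonneg_of_mul_nonneg_right g1 hε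
        · exact_mod_cast nonneg_of_mul_nonneg_right g3 hε
      simp only [Finset.mem_insert, Finset.mem_singleton] at hp
      rcases hp with hp | hp | hp
      · refine ⟨(t.2.1, t.2.2), ?_, ?_⟩
        · refine Finset.mem_union_left _ (Finset.mem_image.mpr ⟨t, Finset.mem_filter.mpr ⟨ht, hp.symm⟩, rfl⟩)
        · apply key
          · rw [hp]; exact hV
          · rw [hp] at hyt ⊢; exact hyt
      · refine ⟨(t.2.2, t.1), ?_, ?_⟩
        · refine Finset.mem_union_right _ (Finset.mem_union_left _ (Finset.mem_image.mpr ⟨t, Finset.mem_filter.mpr ⟨ht, hp.symm⟩, rfl⟩))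
        · apply key
          · rw [hp]; exact X.rot hV
          · rw [hp] at hyt ⊢; rw [perm1]; exact hyt
      · refine ⟨(t.1, t.2.1), ?_, ?_⟩
        · refine Finset.mem_union_right _ (Finset.mem_union_right _ (Finset.mem_image.mpr ⟨t, Finset.mem_filter.mpr ⟨ht, hp.symm⟩, rfl⟩))
        · apply key
          · rw [hp]; exact X.V_rot2 hV
          · rw [hp] at hyt ⊢; rw [perm2]; exact hyt

/-! ### Walls -/

lemma W_prev {a b : Pt} (h : X.W a b) : X.W (a - (b - a)) a := by
  have h1 := X.W_symm (X.W_next (X.W_symm h))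
  have e : a + (a - b) = a - (b - a) := by abel
  rwa [e] at h1

lemma W_iter {a b : Pt} (h : X.W a b) (k : ℤ) : X.W (a + k • (b - a)) (a + (k + 1) • (b - a)) := by
  induction k using Int.induction_on with
  | zero => simpa using h
  | succ n ih =>
    have h1 := X.W_next ih
    have e : a + ((n : ℤ) + 1) • (b - a) + (a + ((n : ℤ) + 1) • (b - a) - (a + (n : ℤ) • (b - a))) =
        a + ((n : ℤ) + 1 + 1) • (b - a) := by
      module
    rwa [e] at h1
  | pred n ih =>
    have h1 := X.W_prev ih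
    have e1 : a + (-(n : ℤ)) • (b - a) - (a + (-(n : ℤ) + 1) • (b - a) - (a + (-(n : ℤ)) • (b - a))) =
        a + (-(n : ℤ) - 1) • (b - a) := by
      module
    have e2 : a + (-(n : ℤ)) • (b - a) = a + (-(n : ℤ) - 1 + 1) • (b - a) := by
      congr 2; ring
    rw [e1] at h1
    rw [← e2]
    exact h1

/-- a lattice point on the line through a primitive pair -/
lemma on_line {a b p : Pt} (h : IsCoprime (b - a).1 (b - a).2) (h0 : det3 a b p = 0) :
    ∃ k : ℤ, p = a + k • (b - a) := by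
  obtain ⟨u, v, huv⟩ := h
  refine ⟨u * (p - a).1 + v * (p - a).2, ?_⟩
  simp only [det3] at h0
  simp only [Prod.fst_sub, Prod.snd_sub] at huv ⊢
  ext
  · simp only [Prod.fst_add, Prod.smul_fst, Prod.fst_sub, smul_eq_mul]
    linear_combination (p.1 - a.1) * (-huv) - v * h0
  · simp only [Prod.snd_add, Prod.smul_snd, Prod.snd_sub, smul_eq_mul]
    linear_combination (p.2 - a.2) * (-huv) + u * h0

/-- the coordinate along a primitive pair is determined -/
lemma coord_inj {a b : Pt} (h : IsCoprime (b - a).1 (b - a).2) {s t : ℝ}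
    (hst : emb a + s • (emb b - emb a) = emb a + t • (emb b - emb a)) : s = t := by
  obtain ⟨u, v, huv⟩ := h
  have h1 := congrArg Prod.fst hst
  have h2 := congrArg Prod.snd hst
  simp only [emb, Prod.fst_add, Prod.smul_fst, Prod.fst_sub, Prod.snd_add, Prod.smul_snd,
    Prod.snd_sub, smul_eq_mul] at h1 h2
  have h3 : (u : ℝ) * ((b.1 : ℝ) - a.1) + v * ((b.2 : ℝ) - a.2) = 1 := by
    have : u * (b.1 - a.1) + v * (b.2 - a.2) = 1 := huv
    exact_mod_cast this
  linear_combination (s - t) * (-h3) + u * h1 + v * h2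

lemma emb_add_smul (a b : Pt) (k : ℤ) :
    emb (a + k • (b - a)) = emb a + (k : ℝ) • (emb b - emb a) := by
  ext
  · simp only [emb, Prod.fst_add, Prod.smul_fst, Prod.fst_sub, smul_eq_mul]; push_cast; ring
  · simp only [emb, Prod.snd_add, Prod.smul_snd, Prod.snd_sub, smul_eq_mul]; push_cast; ring

/-- a point of the open segment is not a lattice point -/
lemma not_lattice {a b : Pt} (h : IsCoprime (b - a).1 (b - a).2) {s : ℝ} (h0 : 0 < s) (h1 : s < 1)
    (p : Pt) : emb a + s • (emb b - emb a) ≠ emb p := by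
  intro he
  have hd : detR a b (emb a + s • (emb b - emb a)) = 0 := by
    rw [detR_line]; simp
  rw [he, detR_emb] at hd
  obtain ⟨k, rfl⟩ := on_line h (by exact_mod_cast hd)
  rw [emb_add_smul] at he
  have := coord_inj h he
  rw [this] at h0 h1
  have h2 : 0 < k := by exact_mod_cast h0
  have h3 : k < 1 := by exact_mod_cast h1
  omega

/-- an edge of a visible triangle inside a primitive line -/
lemma line_edge {a b p q r : Pt} (h : IsCoprime (b - a).1 (b - a).2) (hV : X.V p q r)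
    {s : ℝ} (h0 : 0 < s) (h1 : s < 1) {t : ℝ} (ht0 : 0 < t) (ht1 : t < 1)
    (he : emb a + s • (emb b - emb a) = emb p + t • (emb q - emb p))
    (hp : 0 ≤ det3 a b p) (hq : 0 ≤ det3 a b q) (hr : 0 ≤ det3 a b r) : p = a ∧ q = b := by
  have hd : detR a b (emb a + s • (emb b - emb a)) = 0 := by
    rw [detR_line]; simp
  rw [he, detR_line] at hd
  have hpR : (0 : ℝ) ≤ det3 a b p := by exact_mod_cast hp
  have hqR : (0 : ℝ) ≤ det3 a b q := by exact_mod_cast hq
  have hp0 : det3 a b p = 0 := by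
    have : (det3 a b p : ℝ) = 0 := by
      by_contra hne
      have : (0 : ℝ) < det3 a b p := lt_of_le_of_ne hpR (Ne.symm hne)
      nlinarith [mul_pos (sub_pos.mpr ht1) this, mul_nonneg ht0.le hqR]
    exact_mod_cast this
  have hq0 : det3 a b q = 0 := by
    have : (det3 a b q : ℝ) = 0 := by
      by_contra hne
      have : (0 : ℝ) < det3 a b q := lt_of_le_of_ne hqR (Ne.symm hne)
      nlinarith [mul_pos ht0 this, mul_nonneg (sub_pos.mpr ht1).le hpR]
    exact_mod_cast this
  obtain ⟨k, hk⟩ := on_line h hp0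
  obtain ⟨l, hl⟩ := on_line h hq0
  have hdet := X.det hV
  have e1 : (l - k) * det3 a b r = 1 := by
    rw [← hdet, hk, hl]
    simp only [det3, Prod.fst_add, Prod.smul_fst, Prod.fst_sub, Prod.snd_add, Prod.smul_snd,
      Prod.snd_sub, smul_eq_mul]
    ring
  have e2 : l - k = 1 := by
    rcases Int.eq_one_or_neg_one_of_mul_eq_one e1 with h | h
    · exact h
    · rw [h] at e1; omega
  have hl' : l = k + 1 := by omega
  subst hl'
  have e3 : emb a + s • (emb b - emb a) = emb a + ((k : ℝ) + t) • (emb b - emb a) := by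
    rw [he, hk, hl, emb_add_smul, emb_add_smul]
    push_cast
    module
  have e4 := coord_inj h e3
  have hk0 : k = 0 := by
    have g1 : (-1 : ℝ) < k := by linarith
    have g2 : (k : ℝ) < 1 := by linarith
    have g3 : -1 < k := by exact_mod_cast g1
    have g4 : k < 1 := by exact_mod_cast g2
    omega
  subst hk0
  constructor
  · rw [hk]; simp
  · rw [hl]; simp

lemma edge_of_side {a b p q r : Pt} (h : IsCoprime (b - a).1 (b - a).2) (hV : X.V p q r)
    {s : ℝ} (h0 : 0 < s) (h1 : s < 1) (hy : emb a + s • (emb b - emb a) ∈ hull {p, q, r})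
    (hp : 0 ≤ det3 a b p) (hq : 0 ≤ det3 a b q) (hr : 0 ≤ det3 a b r) : ∃ c, X.V a b c := by
  have hab : a ≠ b := by
    rintro rfl
    obtain ⟨u, v, huv⟩ := h
    simp at huv
  rcases X.mem_hull_cases hV hy with g | g | g | g | ⟨t, ht0, ht1, g⟩ | ⟨t, ht0, ht1, g⟩ | ⟨t, ht0, ht1, g⟩
  · exfalso
    have e1 := detR_pos_of_interior hab (S := hull {p, q, r}) (fun y hy => hull_nonneg (by
      intro u hu
      simp only [Finset.mem_insert, Finset.mem_singleton] at hu
      rcases hu with rfl | rfl | rfl <;> assumption) hy) g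
    rw [detR_line] at e1
    simp at e1
  · exact absurd g (not_lattice h h0 h1 p)
  · exact absurd g (not_lattice h h0 h1 q)
  · exact absurd g (not_lattice h h0 h1 r)
  · obtain ⟨e1, e2⟩ := X.line_edge h hV h0 h1 ht0 ht1 g hp hq hr
    exact ⟨r, by rw [← e1, ← e2]; exact hV⟩
  · obtain ⟨e1, e2⟩ := X.line_edge h (X.rot hV) h0 h1 ht0 ht1 g hq hr hp
    exact ⟨p, by rw [← e1, ← e2]; exact X.rot hV⟩
  · obtain ⟨e1, e2⟩ := X.line_edge h (X.V_rot2 hV) h0 h1 ht0 ht1 g hr hp hq
    exact ⟨q, by rw [← e1, ← e2]; exact X.V_rot2 hV⟩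

lemma wall_visible {a b : Pt} (h : X.W a b) {s : ℝ} (h0 : 0 < s) (h1 : s < 1)
    (hm : emb a + s • (emb b - emb a) ∈ X.Om) : ∃ c, X.V a b c := by
  obtain ⟨F, hF, hx⟩ := hm
  have hcop := X.W_prim h
  have hev := eventually_both F hx
  set y := emb a + s • (emb b - emb a) with hy
  set n : ℝ × ℝ := (-((b.2 : ℝ) - a.2), (b.1 : ℝ) - a.1) with hn
  have htend : Tendsto (fun ε : ℝ => y + ε • n) (𝓝[>] 0) (𝓝 y) := by
    have : Tendsto (fun ε : ℝ => y + ε • n) (𝓝 0) (𝓝 (y + (0 : ℝ) • n)) := by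
      refine Continuous.tendsto ?_ 0
      fun_prop
    rw [zero_smul, add_zero] at this
    exact this.mono_left nhdsWithin_le_nhds
  have h2 := htend.eventually hev
  obtain ⟨ε, ⟨t, ht, hpt, hyt⟩, hε⟩ := (h2.and self_mem_nhdsWithin).exists
  have hε : 0 < ε := hε
  have hab : a ≠ b := by
    rintro rfl
    obtain ⟨u, v, huv⟩ := hcop
    simp at huv
  have hpos : 0 < detR a b (y + ε • n) := by
    rw [detR_add_smul]
    have e1 : detR a b y = 0 := by rw [hy, detR_line]; simp
    have e2 : ((b.1 : ℝ) - a.1) * n.2 - ((b.2 : ℝ) - a.2) * n.1 =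
        ((b.1 : ℝ) - a.1) ^ 2 + ((b.2 : ℝ) - a.2) ^ 2 := by
      simp only [hn]; ring
    rw [e1, e2]
    have h5 : 0 < ((b.1 : ℝ) - a.1) ^ 2 + ((b.2 : ℝ) - a.2) ^ 2 := by
      by_contra hc
      apply hab
      have e1 := sq_nonneg ((b.1 : ℝ) - a.1)
      have e2 := sq_nonneg ((b.2 : ℝ) - a.2)
      have e3 : ((b.1 : ℝ) - a.1) ^ 2 = 0 := by linarith
      have e4 : ((b.2 : ℝ) - a.2) ^ 2 = 0 := by linarith
      have e5 : (b.1 : ℝ) - a.1 = 0 := by simpa using e3
      have e6 : (b.2 : ℝ) - a.2 = 0 := by simpa using e4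
      have e7 : (a.1 : ℝ) = b.1 := by linarith
      have e8 : (a.2 : ℝ) = b.2 := by linarith
      ext
      · exact_mod_cast e7
      · exact_mod_cast e8
    have := mul_pos hε h5
    linarith
  rcases X.W_side h (hF t ht) with ⟨g1, g2, g3⟩ | ⟨g1, g2, g3⟩
  · exact X.edge_of_side hcop (hF t ht) h0 h1 hpt g1 g2 g3
  · exfalso
    have := hull_nonpos (a := a) (b := b) (t := {t.1, t.2.1, t.2.2}) (by
      intro u hu
      simp only [Finset.mem_insert, Finset.mem_singleton] at hu
      rcases hu with rfl | rfl | rfl <;> assumption) hyt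
    linarith

theorem wall_not_mem_Om {a b : Pt} (h : X.W a b) (s : ℝ) :
    emb a + s • (emb b - emb a) ∉ X.Om := by
  intro hm
  have hev : ∀ᶠ s' in 𝓝 s, emb a + s' • (emb b - emb a) ∈ X.Om := by
    have hc : Continuous (fun s' : ℝ => emb a + s' • (emb b - emb a)) := by fun_prop
    exact (X.isOpen_Om.preimage hc).mem_nhds hm
  -- a non-integer parameter
  obtain ⟨s', hs', hni⟩ : ∃ s', emb a + s' • (emb b - emb a) ∈ X.Om ∧ (⌊s'⌋ : ℝ) < s' := by
    obtain ⟨l, u, hlu, hsub⟩ := mem_nhds_iff_exists_Ioo_subset.mp hev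
    obtain ⟨s', hs1, hs2⟩ : ∃ s' : ℝ, s < s' ∧ s' < min u (⌊s⌋ + 1) :=
      exists_between (lt_min hlu.2 (Int.lt_floor_add_one s))
    have h1 : s' < u := lt_of_lt_of_le hs2 (min_le_left _ _)
    have h2 : s' < ⌊s⌋ + 1 := lt_of_lt_of_le hs2 (min_le_right _ _)
    refine ⟨s', hsub ⟨lt_trans hlu.1 hs1, h1⟩, ?_⟩
    have h3 : ⌊s'⌋ = ⌊s⌋ := by
      rw [Int.floor_eq_iff]
      exact ⟨(Int.floor_le s).trans hs1.le, h2⟩
    rw [h3]
    exact lt_of_le_of_lt (Int.floor_le s) hs1
  set k := ⌊s'⌋ with hk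
  have hW := X.W_iter h k
  set a' := a + k • (b - a) with ha'
  set b' := a + (k + 1) • (b - a) with hb'
  have e1 : emb a + s' • (emb b - emb a) = emb a' + (s' - k) • (emb b' - emb a') := by
    rw [ha', hb', emb_add_smul, emb_add_smul]
    push_cast
    module
  have hσ0 : 0 < s' - k := by linarith
  have hσ1 : s' - k < 1 := by have := Int.lt_floor_add_one s'; rw [← hk] at this; linarith
  rw [e1] at hs'
  obtain ⟨c, hc⟩ := X.wall_visible hW hσ0 hσ1 hs'
  have e2 : emb a' + (s' - k) • (emb b' - emb a') = emb b' + (1 - (s' - k)) • (emb a' - emb b') := by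
    module
  rw [e2] at hs'
  obtain ⟨d, hd⟩ := X.wall_visible (X.W_symm hW) (by linarith) (by linarith) hs'
  exact X.opp_not hc hd hW

end MP01b126.Lim
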