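import Pool.Agent.Lib.MP_01b126_co.St.Region

/-!
# MP_01b126_co, STRUCTURE: the shortcut lemma

If the segments `[z,x]` and `[z,y]` lie in the visible region `Om`, so does `[x,y]`.
-/

namespace MP01b126.Lim

open Set

/-- real cross product -/
def cr (u v : ℝ × ℝ) : ℝ := u.1 * v.2 - u.2 * v.1

/-- coordinates of a vector in the basis `a, b` -/
noncomputable def cP (a b v : ℝ × ℝ) : ℝ := cr v b / cr a b
noncomputable def cQ (a b v : ℝ × ℝ) : ℝ := cr a v / cr a b
/-- level of a vector -/
noncomputable def et (a b v : ℝ × ℝ) : ℝ := cP a b v + cQ a b v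

section coords

variable {a b : ℝ × ℝ}

lemma expand_cr (h : cr a b ≠ 0) (v : ℝ × ℝ) : v = cP a b v • a + cQ a b v • b := by
  unfold cP cQ
  ext
  · simp only [Prod.fst_add, Prod.smul_fst, smul_eq_mul]
    field_simp
    unfold cr; ring
  · simp only [Prod.snd_add, Prod.smul_snd, smul_eq_mul]
    field_simp
    unfold cr; ring

lemma cP_add (u v : ℝ × ℝ) : cP a b (u + v) = cP a b u + cP a b v := by
  unfold cP; rw [← add_div]; congr 1; simp only [cr, Prod.fst_add, Prod.snd_add]; ring
lemma cQ_add (u v : ℝ × ℝ) : cQ a b (u + v) = cQ a b u + cQ a b v := by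
  unfold cQ; rw [← add_div]; congr 1; simp only [cr, Prod.fst_add, Prod.snd_add]; ring
lemma cP_smul (t : ℝ) (v : ℝ × ℝ) : cP a b (t • v) = t * cP a b v := by
  unfold cP; rw [← mul_div_assoc]; congr 1
  simp only [cr, Prod.smul_fst, Prod.smul_snd, smul_eq_mul]; ring
lemma cQ_smul (t : ℝ) (v : ℝ × ℝ) : cQ a b (t • v) = t * cQ a b v := by
  unfold cQ; rw [← mul_div_assoc]; congr 1
  simp only [cr, Prod.smul_fst, Prod.smul_snd, smul_eq_mul]; ring
lemma cP_a (h : cr a b ≠ 0) : cP a b a = 1 := by unfold cP; exact div_self h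
lemma cQ_b (h : cr a b ≠ 0) : cQ a b b = 1 := by unfold cQ; exact div_self h
lemma cP_b : cP a b b = 0 := by unfold cP; have : cr b b = 0 := by unfold cr; ring
                                rw [this, zero_div]
lemma cQ_a : cQ a b a = 0 := by unfold cQ; have : cr a a = 0 := by unfold cr; ring
                                rw [this, zero_div]
lemma cP_comb (h : cr a b ≠ 0) (p q : ℝ) : cP a b (p • a + q • b) = p := by
  rw [cP_add, cP_smul, cP_smul, cP_a h, cP_b]; ring
lemma cQ_comb (h : cr a b ≠ 0) (p q : ℝ) : cQ a b (p • a + q • b) = q := by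
  rw [cQ_add, cQ_smul, cQ_smul, cQ_b h, cQ_a]; ring
lemma et_add (u v : ℝ × ℝ) : et a b (u + v) = et a b u + et a b v := by
  unfold et; rw [cP_add, cQ_add]; ring
lemma et_smul (t : ℝ) (v : ℝ × ℝ) : et a b (t • v) = t * et a b v := by
  unfold et; rw [cP_smul, cQ_smul]; ring
lemma et_sub (u v : ℝ × ℝ) : et a b (u - v) = et a b u - et a b v := by
  have : u - v = u + (-1 : ℝ) • v := by rw [neg_one_smul]; exact sub_eq_add_neg u v
  rw [this, et_add, et_smul]; ring
lemma cP_sub (u v : ℝ × ℝ) : cP a b (u - v) = cP a b u - cP a b v := by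
  have : u - v = u + (-1 : ℝ) • v := by rw [neg_one_smul]; exact sub_eq_add_neg u v
  rw [this, cP_add, cP_smul]; ring
lemma cQ_sub (u v : ℝ × ℝ) : cQ a b (u - v) = cQ a b u - cQ a b v := by
  have : u - v = u + (-1 : ℝ) • v := by rw [neg_one_smul]; exact sub_eq_add_neg u v
  rw [this, cQ_add, cQ_smul]; ring

lemma continuous_cP : Continuous (cP a b) := by unfold cP cr; fun_prop
lemma continuous_cQ : Continuous (cQ a b) := by unfold cQ cr; fun_prop

end coords

variable (X : Lim)

/-- data of a nondegenerate triangle `z, z + a, z + b` two sides of which lie in `Om`, and a point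
`c` of the triangle outside `Om` of minimal level -/
structure Bad (z a b c : ℝ × ℝ) : Prop where
  D : cr a b ≠ 0
  za : ∀ p : ℝ, 0 ≤ p → p ≤ 1 → z + p • a ∈ X.Om
  zb : ∀ q : ℝ, 0 ≤ q → q ≤ 1 → z + q • b ∈ X.Om
  hp : 0 < cP a b (c - z)
  hq : 0 < cQ a b (c - z)
  hs : et a b (c - z) ≤ 1
  c_not : c ∉ X.Om
  below : ∀ y : ℝ × ℝ, 0 ≤ cP a b (y - z) → 0 ≤ cQ a b (y - z) →
    et a b (y - z) < et a b (c - z) → y ∈ X.Om

namespace Bad

variable {X} {z a b c : ℝ × ℝ}

lemma eq_of (h : cr a b ≠ 0) (y : ℝ × ℝ) : y = z + (cP a b (y - z) • a + cQ a b (y - z) • b) := by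
  rw [← expand_cr h]; abel

/-- no wall line passes through `c` -/
lemma no_wall (B : X.Bad z a b c) {p q : Pt} (hW : X.W p q) (t : ℝ)
    (hc : c = emb p + t • (emb q - emb p)) : False := by
  set d := emb q - emb p with hd
  have hd0 : d ≠ 0 := by
    intro h0
    have h1 := X.W_prim hW
    have h2 : (q - p).1 = 0 := by
      have := congrArg Prod.fst h0
      simp only [hd, emb, Prod.fst_sub, Prod.fst_zero] at this
      have h3 : (q.1 : ℝ) = p.1 := by linarith
      have h4 : q.1 = p.1 := by exact_mod_cast h3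
      simp [h4]
    have h2' : (q - p).2 = 0 := by
      have := congrArg Prod.snd h0
      simp only [hd, emb, Prod.snd_sub, Prod.snd_zero] at this
      have h3 : (q.2 : ℝ) = p.2 := by linarith
      have h4 : q.2 = p.2 := by exact_mod_cast h3
      simp [h4]
    rw [h2, h2'] at h1
    obtain ⟨x, y, hxy⟩ := h1
    simp at hxy
  by_cases he : et a b d = 0
  · -- the line is parallel to the level lines
    have hQ : cQ a b d ≠ 0 := by
      intro h0
      have hP : cP a b d = 0 := by unfold et at he; linarith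
      apply hd0
      rw [expand_cr B.D d, h0, hP]; simp
    set τ := - cQ a b (c - z) / cQ a b d with hτ
    have h1 : c + τ • d ∉ X.Om := by
      rw [hc, add_assoc, ← add_smul]
      exact X.wall_not_mem_Om hW _
    apply h1
    have h2 : cQ a b (c + τ • d - z) = 0 := by
      have : c + τ • d - z = (c - z) + τ • d := by abel
      rw [this, cQ_add, cQ_smul, hτ]; field_simp; ring
    have h3 : et a b (c + τ • d - z) = et a b (c - z) := by
      have : c + τ • d - z = (c - z) + τ • d := by abel
      rw [this, et_add, et_smul, he]; ring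
    have h4 : cP a b (c + τ • d - z) = et a b (c - z) := by
      rw [← h3]; unfold et; rw [h2]; ring
    have h5 := eq_of (z := z) B.D (c + τ • d)
    rw [h2, h4, zero_smul, add_zero] at h5
    rw [h5]
    refine B.za _ ?_ B.hs
    have := B.hp; have := B.hq
    unfold et; linarith
  · -- move a little in the direction in which the level decreases
    obtain ⟨τ, hτ1, hτ2, hτ3⟩ : ∃ τ : ℝ, τ * et a b d < 0 ∧ 0 ≤ cP a b (c - z) + τ * cP a b d ∧
        0 ≤ cQ a b (c - z) + τ * cQ a b d := by
      have c1 : Filter.Tendsto (fun τ : ℝ => cP a b (c - z) + (- τ * et a b d) * cP a b d)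
          (nhdsWithin 0 (Ioi 0)) (nhds (cP a b (c - z) + (- 0 * et a b d) * cP a b d)) := by
        apply tendsto_nhdsWithin_of_tendsto_nhds
        apply Continuous.tendsto; fun_prop
      have c2 : Filter.Tendsto (fun τ : ℝ => cQ a b (c - z) + (- τ * et a b d) * cQ a b d)
          (nhdsWithin 0 (Ioi 0)) (nhds (cQ a b (c - z) + (- 0 * et a b d) * cQ a b d)) := by
        apply tendsto_nhdsWithin_of_tendsto_nhds
        apply Continuous.tendsto; fun_prop
      have e1 := c1.eventually (lt_mem_nhds (a := 0) (by have := B.hp; simpa using this))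
      have e2 := c2.eventually (lt_mem_nhds (a := 0) (by have := B.hq; simpa using this))
      obtain ⟨τ, ⟨h1, h2⟩, h3⟩ := ((e1.and e2).and self_mem_nhdsWithin).exists
      refine ⟨- τ * et a b d, ?_, h1.le, h2.le⟩
      have h3 : 0 < τ := h3
      have : 0 < et a b d * et a b d := mul_self_pos.mpr he
      nlinarith
    have h1 : c + τ • d ∉ X.Om := by
      rw [hc, add_assoc, ← add_smul]
      exact X.wall_not_mem_Om hW _
    apply h1
    have e : c + τ • d - z = (c - z) + τ • d := by abel
    apply B.below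
    · rw [e, cP_add, cP_smul]; exact hτ2
    · rw [e, cQ_add, cQ_smul]; exact hτ3
    · rw [e, et_add, et_smul]; linarith

/-- the part of the triangle below the level of `c` -/
def low (_ : X.Bad z a b c) : Set (ℝ × ℝ) :=
  {y | 0 ≤ cP a b (y - z) ∧ 0 ≤ cQ a b (y - z) ∧ et a b (y - z) < et a b (c - z)}

lemma continuous_et : Continuous (fun y : ℝ × ℝ => et a b (y - z)) := by
  unfold et
  exact (continuous_cP.comp (continuous_id.sub continuous_const)).add
    (continuous_cQ.comp (continuous_id.sub continuous_const))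

lemma isCompact_tri (h : cr a b ≠ 0) (r : ℝ) :
    IsCompact {y : ℝ × ℝ | 0 ≤ cP a b (y - z) ∧ 0 ≤ cQ a b (y - z) ∧ et a b (y - z) ≤ r} := by
  have : {y : ℝ × ℝ | 0 ≤ cP a b (y - z) ∧ 0 ≤ cQ a b (y - z) ∧ et a b (y - z) ≤ r} =
      (fun pq : ℝ × ℝ => z + (pq.1 • a + pq.2 • b)) ''
        {pq : ℝ × ℝ | 0 ≤ pq.1 ∧ 0 ≤ pq.2 ∧ pq.1 + pq.2 ≤ r} := by
    ext y
    simp only [mem_ofPred_eq, mem_image]
    constructor
    · rintro ⟨h1, h2, h3⟩
      exact ⟨(cP a b (y - z), cQ a b (y - z)), ⟨h1, h2, h3⟩, (eq_of h y).symm⟩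
    · rintro ⟨⟨p, q⟩, ⟨h1, h2, h3⟩, rfl⟩
      have e : z + (p • a + q • b) - z = p • a + q • b := by abel
      simp only at h1 h2 h3
      refine ⟨?_, ?_, ?_⟩
      · show 0 ≤ cP a b (z + (p • a + q • b) - z)
        rw [e, cP_comb h]; exact h1
      · show 0 ≤ cQ a b (z + (p • a + q • b) - z)
        rw [e, cQ_comb h]; exact h2
      · show et a b (z + (p • a + q • b) - z) ≤ r
        rw [e]; unfold et; rw [cP_comb h, cQ_comb h]; exact h3
  rw [this]
  apply IsCompact.image
  · apply Metric.isCompact_of_isClosed_isBounded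
    · apply IsClosed.inter (isClosed_le continuous_const continuous_fst)
      apply IsClosed.inter (isClosed_le continuous_const continuous_snd)
      exact isClosed_le (continuous_fst.add continuous_snd) continuous_const
    · apply (Metric.isBounded_Icc (0 : ℝ) r |>.prod (Metric.isBounded_Icc (0 : ℝ) r)).subset
      rintro ⟨p, q⟩ ⟨h1, h2, h3⟩
      simp only at h1 h2 h3
      exact ⟨⟨h1, by linarith⟩, ⟨h2, by linarith⟩⟩
  · fun_prop

lemma finite_lattice {K : Set (ℝ × ℝ)} (hK : Bornology.IsBounded K) : {v : Pt | emb v ∈ K}.Finite := by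
  obtain ⟨R, hR⟩ := hK.subset_closedBall (0 : ℝ × ℝ)
  have hfin : ((Finset.Icc (-⌈R⌉) ⌈R⌉ ×ˢ Finset.Icc (-⌈R⌉) ⌈R⌉ : Finset (ℤ × ℤ)) : Set Pt).Finite :=
    Finset.finite_toSet _
  apply hfin.subset
  intro v hv
  have h1 := hR hv
  rw [mem_closedBall_zero_iff] at h1
  have h2 : |(v.1 : ℝ)| ≤ R := le_trans (norm_fst_le (emb v)) h1
  have h3 : |(v.2 : ℝ)| ≤ R := le_trans (norm_snd_le (emb v)) h1
  rw [abs_le] at h2 h3
  have h4 := Int.le_ceil R
  simp only [Finset.coe_product, Finset.coe_Icc, mem_prod, mem_Icc]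
  refine ⟨⟨?_, ?_⟩, ?_, ?_⟩
  · have : (-(⌈R⌉ : ℝ)) ≤ v.1 := by linarith
    exact_mod_cast this
  · have : (v.1 : ℝ) ≤ ⌈R⌉ := by linarith
    exact_mod_cast this
  · have : (-(⌈R⌉ : ℝ)) ≤ v.2 := by linarith
    exact_mod_cast this
  · have : (v.2 : ℝ) ≤ ⌈R⌉ := by linarith
    exact_mod_cast this

lemma s_pos (B : X.Bad z a b c) : 0 < et a b (c - z) := by
  have := B.hp; have := B.hq; unfold et; linarith

/-- a level gap free of lattice points below the level of `c` -/
lemma exists_gap (B : X.Bad z a b c) : ∃ r : ℝ, 0 ≤ r ∧ r < et a b (c - z) ∧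
    ∀ v : Pt, 0 ≤ cP a b (emb v - z) → 0 ≤ cQ a b (emb v - z) →
      et a b (emb v - z) < et a b (c - z) → et a b (emb v - z) ≤ r := by
  classical
  have hfin := finite_lattice (isCompact_tri (z := z) B.D (et a b (c - z))).isBounded
  set S : Finset ℝ := insert 0 ((hfin.toFinset.image (fun v => et a b (emb v - z))).filter
    (fun t => t < et a b (c - z))) with hS
  have hne : S.Nonempty := ⟨0, by simp [hS]⟩
  refine ⟨S.max' hne, S.le_max' 0 (by simp [hS]), ?_, ?_⟩
  · rw [Finset.max'_lt_iff]
    intro y hy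
    rw [hS, Finset.mem_insert, Finset.mem_filter] at hy
    rcases hy with rfl | hy
    · exact B.s_pos
    · exact hy.2
  · intro v h1 h2 h3
    apply S.le_max'
    rw [hS, Finset.mem_insert, Finset.mem_filter, Finset.mem_image]
    right
    exact ⟨⟨v, by rw [Set.Finite.mem_toFinset]; exact ⟨h1, h2, h3.le⟩, rfl⟩, h3⟩

lemma isCompact_hull (t : Finset Pt) : IsCompact (hull t) := by
  unfold hull
  apply Set.Finite.isCompact_convexHull
  exact (Finset.finite_toSet t).image _

lemma convex_hull (t : Finset Pt) : Convex ℝ (hull t) := convex_convexHull ℝ _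

lemma mem_hull_self {t : Finset Pt} {v : Pt} (h : v ∈ t) : emb v ∈ hull t :=
  subset_convexHull ℝ _ ⟨v, h, rfl⟩

/-- the finitely many visible triangles meeting the part of the triangle below `c` -/
lemma finite_low (B : X.Bad z a b c) :
    {t : Pt × Pt × Pt | X.V t.1 t.2.1 t.2.2 ∧ (hull {t.1, t.2.1, t.2.2} ∩ B.low).Nonempty}.Finite := by
  obtain ⟨r, hr0, hrs, hr⟩ := B.exists_gap
  have hD := B.D
  -- the compact set
  set C : Set (ℝ × ℝ) := {y | 0 ≤ cP a b (y - z) ∧ 0 ≤ cQ a b (y - z) ∧ et a b (y - z) ≤ r} ∪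
    ((fun p : ℝ => z + p • a) '' Icc 0 1 ∪ (fun q : ℝ => z + q • b) '' Icc 0 1) with hC
  have hCc : IsCompact C := by
    apply (isCompact_tri hD r).union
    exact (isCompact_Icc.image (by fun_prop)).union (isCompact_Icc.image (by fun_prop))
  have hCO : C ⊆ X.Om := by
    rintro y (hy | ⟨p, hp, rfl⟩ | ⟨q, hq, rfl⟩)
    · exact B.below y hy.1 hy.2.1 (lt_of_le_of_lt hy.2.2 hrs)
    · exact B.za p hp.1 hp.2
    · exact B.zb q hq.1 hq.2
  apply (X.finite_meets hCc hCO).subset
  rintro ⟨p1, p2, p3⟩ ⟨hV, y0, hy0, hy0'⟩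
  refine ⟨hV, ?_⟩
  simp only at hV hy0 ⊢
  by_contra hne
  rw [Set.not_nonempty_iff_eq_empty] at hne
  have hnot : ∀ y, y ∈ hull {p1, p2, p3} → y ∉ C := by
    intro y h1 h2
    have : y ∈ hull {p1, p2, p3} ∩ C := ⟨h1, h2⟩
    rw [hne] at this
    exact this
  -- the minimiser of the level
  set K := hull {p1, p2, p3} ∩ {y | 0 ≤ cP a b (y - z) ∧ 0 ≤ cQ a b (y - z) ∧
    et a b (y - z) ≤ 1} with hK
  have hKc : IsCompact K := (isCompact_hull _).inter_right (isCompact_tri hD 1).isClosed
  have hK0 : y0 ∈ K := ⟨hy0, hy0'.1, hy0'.2.1, le_of_lt (lt_of_lt_of_le hy0'.2.2 B.hs)⟩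
  obtain ⟨P, hPK, hPmin⟩ := hKc.exists_isMinOn ⟨y0, hK0⟩ (continuous_et (z := z)).continuousOn
  have hPs : et a b (P - z) < et a b (c - z) := lt_of_le_of_lt (hPmin hK0) hy0'.2.2
  have hP1 : et a b (P - z) < 1 := lt_of_lt_of_le hPs B.hs
  have hPC := hnot P hPK.1
  -- strictly inside
  have hPp : 0 < cP a b (P - z) := by
    rcases hPK.2.1.lt_or_eq with h | h
    · exact h
    · exfalso
      apply hPC
      right; right
      refine ⟨cQ a b (P - z), ⟨hPK.2.2.1, ?_⟩, ?_⟩
      · have := hPK.2.2.2; unfold et at this; linarith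
      · have := eq_of (z := z) hD P
        rw [← h, zero_smul, zero_add] at this
        exact this.symm
  have hPq : 0 < cQ a b (P - z) := by
    rcases hPK.2.2.1.lt_or_eq with h | h
    · exact h
    · exfalso
      apply hPC
      right; left
      refine ⟨cP a b (P - z), ⟨hPK.2.1, ?_⟩, ?_⟩
      · have := hPK.2.2.2; unfold et at this; linarith
      · have := eq_of (z := z) hD P
        rw [← h, zero_smul, add_zero] at this
        exact this.symm
  have hPr : r < et a b (P - z) := by
    by_contra h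
    exact hPC (Or.inl ⟨hPK.2.1, hPK.2.2.1, not_lt.mp h⟩)
  -- global minimiser over the hull
  have hglob : ∀ y ∈ hull {p1, p2, p3}, et a b (P - z) ≤ et a b (y - z) := by
    intro y hy
    by_contra hlt
    push Not at hlt
    obtain ⟨τ, hτ0, hτ1, h1, h2⟩ : ∃ τ : ℝ, 0 < τ ∧ τ ≤ 1 ∧
        0 ≤ cP a b (P - z) + τ * cP a b (y - P) ∧ 0 ≤ cQ a b (P - z) + τ * cQ a b (y - P) := by
      have c1 : Filter.Tendsto (fun τ : ℝ => cP a b (P - z) + τ * cP a b (y - P))
          (nhdsWithin 0 (Ioi 0)) (nhds (cP a b (P - z) + 0 * cP a b (y - P))) := by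
        apply tendsto_nhdsWithin_of_tendsto_nhds
        apply Continuous.tendsto; fun_prop
      have c2 : Filter.Tendsto (fun τ : ℝ => cQ a b (P - z) + τ * cQ a b (y - P))
          (nhdsWithin 0 (Ioi 0)) (nhds (cQ a b (P - z) + 0 * cQ a b (y - P))) := by
        apply tendsto_nhdsWithin_of_tendsto_nhds
        apply Continuous.tendsto; fun_prop
      have e1 := c1.eventually (lt_mem_nhds (a := 0) (by simpa using hPp))
      have e2 := c2.eventually (lt_mem_nhds (a := 0) (by simpa using hPq))
      have e3 : ∀ᶠ τ : ℝ in nhdsWithin 0 (Ioi 0), τ < 1 :=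
        mem_nhdsWithin_of_mem_nhds (Iio_mem_nhds (by norm_num))
      obtain ⟨τ, ⟨⟨h1, h2⟩, h3⟩, h4⟩ := (((e1.and e2).and e3).and self_mem_nhdsWithin).exists
      exact ⟨τ, h4, h3.le, h1.le, h2.le⟩
    have e : P + τ • (y - P) - z = (P - z) + τ • (y - P) := by abel
    have hlev : et a b (P + τ • (y - P) - z) < et a b (P - z) := by
      rw [e, et_add, et_smul]
      have : et a b (y - P) = et a b (y - z) - et a b (P - z) := by
        rw [← et_sub]; congr 1; abel
      rw [this]
      have : τ * (et a b (y - z) - et a b (P - z)) < 0 :=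
        mul_neg_of_pos_of_neg hτ0 (by linarith)
      linarith
    have hmem : P + τ • (y - P) ∈ K := by
      refine ⟨?_, ?_, ?_, ?_⟩
      · exact (convex_hull _).add_smul_sub_mem hPK.1 hy ⟨hτ0.le, hτ1⟩
      · show 0 ≤ cP a b (P + τ • (y - P) - z)
        rw [e, cP_add, cP_smul]; exact h1
      · show 0 ≤ cQ a b (P + τ • (y - P) - z)
        rw [e, cQ_add, cQ_smul]; exact h2
      · show et a b (P + τ • (y - P) - z) ≤ 1
        linarith
    have := hPmin hmem
    simp only [mem_ofPred_eq] at this
    linarith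
  -- a vertex with the same level
  obtain ⟨v, hv, hvl⟩ : ∃ v : Pt, v ∈ ({p1, p2, p3} : Finset Pt) ∧
      et a b (emb v - z) = et a b (P - z) := by
    by_contra hcon
    push Not at hcon
    have hgt : ∀ v ∈ ({p1, p2, p3} : Finset Pt), et a b (P - z) < et a b (emb v - z) :=
      fun v hv => lt_of_le_of_ne (hglob _ (mem_hull_self hv)) (Ne.symm (hcon v hv))
    have hsub : hull {p1, p2, p3} ⊆ {y | et a b (P - z) < et a b (y - z)} := by
      apply convexHull_min
      · rintro _ ⟨v, hv, rfl⟩
        exact hgt v hv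
      · intro y1 h1 y2 h2 s t hs ht hst
        show et a b (P - z) < et a b (s • y1 + t • y2 - z)
        have : s • y1 + t • y2 - z = s • (y1 - z) + t • (y2 - z) := by
          rw [smul_sub, smul_sub]
          have : z = s • z + t • z := by rw [← add_smul, hst, one_smul]
          nth_rewrite 1 [this]; abel
        rw [this, et_add, et_smul, et_smul]
        have h1 : et a b (P - z) < et a b (y1 - z) := h1
        have h2 : et a b (P - z) < et a b (y2 - z) := h2
        rcases hs.lt_or_eq with hs' | hs'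
        · have := mul_lt_mul_of_pos_left h1 hs'
          have := mul_le_mul_of_nonneg_left h2.le ht
          nlinarith
        · have ht1 : t = 1 := by linarith
          rw [← hs', ht1]; linarith
    exact lt_irrefl (et a b (P - z)) (hsub hPK.1)
  have hvh : emb v ∈ hull {p1, p2, p3} := mem_hull_self hv
  by_cases hin : 0 ≤ cP a b (emb v - z) ∧ 0 ≤ cQ a b (emb v - z)
  · have := hr v hin.1 hin.2 (by rw [hvl]; exact hPs)
    rw [hvl] at this
    linarith
  · -- the segment from `P` to `v` leaves through a side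
    have hexit : ∀ f : ℝ × ℝ → ℝ, True := fun _ => trivial
    have key : ∃ τ : ℝ, 0 ≤ τ ∧ τ ≤ 1 ∧
        ((cP a b (P + τ • (emb v - P) - z) = 0 ∧ 0 ≤ cQ a b (P + τ • (emb v - P) - z)) ∨
         (cQ a b (P + τ • (emb v - P) - z) = 0 ∧ 0 ≤ cP a b (P + τ • (emb v - P) - z))) := by
      have e : ∀ τ : ℝ, P + τ • (emb v - P) - z = (P - z) + τ • (emb v - P) := fun τ => by abel
      have hsum : ∀ τ : ℝ, cP a b (P + τ • (emb v - P) - z) + cQ a b (P + τ • (emb v - P) - z) =
          et a b (P - z) := by
        intro τ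
        have : cP a b (P + τ • (emb v - P) - z) + cQ a b (P + τ • (emb v - P) - z) =
          et a b (P + τ • (emb v - P) - z) := rfl
        rw [this, e, et_add, et_smul]
        have : et a b (emb v - P) = et a b (emb v - z) - et a b (P - z) := by
          rw [← et_sub]; congr 1; abel
        rw [this, hvl]; ring
      have hpos : 0 ≤ et a b (P - z) := by linarith
      rcases lt_or_ge (cP a b (emb v - z)) 0 with h | h
      · set A := cP a b (P - z)
        set A' := cP a b (emb v - z)
        refine ⟨A / (A - A'), div_nonneg hPp.le (by linarith), ?_, Or.inl ?_⟩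
        · rw [div_le_one (by linarith)]; linarith
        · have h0 : cP a b (P + (A / (A - A')) • (emb v - P) - z) = 0 := by
            rw [e, cP_add, cP_smul]
            have : cP a b (emb v - P) = A' - A := by rw [← cP_sub]; congr 1; abel
            rw [this]
            have hne : A - A' ≠ 0 := by
              have : 0 < A - A' := by linarith
              exact this.ne'
            field_simp
            ring
          refine ⟨h0, ?_⟩
          have := hsum (A / (A - A'))
          rw [h0] at this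
          linarith
      · have hq : cQ a b (emb v - z) < 0 := by
          by_contra hq
          exact hin ⟨h, not_lt.mp hq⟩
        set A := cQ a b (P - z)
        set A' := cQ a b (emb v - z)
        refine ⟨A / (A - A'), div_nonneg hPq.le (by linarith), ?_, Or.inr ?_⟩
        · rw [div_le_one (by linarith)]; linarith
        · have h0 : cQ a b (P + (A / (A - A')) • (emb v - P) - z) = 0 := by
            rw [e, cQ_add, cQ_smul]
            have : cQ a b (emb v - P) = A' - A := by rw [← cQ_sub]; congr 1; abel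
            rw [this]
            have hne : A - A' ≠ 0 := by
              have : 0 < A - A' := by linarith
              exact this.ne'
            field_simp
            ring
          refine ⟨h0, ?_⟩
          have := hsum (A / (A - A'))
          rw [h0] at this
          linarith
    obtain ⟨τ, h0, h1, hk⟩ := key
    set y := P + τ • (emb v - P) with hy
    have hyh : y ∈ hull {p1, p2, p3} := (convex_hull _).add_smul_sub_mem hPK.1 hvh ⟨h0, h1⟩
    have hlev : et a b (y - z) = et a b (P - z) := by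
      have : y - z = (P - z) + τ • (emb v - P) := by rw [hy]; abel
      rw [this, et_add, et_smul]
      have : et a b (emb v - P) = et a b (emb v - z) - et a b (P - z) := by
        rw [← et_sub]; congr 1; abel
      rw [this, hvl]; ring
    apply hnot y hyh
    rcases hk with ⟨k1, k2⟩ | ⟨k1, k2⟩
    · right; right
      refine ⟨cQ a b (y - z), ⟨k2, ?_⟩, ?_⟩
      · unfold et at hlev hP1; linarith
      · have := eq_of (z := z) hD y
        rw [k1, zero_smul, zero_add] at this
        exact this.symm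
    · right; left
      refine ⟨cP a b (y - z), ⟨k2, ?_⟩, ?_⟩
      · unfold et at hlev hP1; linarith
      · have := eq_of (z := z) hD y
        rw [k1, zero_smul, add_zero] at this
        exact this.symm

lemma cast_det3 (p q r : Pt) : ((det3 p q r : ℤ) : ℝ) = cr (emb q - emb p) (emb r - emb p) := by
  simp only [det3, cr, emb, Prod.fst_sub, Prod.snd_sub]; push_cast; ring

lemma three_vec (u v w : ℝ × ℝ) : cr u w * et a b v = cr v w * et a b u + cr u v * et a b w := by
  have h : cr u w • v = cr v w • u + cr u v • w := by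
    ext
    · simp only [Prod.smul_fst, Prod.fst_add, smul_eq_mul, cr]; ring
    · simp only [Prod.smul_snd, Prod.snd_add, smul_eq_mul, cr]; ring
  have := congrArg (et a b) h
  rw [et_smul, et_add, et_smul, et_smul] at this
  exact this

/-- a visible triangle at a lattice point `p = c` with an edge direction of negative level -/
lemma vertex_false (B : X.Bad z a b c) {p q r : Pt} (hV : X.V p q r) (hc : c = emb p)
    (hneg : et a b (emb q - emb p) < 0 ∨ et a b (emb r - emb p) < 0) : False := by
  rcases X.corner hV with h | ⟨n, w, h0, _⟩ | ⟨w, hw0, hw1, hwV, hwd⟩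
  · have : emb p ∈ X.Om := (X.closedAt_iff p).mp h
    exact B.c_not (hc ▸ this)
  · exact B.no_wall h0 0 (by rw [zero_smul, add_zero]; exact hc)
  · set J : Set ℤ := {i | et a b (emb (w i) - emb p) < 0} with hJ
    have hinj : Function.Injective w := by
      intro i j hij
      by_contra hne
      rcases lt_or_gt_of_ne hne with h | h
      · have := hwd i j h
        rw [hij] at this
        have e : det3 p (w j) (w j) = 0 := by unfold det3; ring
        omega
      · have := hwd j i h
        rw [hij] at this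
        have e : det3 p (w j) (w j) = 0 := by unfold det3; ring
        omega
    have hJfin : J.Finite := by
      have hf : Set.InjOn (fun i : ℤ => ((p, w i, w (i + 1)) : Pt × Pt × Pt)) J := by
        intro i _ j _ hij
        simp only [Prod.mk.injEq] at hij
        exact hinj hij.2.1
      apply Set.Finite.of_finite_image _ hf
      apply B.finite_low.subset
      rintro _ ⟨i, hi, rfl⟩
      refine ⟨hwV i, ?_⟩
      have hi : et a b (emb (w i) - emb p) < 0 := hi
      set d := emb (w i) - emb p with hd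
      obtain ⟨τ, hτ0, hτ1, h1, h2⟩ : ∃ τ : ℝ, 0 < τ ∧ τ ≤ 1 ∧
          0 ≤ cP a b (c - z) + τ * cP a b d ∧ 0 ≤ cQ a b (c - z) + τ * cQ a b d := by
        have c1 : Filter.Tendsto (fun τ : ℝ => cP a b (c - z) + τ * cP a b d)
            (nhdsWithin 0 (Ioi 0)) (nhds (cP a b (c - z) + 0 * cP a b d)) := by
          apply tendsto_nhdsWithin_of_tendsto_nhds
          apply Continuous.tendsto; fun_prop
        have c2 : Filter.Tendsto (fun τ : ℝ => cQ a b (c - z) + τ * cQ a b d)
            (nhdsWithin 0 (Ioi 0)) (nhds (cQ a b (c - z) + 0 * cQ a b d)) := by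
          apply tendsto_nhdsWithin_of_tendsto_nhds
          apply Continuous.tendsto; fun_prop
        have e1 := c1.eventually (lt_mem_nhds (a := 0) (by simpa using B.hp))
        have e2 := c2.eventually (lt_mem_nhds (a := 0) (by simpa using B.hq))
        have e3 : ∀ᶠ τ : ℝ in nhdsWithin 0 (Ioi 0), τ < 1 :=
          mem_nhdsWithin_of_mem_nhds (Iio_mem_nhds (by norm_num))
        obtain ⟨τ, ⟨⟨h1, h2⟩, h3⟩, h4⟩ := (((e1.and e2).and e3).and self_mem_nhdsWithin).exists
        exact ⟨τ, h4, h3.le, h1.le, h2.le⟩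
      have e : c + τ • d - z = (c - z) + τ • d := by abel
      refine ⟨c + τ • d, ?_, ?_, ?_, ?_⟩
      · rw [hc, hd]
        exact (convex_hull _).add_smul_sub_mem (mem_hull_self (by simp))
          (mem_hull_self (by simp)) ⟨hτ0.le, hτ1⟩
      · show 0 ≤ cP a b (c + τ • d - z)
        rw [e, cP_add, cP_smul]; exact h1
      · show 0 ≤ cQ a b (c + τ • d - z)
        rw [e, cQ_add, cQ_smul]; exact h2
      · show et a b (c + τ • d - z) < et a b (c - z)
        rw [e, et_add, et_smul]
        have := mul_neg_of_pos_of_neg hτ0 hi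
        linarith
    obtain ⟨i, hi⟩ : J.Nonempty := by
      rcases hneg with h | h
      · exact ⟨0, by show et a b (emb (w 0) - emb p) < 0; rw [hw0]; exact h⟩
      · exact ⟨1, by show et a b (emb (w 1) - emb p) < 0; rw [hw1]; exact h⟩
    obtain ⟨lo, hlo⟩ := hJfin.bddBelow
    obtain ⟨up, hup⟩ := hJfin.bddAbove
    have hl : ¬ (lo - 1) ∈ J := fun h => by have := hlo h; omega
    have hu : ¬ (up + 1) ∈ J := fun h => by have := hup h; omega
    have hli : lo - 1 < i := by have := hlo hi; omega
    have hiu : i < up + 1 := by have := hup hi; omega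
    have hl' : 0 ≤ et a b (emb (w (lo - 1)) - emb p) := not_lt.mp hl
    have hu' : 0 ≤ et a b (emb (w (up + 1)) - emb p) := not_lt.mp hu
    have hi' : et a b (emb (w i) - emb p) < 0 := hi
    have d1 : (0 : ℝ) < cr (emb (w (lo - 1)) - emb p) (emb (w i) - emb p) := by
      rw [← cast_det3]; exact_mod_cast hwd _ _ hli
    have d2 : (0 : ℝ) < cr (emb (w i) - emb p) (emb (w (up + 1)) - emb p) := by
      rw [← cast_det3]; exact_mod_cast hwd _ _ hiu
    have d3 : (0 : ℝ) < cr (emb (w (lo - 1)) - emb p) (emb (w (up + 1)) - emb p) := by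
      rw [← cast_det3]; exact_mod_cast hwd _ _ (hli.trans hiu)
    have h3 := three_vec (a := a) (b := b) (emb (w (lo - 1)) - emb p) (emb (w i) - emb p)
      (emb (w (up + 1)) - emb p)
    have n1 := mul_neg_of_pos_of_neg d3 hi'
    have n2 := mul_nonneg d2.le hl'
    have n3 := mul_nonneg d1.le hu'
    linarith

/-- an open edge through `c` is impossible -/
lemma edge_false (B : X.Bad z a b c) {p q r : Pt} (hV : X.V p q r) {s : ℝ} (h0 : 0 < s)
    (h1 : s < 1) (hc : c = emb p + s • (emb q - emb p)) : False := by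
  rcases X.opp hV with ⟨d, hd⟩ | hW
  · exact B.c_not (hc ▸ X.edge_mem_Om hV hd h0 h1)
  · exact B.no_wall hW s hc

theorem false (B : X.Bad z a b c) : False := by
  classical
  set y : ℕ → ℝ × ℝ := fun k => c + (1 / ((k : ℝ) + 2)) • (z - c) with hy
  have hδ : ∀ k : ℕ, 0 < 1 / ((k : ℝ) + 2) ∧ 1 / ((k : ℝ) + 2) < 1 := by
    intro k
    have hk : (0 : ℝ) ≤ k := Nat.cast_nonneg k
    refine ⟨by positivity, ?_⟩
    rw [div_lt_one (by linarith)]; linarith
  have hyz : ∀ k, y k - z = (1 - 1 / ((k : ℝ) + 2)) • (c - z) := by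
    intro k
    simp only [hy, sub_smul, one_smul]
    rw [show z - c = -(c - z) by abel, smul_neg]; abel
  have hlow : ∀ k, y k ∈ B.low := by
    intro k
    obtain ⟨h1, h2⟩ := hδ k
    have := B.hp; have := B.hq; have := B.s_pos
    refine ⟨?_, ?_, ?_⟩
    · show 0 ≤ cP a b (y k - z)
      rw [hyz, cP_smul]; exact mul_nonneg (by linarith) B.hp.le
    · show 0 ≤ cQ a b (y k - z)
      rw [hyz, cQ_smul]; exact mul_nonneg (by linarith) B.hq.le
    · show et a b (y k - z) < et a b (c - z)
      rw [hyz, et_smul]; nlinarith [B.s_pos]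
  have hcov : ∀ k, ∃ t : Pt × Pt × Pt, X.V t.1 t.2.1 t.2.2 ∧ y k ∈ hull {t.1, t.2.1, t.2.2} := by
    intro k
    obtain ⟨F, hF, hn⟩ := B.below (y k) (hlow k).1 (hlow k).2.1 (hlow k).2.2
    have := mem_of_mem_nhds hn
    simp only [mem_iUnion, exists_prop] at this
    obtain ⟨t, ht, hyt⟩ := this
    exact ⟨t, hF t ht, hyt⟩
  choose t ht hyt using hcov
  have hfin := B.finite_low
  have htG : ∀ k, t k ∈ {t : Pt × Pt × Pt | X.V t.1 t.2.1 t.2.2 ∧
      (hull {t.1, t.2.1, t.2.2} ∩ B.low).Nonempty} := fun k => ⟨ht k, y k, hyt k, hlow k⟩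
  have : Finite ({t : Pt × Pt × Pt | X.V t.1 t.2.1 t.2.2 ∧
      (hull {t.1, t.2.1, t.2.2} ∩ B.low).Nonempty} : Set (Pt × Pt × Pt)) := hfin.to_subtype
  obtain ⟨⟨τ, hτ⟩, hinf⟩ := Finite.exists_infinite_fiber
    (fun k : ℕ => (⟨t k, htG k⟩ : {t : Pt × Pt × Pt | X.V t.1 t.2.1 t.2.2 ∧
      (hull {t.1, t.2.1, t.2.2} ∩ B.low).Nonempty}))
  have hfreq : ∃ᶠ k in Filter.atTop, y k ∈ hull {τ.1, τ.2.1, τ.2.2} := by
    rw [Nat.frequently_atTop_iff_infinite]
    apply (Set.infinite_coe_iff.mp hinf).mono
    intro k hk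
    have : t k = τ := by
      have := hk
      simp only [mem_preimage, mem_singleton_iff, Subtype.mk.injEq] at this
      exact this
    show y k ∈ hull {τ.1, τ.2.1, τ.2.2}
    rw [← this]; exact hyt k
  have htend : Filter.Tendsto y Filter.atTop (nhds c) := by
    have : Filter.Tendsto (fun k : ℕ => c + (1 / ((k : ℝ) + 2)) • (z - c)) Filter.atTop
        (nhds (c + (0 : ℝ) • (z - c))) := by
      apply Filter.Tendsto.const_add
      apply Filter.Tendsto.smul_const
      apply Filter.Tendsto.const_div_atTop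
      exact Filter.tendsto_atTop_add_const_right _ _ tendsto_natCast_atTop_atTop
    rw [zero_smul, add_zero] at this
    exact this
  have hcτ : c ∈ hull {τ.1, τ.2.1, τ.2.2} :=
    (isCompact_hull _).isClosed.mem_of_frequently_of_tendsto hfreq htend
  obtain ⟨k, hk⟩ := hfreq.exists
  have hV := hτ.1
  obtain ⟨p, q, r⟩ := τ
  simp only at hV hk hcτ
  -- the level of `y k - c` is negative
  have hneg : et a b (y k - c) < 0 := by
    have : y k - c = (1 / ((k : ℝ) + 2)) • (z - c) := by simp only [hy]; abel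
    rw [this, et_smul, show z - c = (-1 : ℝ) • (c - z) by rw [neg_one_smul]; abel, et_smul]
    have h1 := (hδ k).1
    have h2 := B.s_pos
    nlinarith
  have hvert : ∀ p q r : Pt, X.V p q r → y k ∈ hull {p, q, r} → c = emb p → False := by
    intro p q r hV hk hc
    rw [mem_hull_iff] at hk
    obtain ⟨s1, s2, h1, h2, _, h4⟩ := hk
    apply B.vertex_false hV hc
    by_contra hcon
    push Not at hcon
    have : y k - c = s1 • (emb q - emb p) + s2 • (emb r - emb p) := by rw [h4, hc]; abel
    rw [this, et_add, et_smul, et_smul] at hneg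
    have := mul_nonneg h1 hcon.1
    have := mul_nonneg h2 hcon.2
    linarith
  have e1 : ({p, q, r} : Finset Pt) = {q, r, p} := by
    ext x; simp only [Finset.mem_insert, Finset.mem_singleton]; tauto
  have e2 : ({p, q, r} : Finset Pt) = {r, p, q} := by
    ext x; simp only [Finset.mem_insert, Finset.mem_singleton]; tauto
  rcases X.mem_hull_cases hV hcτ with h | h | h | h | ⟨s, h0, h1, h⟩ | ⟨s, h0, h1, h⟩ |
    ⟨s, h0, h1, h⟩
  · exact B.c_not (X.interior_subset_Om hV h)
  · exact hvert p q r hV hk h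
  · exact hvert q r p (X.rot hV) (e1 ▸ hk) h
  · exact hvert r p q (X.rot (X.rot hV)) (e2 ▸ hk) h
  · exact B.edge_false hV h0 h1 h
  · exact B.edge_false (X.rot hV) h0 h1 h
  · exact B.edge_false (X.rot (X.rot hV)) h0 h1 h

end Bad

end MP01b126.Lim
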