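import Pool.Agent.Lib.MP_01b126_co.St.Transport

/-!
# MP_01b126_co, STRUCTURE: transport of the region and of the outcomes
-/

namespace MP01b126.Lim

open Set

lemma emb_fst (p : Pt) : (emb p).1 = p.1 := rfl
lemma emb_snd (p : Pt) : (emb p).2 = p.2 := rfl

lemma emb_injective : Function.Injective emb := by
  intro a b h
  have h1 := congrArg Prod.fst h
  have h2 := congrArg Prod.snd h
  simp only [emb_fst, emb_snd, Int.cast_inj] at h1 h2
  exact Prod.ext h1 h2

/-- the real affine map of a frame, as a homeomorphism of the plane -/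
noncomputable def frH (o u w : Pt) (h : dt u w = 1) : (ℝ × ℝ) ≃ₜ (ℝ × ℝ) where
  toFun x := (o.1 + x.1 * u.1 + x.2 * w.1, o.2 + x.1 * u.2 + x.2 * w.2)
  invFun x := ((x.1 - o.1) * w.2 - (x.2 - o.2) * w.1, u.1 * (x.2 - o.2) - u.2 * (x.1 - o.1))
  left_inv x := by
    have h' : (u.1 : ℝ) * w.2 - u.2 * w.1 = 1 := by
      unfold dt at h; exact_mod_cast h
    ext
    · simp only; linear_combination x.1 * h'
    · simp only; linear_combination x.2 * h'
  right_inv x := by
    have h' : (u.1 : ℝ) * w.2 - u.2 * w.1 = 1 := by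
      unfold dt at h; exact_mod_cast h
    ext
    · simp only; linear_combination (x.1 - o.1) * h'
    · simp only; linear_combination (x.2 - o.2) * h'
  continuous_toFun := by fun_prop
  continuous_invFun := by fun_prop

section

variable {o u w : Pt} (h : dt u w = 1)

lemma frH_fst (x : ℝ × ℝ) : (frH o u w h x).1 = o.1 + x.1 * u.1 + x.2 * w.1 := rfl
lemma frH_snd (x : ℝ × ℝ) : (frH o u w h x).2 = o.2 + x.1 * u.2 + x.2 * w.2 := rfl

lemma frH_emb (p : Pt) : frH o u w h (emb p) = emb (fr o u w p) := by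
  ext
  · simp only [frH_fst, emb_fst, fr_fst, emb_snd]; push_cast; ring
  · simp only [frH_snd, emb_snd, fr_snd, emb_fst]; push_cast; ring

lemma frH_comb (a b c : Pt) (s t : ℝ) :
    frH o u w h (emb a + s • (emb b - emb a) + t • (emb c - emb a)) =
    emb (fr o u w a) + s • (emb (fr o u w b) - emb (fr o u w a)) +
      t • (emb (fr o u w c) - emb (fr o u w a)) := by
  ext
  · simp only [frH_fst, emb_fst, emb_snd, fr_fst, Prod.fst_add, Prod.snd_add, Prod.smul_fst,
      Prod.smul_snd, smul_eq_mul, Prod.fst_sub, Prod.snd_sub]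
    push_cast; ring
  · simp only [frH_snd, emb_fst, emb_snd, fr_snd, Prod.fst_add, Prod.snd_add, Prod.smul_fst,
      Prod.smul_snd, smul_eq_mul, Prod.fst_sub, Prod.snd_sub]
    push_cast; ring

lemma mem_hull_tr {a b c : Pt} (x : ℝ × ℝ) :
    x ∈ hull {a, b, c} ↔ frH o u w h x ∈ hull {fr o u w a, fr o u w b, fr o u w c} := by
  rw [mem_hull_iff, mem_hull_iff]
  constructor
  · rintro ⟨s, t, hs, ht, hst, rfl⟩
    exact ⟨s, t, hs, ht, hst, frH_comb h a b c s t⟩
  · rintro ⟨s, t, hs, ht, hst, he⟩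
    refine ⟨s, t, hs, ht, hst, ?_⟩
    rw [← frH_comb h] at he
    exact (frH o u w h).injective he

variable (X : Lim)

/-- images of finite families -/
noncomputable def mapT (o u w : Pt) (F : Finset (Pt × Pt × Pt)) : Finset (Pt × Pt × Pt) :=
  F.image (fun t => (fr o u w t.1, fr o u w t.2.1, fr o u w t.2.2))
/-- images of finite families -/
noncomputable def mapTi (o u w : Pt) (F : Finset (Pt × Pt × Pt)) : Finset (Pt × Pt × Pt) :=
  F.image (fun t => (fri o u w t.1, fri o u w t.2.1, fri o u w t.2.2))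

lemma mapT_V {F : Finset (Pt × Pt × Pt)} (hF : ∀ t ∈ F, (X.tr o u w h).V t.1 t.2.1 t.2.2) :
    ∀ t ∈ mapT o u w F, X.V t.1 t.2.1 t.2.2 := by
  intro t ht
  obtain ⟨t', ht', rfl⟩ := Finset.mem_image.mp ht
  exact hF t' ht'

lemma mapTi_V {F : Finset (Pt × Pt × Pt)} (hF : ∀ t ∈ F, X.V t.1 t.2.1 t.2.2) :
    ∀ t ∈ mapTi o u w F, (X.tr o u w h).V t.1 t.2.1 t.2.2 := by
  intro t ht
  obtain ⟨t', ht', rfl⟩ := Finset.mem_image.mp ht
  rw [tr_V]
  simp only [fr_fri h]
  exact hF t' ht'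

include h in
lemma mapT_mapTi (F : Finset (Pt × Pt × Pt)) : mapT o u w (mapTi o u w F) = F := by
  unfold mapT mapTi
  rw [Finset.image_image]
  have : ((fun t : Pt × Pt × Pt => (fr o u w t.1, fr o u w t.2.1, fr o u w t.2.2)) ∘
      fun t : Pt × Pt × Pt => (fri o u w t.1, fri o u w t.2.1, fri o u w t.2.2)) = id := by
    funext t
    simp [fr_fri h]
  rw [this, Finset.image_id]

lemma preimage_mapT (F : Finset (Pt × Pt × Pt)) :
    (⋃ t ∈ F, hull {t.1, t.2.1, t.2.2}) =
      (frH o u w h) ⁻¹' (⋃ t ∈ mapT o u w F, hull {t.1, t.2.1, t.2.2}) := by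
  ext x
  simp only [mem_iUnion, exists_prop, mem_preimage, mapT, Finset.mem_image]
  constructor
  · rintro ⟨t, ht, hx⟩
    exact ⟨_, ⟨t, ht, rfl⟩, (mem_hull_tr h x).mp hx⟩
  · rintro ⟨_, ⟨t, ht, rfl⟩, hx⟩
    exact ⟨t, ht, (mem_hull_tr h x).mpr hx⟩

lemma mem_Om_tr (x : ℝ × ℝ) : x ∈ (X.tr o u w h).Om ↔ frH o u w h x ∈ X.Om := by
  constructor
  · rintro ⟨F, hF, hn⟩
    refine ⟨mapT o u w F, mapT_V h X hF, ?_⟩
    rw [preimage_mapT h] at hn
    have := (frH o u w h).isOpenMap.image_mem_nhds hn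
    rwa [image_preimage_eq _ (frH o u w h).surjective] at this
  · rintro ⟨F, hF, hn⟩
    refine ⟨mapTi o u w F, mapTi_V h X hF, ?_⟩
    rw [preimage_mapT h, mapT_mapTi h]
    exact (frH o u w h).continuous.continuousAt hn

lemma Om_tr : (X.tr o u w h).Om = (frH o u w h) ⁻¹' X.Om := by
  ext x; exact mem_Om_tr h X x

lemma mem_closure_Om_tr (x : ℝ × ℝ) :
    x ∈ closure (X.tr o u w h).Om ↔ frH o u w h x ∈ closure X.Om := by
  rw [Om_tr, ← (frH o u w h).preimage_closure]; rfl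

lemma hasRoom_of_tr (hR : (X.tr o u w h).HasRoom) : X.HasRoom := by
  obtain ⟨o', u', w', h', F, hF, hc⟩ := hR
  refine ⟨fr o u w o', u'.1 • u + u'.2 • w, w'.1 • u + w'.2 • w, by rw [dt_lin h]; exact h',
    mapT o u w F, mapT_V h X hF, ?_⟩
  rintro p ⟨x, y, h1, h2, h3, rfl⟩
  have : emb o' + x • emb u' + y • emb w' ∈ ⋃ t ∈ F, hull {t.1, t.2.1, t.2.2} :=
    hc ⟨x, y, h1, h2, h3, rfl⟩
  rw [preimage_mapT h, mem_preimage] at this
  convert this using 1
  ext
  · simp only [frH_fst, emb_fst, emb_snd, fr_fst, Prod.fst_add, Prod.snd_add, Prod.smul_fst,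
      Prod.smul_snd, smul_eq_mul]
    push_cast; ring
  · simp only [frH_snd, emb_fst, emb_snd, fr_snd, Prod.fst_add, Prod.snd_add, Prod.smul_fst,
      Prod.smul_snd, smul_eq_mul]
    push_cast; ring

lemma fr_add_smul (r v : Pt) (j : ℤ) :
    fr o u w (r + j • v) = fr o u w r + j • (v.1 • u + v.2 • w) := by
  ext
  · simp [fr]; ring
  · simp [fr]; ring

lemma fr_add (r v : Pt) :
    fr o u w (r + v) = fr o u w r + (v.1 • u + v.2 • w) := by
  ext
  · simp [fr]; ring
  · simp [fr]; ring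

lemma hasFan_of_tr {r : Pt} (hR : (X.tr o u w h).HasFan r) : X.HasFan (fr o u w r) := by
  obtain ⟨A, v, h1, h2⟩ := hR
  refine ⟨fr o u w A, v.1 • u + v.2 • w, ?_, ?_⟩
  · rw [fr_sub, dt_lin h]; exact h1
  · intro j
    have := h2 j
    rw [tr_VE, fr_add_smul] at this
    exact this

lemma hasStrip_of_tr {r : Pt} (hR : (X.tr o u w h).HasStrip r) : X.HasStrip (fr o u w r) := by
  obtain ⟨v, h1, h2⟩ := hR
  refine ⟨v.1 • u + v.2 • w, isCoprime_lin' h v h1, fun j => ⟨?_, ?_⟩⟩
  · have := (h2 j).1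
    rwa [tr_closedAt, fr_add_smul] at this
  · intro z hz
    have := (h2 j).2 (fri o u w z) (by
      rw [tr_VE, fr_fri h, fr_add_smul]; exact hz)
    rw [tr_W, fr_fri h, fr_add, fr_fri h] at this
    have e : dt (v.1 • u + v.2 • w) (z - (fr o u w r + j • (v.1 • u + v.2 • w))) =
        dt v (fri o u w z - (r + j • v)) := by
      rw [← fr_add_smul, ← dt_lin h v, ← fr_sub o, fr_fri h]
    rw [e]
    exact this

/-- transfer of the whole classification -/
lemma classify_of_tr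
    (hcl : ∀ r, (X.tr o u w h).ClosedAt r →
      (X.tr o u w h).HasRoom ∨ (X.tr o u w h).HasFan r ∨ (X.tr o u w h).HasStrip r)
    {r : Pt} (hr : X.ClosedAt r) : X.HasRoom ∨ X.HasFan r ∨ X.HasStrip r := by
  have := hcl (fri o u w r) (by rw [tr_closedAt, fr_fri h]; exact hr)
  rcases this with h1 | h1 | h1
  · exact Or.inl (hasRoom_of_tr h X h1)
  · right; left
    have := hasFan_of_tr h X h1
    rwa [fr_fri h] at this
  · right; right
    have := hasStrip_of_tr h X h1
    rwa [fr_fri h] at this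

end

end MP01b126.Lim
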