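import Pool.Agent.Lib.MP_01b126_co.St.Convex

/-!
# MP_01b126_co, STRUCTURE: transport of limit structures by affine unimodular maps
-/

namespace MP01b126.Lim

open Set

/-- the affine map of the frame `o, u, w` -/
def fr (o u w : Pt) (p : Pt) : Pt := o + p.1 • u + p.2 • w

/-- the inverse affine map -/
def fri (o u w : Pt) (p : Pt) : Pt := (dt (p - o) w, dt u (p - o))

lemma fr_fst (o u w p : Pt) : (fr o u w p).1 = o.1 + p.1 * u.1 + p.2 * w.1 := by
  simp [fr]
lemma fr_snd (o u w p : Pt) : (fr o u w p).2 = o.2 + p.1 * u.2 + p.2 * w.2 := by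
  simp [fr]

lemma fr_fri {o u w : Pt} (h : dt u w = 1) (p : Pt) : fr o u w (fri o u w p) = p := by
  unfold dt at h
  ext
  · rw [fr_fst]; simp only [fri, dt, Prod.fst_sub, Prod.snd_sub]
    linear_combination (p.1 - o.1) * h
  · rw [fr_snd]; simp only [fri, dt, Prod.fst_sub, Prod.snd_sub]
    linear_combination (p.2 - o.2) * h

lemma fri_fr {o u w : Pt} (h : dt u w = 1) (p : Pt) : fri o u w (fr o u w p) = p := by
  unfold dt at h
  ext
  · simp only [fri, dt, Prod.fst_sub, Prod.snd_sub, fr_fst, fr_snd]
    linear_combination p.1 * h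
  · simp only [fri, dt, Prod.fst_sub, Prod.snd_sub, fr_fst, fr_snd]
    linear_combination p.2 * h

lemma fr_injective {o u w : Pt} (h : dt u w = 1) : Function.Injective (fr o u w) :=
  Function.LeftInverse.injective (g := fri o u w) (fri_fr h)

lemma fr_surjective {o u w : Pt} (h : dt u w = 1) : Function.Surjective (fr o u w) :=
  Function.RightInverse.surjective (g := fri o u w) (fr_fri h)

lemma det3_fr {o u w : Pt} (h : dt u w = 1) (a b c : Pt) :
    det3 (fr o u w a) (fr o u w b) (fr o u w c) = det3 a b c := by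
  unfold dt at h
  simp only [det3, fr_fst, fr_snd]
  linear_combination ((b.1 - a.1) * (c.2 - a.2) - (b.2 - a.2) * (c.1 - a.1)) * h

lemma fr_add_sub (o u w a b : Pt) : fr o u w (b + (b - a)) =
    fr o u w b + (fr o u w b - fr o u w a) := by
  ext
  · simp only [fr_fst, Prod.fst_add, Prod.snd_add, Prod.fst_sub, Prod.snd_sub]; ring
  · simp only [fr_snd, Prod.fst_add, Prod.snd_add, Prod.fst_sub, Prod.snd_sub]; ring

lemma dt_lin {u w : Pt} (h : dt u w = 1) (a b : Pt) :
    dt (a.1 • u + a.2 • w) (b.1 • u + b.2 • w) = dt a b := by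
  unfold dt at h
  simp only [dt, Prod.fst_add, Prod.snd_add, Prod.smul_fst, Prod.smul_snd, smul_eq_mul]
  linear_combination (a.1 * b.2 - a.2 * b.1) * h

lemma fr_sub (o u w a b : Pt) : fr o u w a - fr o u w b = (a - b).1 • u + (a - b).2 • w := by
  ext
  · simp [fr]; ring
  · simp [fr]; ring

lemma isCoprime_lin {u w : Pt} (v : Pt)
    (hv : IsCoprime (v.1 • u + v.2 • w).1 (v.1 • u + v.2 • w).2) : IsCoprime v.1 v.2 := by
  obtain ⟨s, t, e⟩ := hv
  simp only [Prod.fst_add, Prod.snd_add, Prod.smul_fst, Prod.smul_snd, smul_eq_mul] at e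
  exact ⟨s * u.1 + t * u.2, s * w.1 + t * w.2, by linear_combination e⟩

lemma isCoprime_lin' {u w : Pt} (h : dt u w = 1) (v : Pt) (hv : IsCoprime v.1 v.2) :
    IsCoprime (v.1 • u + v.2 • w).1 (v.1 • u + v.2 • w).2 := by
  obtain ⟨s, t, e⟩ := hv
  unfold dt at h
  simp only [Prod.fst_add, Prod.snd_add, Prod.smul_fst, Prod.smul_snd, smul_eq_mul]
  exact ⟨s * w.2 - t * u.2, t * u.1 - s * w.1, by
    linear_combination e + (s * v.1 + t * v.2) * h⟩

variable (X : Lim)

/-- the transported structure -/
def tr (o u w : Pt) (h : dt u w = 1) : Lim where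
  V a b c := X.V (fr o u w a) (fr o u w b) (fr o u w c)
  W a b := X.W (fr o u w a) (fr o u w b)
  det hV := by
    rw [← det3_fr (o := o) h]; exact X.det hV
  rot hV := X.rot hV
  sep {a b c a' b' c'} hV hV' hne := by
    have hne' : ({fr o u w a, fr o u w b, fr o u w c} : Finset Pt) ≠
        {fr o u w a', fr o u w b', fr o u w c'} := by
      intro he
      apply hne
      have := congrArg (fun s : Finset Pt => s.image (fri o u w)) he
      simpa [Finset.image_insert, fri_fr h] using this
    have key : ∀ {s t : Finset Pt}, SideSep (s.image (fr o u w)) (t.image (fr o u w)) →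
        SideSep s t := by
      rintro s t ⟨a, ha, b, hb, hab, h1, h2⟩
      obtain ⟨a', ha', rfl⟩ := Finset.mem_image.mp ha
      obtain ⟨b', hb', rfl⟩ := Finset.mem_image.mp hb
      refine ⟨a', ha', b', hb', fun e => hab (by rw [e]), fun p hp => ?_, fun p hp => ?_⟩
      · rw [← det3_fr (o := o) h]; exact h1 _ (Finset.mem_image_of_mem _ hp)
      · rw [← det3_fr (o := o) h]; exact h2 _ (Finset.mem_image_of_mem _ hp)
    have hs := X.sep hV hV' hne'
    have e1 : ({fr o u w a, fr o u w b, fr o u w c} : Finset Pt) =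
        ({a, b, c} : Finset Pt).image (fr o u w) := by simp [Finset.image_insert]
    have e2 : ({fr o u w a', fr o u w b', fr o u w c'} : Finset Pt) =
        ({a', b', c'} : Finset Pt).image (fr o u w) := by simp [Finset.image_insert]
    rw [e1, e2] at hs
    rcases hs with hs | hs
    · exact Or.inl (key hs)
    · exact Or.inr (key hs)
  opp {a b c} hV := by
    rcases X.opp hV with ⟨d, hd⟩ | hW
    · left; exact ⟨fri o u w d, by rw [fr_fri h]; exact hd⟩
    · exact Or.inr hW
  opp_not hV hV' := X.opp_not hV hV'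
  W_prim {a b} hW := by
    have := X.W_prim hW
    rw [fr_sub] at this
    exact isCoprime_lin _ this
  W_symm hW := X.W_symm hW
  W_next {a b} hW := by rw [fr_add_sub]; exact X.W_next hW
  W_side {a b p q r} hW hV := by
    have := X.W_side hW hV
    simpa only [det3_fr h] using this
  W_coll {a b c} hW hW' := by
    have := X.W_coll hW hW'
    rwa [det3_fr h] at this
  corner {p a b} hV := by
    rcases X.corner hV with ⟨S, h1, h2⟩ | ⟨n, v, h1, h2, h3, h4⟩ | ⟨v, h1, h2, h3, h4⟩
    · left
      refine ⟨S.image (fun s => (fri o u w s.1, fri o u w s.2)), ?_, ?_⟩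
      · intro s hs
        obtain ⟨s', hs', rfl⟩ := Finset.mem_image.mp hs
        simp only [fr_fri h]
        exact h1 s' hs'
      · intro z hz
        have hz' : z.1 • u + z.2 • w ≠ 0 := by
          intro e
          apply hz
          have h1 : dt (z.1 • u + z.2 • w) w = z.1 := by
            unfold dt at h ⊢
            simp only [Prod.fst_add, Prod.snd_add, Prod.smul_fst, Prod.smul_snd, smul_eq_mul]
            linear_combination z.1 * h
          have h2 : dt u (z.1 • u + z.2 • w) = z.2 := by
            unfold dt at h ⊢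
            simp only [Prod.fst_add, Prod.snd_add, Prod.smul_fst, Prod.smul_snd, smul_eq_mul]
            linear_combination z.2 * h
          rw [e] at h1 h2
          ext
          · rw [← h1]; simp [dt]
          · rw [← h2]; simp [dt]
        obtain ⟨s, hs, h3, h4⟩ := h2 _ hz'
        refine ⟨_, Finset.mem_image_of_mem _ hs, ?_, ?_⟩
        · rw [← dt_lin h, ← fr_sub o, fr_fri h]; exact h3
        · rw [← dt_lin h, ← fr_sub o, fr_fri h]; exact h4
    · right; left
      refine ⟨n, fun i => fri o u w (v i), ?_, ?_, ?_, ?_⟩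
      · simp only [fr_fri h]; exact h1
      · simp only [fr_fri h]; exact h2
      · intro i hi; simp only [fr_fri h]; exact h3 i hi
      · obtain ⟨i, hi, e1, e2⟩ := h4
        refine ⟨i, hi, ?_, ?_⟩
        · simp only; rw [e1, fri_fr h]
        · simp only; rw [e2, fri_fr h]
    · right; right
      refine ⟨fun i => fri o u w (v i), ?_, ?_, ?_, ?_⟩
      · simp only [h1, fri_fr h]
      · simp only [h2, fri_fr h]
      · intro i; simp only [fr_fri h]; exact h3 i
      · intro i j hij; rw [← det3_fr (o := o) h]; simp only [fr_fri h]; exact h4 i j hij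
  conn {a b c a' b' c'} hV hV' := by
    have hc := X.conn hV hV'
    have key : ∀ s t : Pt × Pt × Pt, Relation.ReflTransGen (fun s t : Pt × Pt × Pt =>
        X.V s.1 s.2.1 s.2.2 ∧ X.V t.1 t.2.1 t.2.2 ∧
          (t = (s.2.1, s.2.2, s.1) ∨ (t.1 = s.2.1 ∧ t.2.1 = s.1))) s t →
        Relation.ReflTransGen (fun s t : Pt × Pt × Pt =>
        X.V (fr o u w s.1) (fr o u w s.2.1) (fr o u w s.2.2) ∧
          X.V (fr o u w t.1) (fr o u w t.2.1) (fr o u w t.2.2) ∧
          (t = (s.2.1, s.2.2, s.1) ∨ (t.1 = s.2.1 ∧ t.2.1 = s.1)))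
          (fri o u w s.1, fri o u w s.2.1, fri o u w s.2.2)
          (fri o u w t.1, fri o u w t.2.1, fri o u w t.2.2) := by
      intro s t hst
      induction hst with
      | refl => exact .refl
      | @tail t1 t2 _ hst ih =>
        refine .tail ih ?_
        simp only [fr_fri h]
        refine ⟨hst.1, hst.2.1, ?_⟩
        rcases hst.2.2 with e | ⟨e1, e2⟩
        · left; rw [e]
        · right; exact ⟨by rw [e1], by rw [e2]⟩
    have := key _ _ hc
    simpa only [fri_fr h] using this

variable {X} {o u w : Pt} (h : dt u w = 1)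

lemma tr_V {a b c : Pt} : (X.tr o u w h).V a b c ↔ X.V (fr o u w a) (fr o u w b) (fr o u w c) :=
  Iff.rfl

lemma tr_W {a b : Pt} : (X.tr o u w h).W a b ↔ X.W (fr o u w a) (fr o u w b) := Iff.rfl

lemma tr_VE {a b : Pt} : (X.tr o u w h).VE a b ↔ X.VE (fr o u w a) (fr o u w b) := by
  unfold VE
  constructor
  · rintro ⟨c, hc⟩
    exact ⟨fr o u w c, hc⟩
  · rintro ⟨c, hc⟩
    refine ⟨fri o u w c, ?_⟩
    rw [tr_V, tr_V, fr_fri h]; exact hc

lemma tr_closedAt {p : Pt} : (X.tr o u w h).ClosedAt p ↔ X.ClosedAt (fr o u w p) := by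
  constructor
  · rintro ⟨S, h1, h2⟩
    refine ⟨S.image (fun s => (fr o u w s.1, fr o u w s.2)), ?_, ?_⟩
    · intro s hs
      obtain ⟨s', hs', rfl⟩ := Finset.mem_image.mp hs
      exact h1 s' hs'
    · intro z hz
      have e : z = (fri 0 u w z).1 • u + (fri 0 u w z).2 • w := by
        have := fr_fri (o := 0) h z
        unfold fr at this
        rw [zero_add] at this
        exact this.symm
      have hz' : fri 0 u w z ≠ 0 := by
        intro e'; apply hz; rw [e, e']; simp
      obtain ⟨s, hs, h3, h4⟩ := h2 _ hz'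
      refine ⟨_, Finset.mem_image_of_mem _ hs, ?_, ?_⟩
      · rw [e]; simp only; rw [fr_sub, dt_lin h]; exact h3
      · rw [e]; simp only; rw [fr_sub, dt_lin h]; exact h4
  · rintro ⟨S, h1, h2⟩
    refine ⟨S.image (fun s => (fri o u w s.1, fri o u w s.2)), ?_, ?_⟩
    · intro s hs
      obtain ⟨s', hs', rfl⟩ := Finset.mem_image.mp hs
      rw [tr_V]
      simp only [fr_fri h]
      exact h1 s' hs'
    · intro z hz
      have hz' : z.1 • u + z.2 • w ≠ 0 := by
        intro e
        apply hz
        have h1 : dt (z.1 • u + z.2 • w) w = z.1 := by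
          unfold dt at h ⊢
          simp only [Prod.fst_add, Prod.snd_add, Prod.smul_fst, Prod.smul_snd, smul_eq_mul]
          linear_combination z.1 * h
        have h2 : dt u (z.1 • u + z.2 • w) = z.2 := by
          unfold dt at h ⊢
          simp only [Prod.fst_add, Prod.snd_add, Prod.smul_fst, Prod.smul_snd, smul_eq_mul]
          linear_combination z.2 * h
        rw [e] at h1 h2
        ext
        · rw [← h1]; simp [dt]
        · rw [← h2]; simp [dt]
      obtain ⟨s, hs, h3, h4⟩ := h2 _ hz'
      refine ⟨_, Finset.mem_image_of_mem _ hs, ?_, ?_⟩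
      · rw [← dt_lin h, ← fr_sub o, fr_fri h]; exact h3
      · rw [← dt_lin h, ← fr_sub o, fr_fri h]; exact h4

end MP01b126.Lim
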